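import Pool.Agent.W192.PP.Gauss
import Pool.Agent.W192.PP.Low

/-! The machinery of `Pool.Agent.W192.PP` for a general detector `d`. -/

open Complex Filter Topology Set MeasureTheory

namespace Pool.Agent.TH299.PG

open SG (phi hh dl phi_norm rectI rect_zero)
open SG.Deep (phi_analytic gauss_integrable gauss_integral)
open SP SP.EvalAux
open Pool.Agent.W192.SI (Adm dd ev_small4' ev_small4)
open Pool.Agent.W192.PP

/-- coefficients of `D(s) ζ(s-h)/ζ(s+h)` -/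
noncomputable def ee (c T : ℝ) (d : ℕ → ℂ) (N : ℕ) (j : ℕ) : ℂ := ec 0 (dl c T) N d j

theorem ee_bound (c T : ℝ) (d : ℕ → ℂ) (hd : ∀ n, ‖d n‖ ≤ 1) (N j : ℕ) :
    ‖ee c T d N j‖ ≤ (j : ℝ) ^ 2 := by
  unfold ee
  have := ec_bound 0 (dl c T) 1 (by norm_num) (by norm_num) N d hd j
  simpa using this

/-- the tail of the Dirichlet series -/
theorem tail_bound (c T : ℝ) (d : ℕ → ℂ) (hd : ∀ n, ‖d n‖ ≤ 1) (N N' : ℕ) (s : ℂ) (hs : 6 ≤ s.re) :
    ‖PPr 0 (dl c T) N (d) s - DP N' (ee c T d N) s‖ ≤ 2 * ((N' : ℝ) + 1) ^ (6 - s.re) := by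
  have hS := hasSum_ec 0 (dl c T) N (d) s (by linarith)
  set δ := dl c T with hδ
  have hf : HasSum (fun j : ℕ => if j ∈ Finset.Icc 1 N' then ec 0 δ N d j * (j : ℂ) ^ (-s) else 0)
      (DP N' (ee c T d N) s) := by
    have h := hasSum_sum_of_ne_finset_zero (L := SummationFilter.unconditional ℕ)
      (f := fun j : ℕ => if j ∈ Finset.Icc 1 N' then ec 0 δ N d j * (j : ℂ) ^ (-s) else 0)
      (s := Finset.Icc 1 N') (fun b hb => if_neg hb)
    have e : ∑ j ∈ Finset.Icc 1 N', (if j ∈ Finset.Icc 1 N' then ec 0 δ N d j * (j : ℂ) ^ (-s)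
        else 0) = DP N' (ee c T d N) s := by
      unfold DP
      refine Finset.sum_congr rfl fun j hj => ?_
      rw [if_pos hj]
      rfl
    rwa [e] at h
  have hd1 := hS.sub hf
  have hg : HasSum (fun j : ℕ => ((N' : ℝ) + 1) ^ (6 - s.re) * (1 / (j : ℝ) ^ 2))
      (((N' : ℝ) + 1) ^ (6 - s.re) * (Real.pi ^ 2 / 6)) := hasSum_zeta_two.mul_left _
  have hb : ∀ j : ℕ, ‖ec 0 δ N d j * (j : ℂ) ^ (-s) -
      (if j ∈ Finset.Icc 1 N' then ec 0 δ N d j * (j : ℂ) ^ (-s) else 0)‖ ≤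
      ((N' : ℝ) + 1) ^ (6 - s.re) * (1 / (j : ℝ) ^ 2) := by
    intro j
    rcases Nat.eq_zero_or_pos j with hj | hj
    · subst hj
      rw [ec_zero]
      simp only [zero_mul, ite_self, sub_zero, norm_zero]
      positivity
    · by_cases hjk : j ∈ Finset.Icc 1 N'
      · rw [if_pos hjk, sub_self, norm_zero]
        positivity
      · rw [if_neg hjk, sub_zero]
        have hkj : N' + 1 ≤ j := by
          simp only [Finset.mem_Icc, not_and, not_le] at hjk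
          have := hjk hj
          omega
        have hj1 : (0 : ℝ) < j := by exact_mod_cast hj
        have hj1' : (1 : ℝ) ≤ j := by exact_mod_cast hj
        have hkj' : (N' : ℝ) + 1 ≤ j := by exact_mod_cast hkj
        rw [norm_mul, Complex.norm_natCast_cpow_of_pos hj, Complex.neg_re]
        have h2 : ‖ec 0 δ N d j‖ ≤ (j : ℝ) ^ 2 := by
          exact ee_bound c T d hd N j
        have h4 : (j : ℝ) ^ (-s.re) = (j : ℝ) ^ (6 - s.re) * (1 / (j : ℝ) ^ 6) := by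
          have : (1 : ℝ) / (j : ℝ) ^ 6 = (j : ℝ) ^ (-6 : ℝ) := by
            rw [Real.rpow_neg hj1.le, one_div]
            norm_cast
          rw [this, ← Real.rpow_add hj1]
          congr 1
          ring
        have h5 : (j : ℝ) ^ (6 - s.re) ≤ ((N' : ℝ) + 1) ^ (6 - s.re) :=
          Real.rpow_le_rpow_of_nonpos (by positivity) hkj' (by linarith)
        have h6 : (j : ℝ) ^ 2 * (1 / (j : ℝ) ^ 6) ≤ 1 / (j : ℝ) ^ 2 := by
          have e : (j : ℝ) ^ 2 * (1 / (j : ℝ) ^ 6) = 1 / (j : ℝ) ^ 4 := by field_simp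
          rw [e]
          apply one_div_le_one_div_of_le (by positivity)
          exact pow_le_pow_right₀ hj1' (by norm_num)
        calc ‖ec 0 δ N d j‖ * (j : ℝ) ^ (-s.re)
            ≤ (j : ℝ) ^ 2 * ((j : ℝ) ^ (6 - s.re) * (1 / (j : ℝ) ^ 6)) := by
              rw [h4]
              exact mul_le_mul_of_nonneg_right h2 (by positivity)
          _ = (j : ℝ) ^ (6 - s.re) * ((j : ℝ) ^ 2 * (1 / (j : ℝ) ^ 6)) := by ring
          _ ≤ ((N' : ℝ) + 1) ^ (6 - s.re) * (1 / (j : ℝ) ^ 2) :=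
              mul_le_mul h5 h6 (by positivity) (by positivity)
  have hn : ‖PPr 0 δ N d s - DP N' (ee c T d N) s‖ ≤
      ((N' : ℝ) + 1) ^ (6 - s.re) * (Real.pi ^ 2 / 6) := by
    rw [← hd1.tsum_eq]
    exact tsum_of_norm_bounded hg hb
  refine hn.trans ?_
  have hpi : Real.pi ^ 2 / 6 ≤ 2 := by
    have := Real.pi_lt_d2
    have := Real.pi_pos
    nlinarith
  have : 0 ≤ ((N' : ℝ) + 1) ^ (6 - s.re) := by positivity
  nlinarith

theorem dps_right (c T : ℝ) (d : ℕ → ℂ) (hd : ∀ n, ‖d n‖ ≤ 1) (N : ℕ) (s : ℂ) (hs : 1 ≤ s.re) :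
    ‖DPs N (d) s‖ ≤ (N : ℝ) ^ s.re := by
  rcases Nat.eq_zero_or_pos N with hN | hN
  · subst hN
    unfold DPs
    simp
    positivity
  have hN0 : (0 : ℝ) < N := by exact_mod_cast hN
  unfold DPs
  calc ‖∑ k ∈ Finset.Icc 1 N, (starRingEnd ℂ) (d k) * (k : ℂ) ^ (s - 1)‖
      ≤ ∑ k ∈ Finset.Icc 1 N, (N : ℝ) ^ (s.re - 1) := by
        apply norm_sum_le_of_le
        intro n hn
        rw [Finset.mem_Icc] at hn
        rw [norm_mul, Complex.norm_natCast_cpow_of_pos hn.1, RCLike.norm_conj, Complex.sub_re,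
          Complex.one_re]
        have h1 : (n : ℝ) ^ (s.re - 1) ≤ (N : ℝ) ^ (s.re - 1) :=
          Real.rpow_le_rpow (by positivity) (by exact_mod_cast hn.2) (by linarith)
        have h2 := hd n
        have h3 : (0 : ℝ) ≤ (n : ℝ) ^ (s.re - 1) := by positivity
        nlinarith [norm_nonneg (d n)]
    _ = N * (N : ℝ) ^ (s.re - 1) := by
        rw [Finset.sum_const, nsmul_eq_mul, Nat.card_Icc, Nat.add_sub_cancel]
    _ = (N : ℝ) ^ s.re := by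
        rw [Real.rpow_sub hN0, Real.rpow_one]
        field_simp

/-- the polynomial `P` on `re ≥ 0` -/
theorem pp_bound (c T : ℝ) (d : ℕ → ℂ) (hd : ∀ n, ‖d n‖ ≤ 1) (N N' : ℕ) (s : ℂ) (hs : 0 ≤ s.re) :
    ‖DP N' (ee c T d N) s‖ ≤ (N' : ℝ) ^ 3 := by
  unfold DP
  calc ‖∑ n ∈ Finset.Icc 1 N', ee c T d N n * (n : ℂ) ^ (-s)‖
      ≤ ∑ n ∈ Finset.Icc 1 N', (N' : ℝ) ^ 2 := by
        apply norm_sum_le_of_le
        intro n hn
        rw [Finset.mem_Icc] at hn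
        rw [norm_mul, Complex.norm_natCast_cpow_of_pos hn.1, Complex.neg_re]
        have h1 : (n : ℝ) ^ (-s.re) ≤ 1 :=
          Real.rpow_le_one_of_one_le_of_nonpos (by exact_mod_cast hn.1) (by linarith)
        have h2 := ee_bound c T d hd N n
        have h3 : (n : ℝ) ^ 2 ≤ (N' : ℝ) ^ 2 :=
          pow_le_pow_left₀ (by positivity) (by exact_mod_cast hn.2) 2
        calc ‖ee c T d N n‖ * (n : ℝ) ^ (-s.re) ≤ (n : ℝ) ^ 2 * 1 :=
              mul_le_mul h2 h1 (by positivity) (by positivity)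
          _ ≤ (N' : ℝ) ^ 2 := by linarith
    _ = (N' : ℝ) ^ 3 := by
        rw [Finset.sum_const, nsmul_eq_mul, Nat.card_Icc, Nat.add_sub_cancel]
        ring

/-- the product `D g_v` -/
noncomputable def FF (H T : ℝ) (d : ℕ → ℂ) (N : ℕ) {J : ℕ} (v : Fin J → ℂ) (s : ℂ) : ℂ :=
  DP N (d) s * gv H v s

theorem sta_FF (H T : ℝ) (d : ℕ → ℂ) (N : ℕ) {J : ℕ} (v : Fin J → ℂ) (s : ℂ) :
    sta (FF H T d N v) s = DPs N (d) s * gs H v s := by
  have h := sta_mul (DP N (d)) (gv H v) s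
  rw [sta_DP, sta_gv] at h
  exact h

theorem FF_diff (H T : ℝ) (d : ℕ → ℂ) (N : ℕ) {J : ℕ} (v : Fin J → ℂ) :
    Differentiable ℂ (FF H T d N v) := (dp_analytic N _).mul (gv_diff H v)

/-- the first integrand: tail -/
noncomputable def G1 (c H T τ : ℝ) (d : ℕ → ℂ) (N N' : ℕ) {J : ℕ} (v : Fin J → ℂ) (s : ℂ) : ℂ :=
  rho c T s * (PPr 0 (dl c T) N (d) s - DP N' (ee c T d N) s) *
    (gv H v s * (DPs N (d) s * gs H v s)) * phi τ (dd H T) s

/-- the second integrand: polynomial part -/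
noncomputable def G2 (c H T τ : ℝ) (d : ℕ → ℂ) (N N' : ℕ) {J : ℕ} (v : Fin J → ℂ) (s : ℂ) : ℂ :=
  rho c T s * DP N' (ee c T d N) s *
    (gv H v s * (DPs N (d) s * gs H v s)) * phi τ (dd H T) s

theorem G_split (c H T τ : ℝ) (d : ℕ → ℂ) (N N' : ℕ) {J : ℕ} (v : Fin J → ℂ) (s : ℂ) (hs : 1 < s.re) :
    ff c T s * FF H T d N v s * sta (FF H T d N v) s * phi τ (dd H T) s =
      G1 c H T τ d N N' v s + G2 c H T τ d N N' v s := by
  rw [ff_eq c T s hs, sta_FF]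
  unfold G1 G2 FF PPr
  rw [Complex.ofReal_zero, sub_zero]
  ring

section bounds

variable {x η H T W : ℝ} {N N' J : ℕ}

/-- bound for the tail integrand without `φ` -/
theorem G1_bound (h : Dat x η H T W N N' J) (c : ℝ) (d : ℕ → ℂ) (hd : ∀ n, ‖d n‖ ≤ 1) (v : Fin J → ℂ) (s : ℂ) (hs : 6 ≤ s.re) :
    ‖PPr 0 (dl c T) N (d) s - DP N' (ee c T d N) s‖ *
      (‖gv H v s‖ * (‖DPs N (d) s‖ * ‖gs H v s‖)) ≤
      2 * T ^ (7 : ℝ) * T ^ (-(η * s.re)) * ∑ j, ‖v j‖ ^ 2 := by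
  have hT := h.T1
  have hT0 : 0 < T := by linarith
  have hη := h.η0
  have h1 := tail_bound c T d hd N N' s hs
  have h2 := dps_right c T d hd N s (by linarith)
  have hb0 : 0 ≤ η * Real.log T := mul_nonneg hη.le (Real.log_nonneg hT)
  have h3 := gg_prod_bound h.adm.H_pos v (η * Real.log T) hb0 h.j2 s
  have hV : 0 ≤ ∑ j, ‖v j‖ ^ 2 := Finset.sum_nonneg fun j _ => by positivity
  have h4 : ((N' : ℝ) + 1) ^ (6 - s.re) ≤ T ^ ((x + 2 * η) * (6 - s.re)) := by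
    rw [Real.rpow_mul hT0.le]
    exact Real.rpow_le_rpow_of_nonpos (Real.rpow_pos_of_pos hT0 _) h.n2 (by linarith)
  have h5 : (N : ℝ) ^ s.re ≤ T ^ (x * s.re) := by
    rw [Real.rpow_mul hT0.le]
    exact Real.rpow_le_rpow (by positivity) h.n1 (by linarith)
  have h6 : Real.exp (|s.re - 1 / 2| * (η * Real.log T)) ≤ T ^ (η * s.re) := by
    rw [Real.rpow_def_of_pos hT0, abs_of_nonneg (by linarith)]
    apply Real.exp_le_exp.mpr
    nlinarith
  have h7 : T ^ ((x + 2 * η) * (6 - s.re)) * T ^ (x * s.re) * T ^ (η * s.re) * T ≤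
      T ^ (7 : ℝ) * T ^ (-(η * s.re)) := by
    nth_rewrite 4 [← Real.rpow_one T]
    rw [← Real.rpow_add hT0, ← Real.rpow_add hT0, ← Real.rpow_add hT0, ← Real.rpow_add hT0]
    apply Real.rpow_le_rpow_of_exponent_le hT
    nlinarith [h.x1, h.x0]
  calc ‖PPr 0 (dl c T) N (d) s - DP N' (ee c T d N) s‖ *
      (‖gv H v s‖ * (‖DPs N (d) s‖ * ‖gs H v s‖))
      = ‖PPr 0 (dl c T) N (d) s - DP N' (ee c T d N) s‖ *
        ‖DPs N (d) s‖ * (‖gv H v s‖ * ‖gs H v s‖) := by ring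
    _ ≤ (2 * T ^ ((x + 2 * η) * (6 - s.re))) * T ^ (x * s.re) *
        (T ^ (η * s.re) * (T * ∑ j, ‖v j‖ ^ 2)) := by
        apply mul_le_mul
        · apply mul_le_mul _ (h2.trans h5) (norm_nonneg _) (by positivity)
          exact h1.trans (mul_le_mul_of_nonneg_left h4 (by norm_num))
        · refine h3.trans ?_
          apply mul_le_mul h6 _ (by positivity) (by positivity)
          exact mul_le_mul_of_nonneg_right h.j1 hV
        · positivity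
        · positivity
    _ = 2 * (T ^ ((x + 2 * η) * (6 - s.re)) * T ^ (x * s.re) * T ^ (η * s.re) * T) *
        ∑ j, ‖v j‖ ^ 2 := by ring
    _ ≤ 2 * (T ^ (7 : ℝ) * T ^ (-(η * s.re))) * ∑ j, ‖v j‖ ^ 2 := by
        apply mul_le_mul_of_nonneg_right _ hV
        exact mul_le_mul_of_nonneg_left h7 (by norm_num)
    _ = _ := by ring

/-- bound for the polynomial integrand without `φ` -/
theorem G2_bound (h : Dat x η H T W N N' J) (c : ℝ) (d : ℕ → ℂ) (hd : ∀ n, ‖d n‖ ≤ 1) (v : Fin J → ℂ) (s : ℂ) (hs : -5 ≤ s.re)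
    (hs2 : s.re ≤ 6) :
    (‖gv H v s‖ * (‖DPs N (d) s‖ * ‖gs H v s‖)) ≤
      T ^ (13 : ℝ) * ∑ j, ‖v j‖ ^ 2 := by
  have hT := h.T1
  have hT0 : 0 < T := by linarith
  have hη := h.η0
  have hb0 : 0 ≤ η * Real.log T := mul_nonneg hη.le (Real.log_nonneg hT)
  have h3 := gg_prod_bound h.adm.H_pos v (η * Real.log T) hb0 h.j2 s
  have hV : 0 ≤ ∑ j, ‖v j‖ ^ 2 := Finset.sum_nonneg fun j _ => by positivity
  have h2 : ‖DPs N (d) s‖ ≤ T ^ (6 : ℝ) := by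
    refine (norm_dps N (d) 1 (hd) s hs2).trans ?_
    have : (N : ℝ) * (1 * (N : ℝ) ^ 5) = (N : ℝ) ^ 6 := by ring
    rw [this]
    have h6 : T ^ (6 : ℝ) = T ^ 6 := by norm_cast
    rw [h6]
    exact pow_le_pow_left₀ (by positivity) h.N_le 6
  have h6 : Real.exp (|s.re - 1 / 2| * (η * Real.log T)) ≤ T ^ (6 : ℝ) := by
    rw [Real.rpow_def_of_pos hT0]
    apply Real.exp_le_exp.mpr
    have habs : |s.re - 1 / 2| ≤ 6 := by rw [abs_le]; constructor <;> linarith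
    have hl := Real.log_nonneg hT
    have : |s.re - 1 / 2| * (η * Real.log T) ≤ 6 * (1 * Real.log T) :=
      mul_le_mul habs (mul_le_mul_of_nonneg_right h.η1 hl) hb0 (by norm_num)
    linarith
  calc (‖gv H v s‖ * (‖DPs N (d) s‖ * ‖gs H v s‖))
      = ‖DPs N (d) s‖ * (‖gv H v s‖ * ‖gs H v s‖) := by ring
    _ ≤ T ^ (6 : ℝ) * (T ^ (6 : ℝ) * (T * ∑ j, ‖v j‖ ^ 2)) := by
        apply mul_le_mul h2 _ (by positivity) (by positivity)
        refine h3.trans ?_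
        apply mul_le_mul h6 _ (by positivity) (by positivity)
        exact mul_le_mul_of_nonneg_right h.j1 hV
    _ = T ^ (13 : ℝ) * ∑ j, ‖v j‖ ^ 2 := by
        have a1 : T ^ (13 : ℝ) = T ^ 13 := by norm_cast
        have a2 : T ^ (6 : ℝ) = T ^ 6 := by norm_cast
        rw [a1, a2]
        ring

end bounds

theorem G1_an (c H T τ : ℝ) (d : ℕ → ℂ) (N N' : ℕ) {J : ℕ} (v : Fin J → ℂ) (s : ℂ) (hs : 1 < s.re)
    (hr : AnalyticAt ℂ (rho c T) s) : AnalyticAt ℂ (G1 c H T τ d N N' v) s := by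
  unfold G1
  exact ((hr.mul ((PPr_analytic _ _ _ _ s hs).sub ((dp_analytic _ _).analyticAt s))).mul
    (((gv_diff H v).analyticAt s).mul (((dps_analytic _ _).analyticAt s).mul
      ((gs_diff H v).analyticAt s)))).mul (phi_analytic _ _ s)

theorem G2_an (c H T τ : ℝ) (d : ℕ → ℂ) (N N' : ℕ) {J : ℕ} (v : Fin J → ℂ) (s : ℂ)
    (hr : AnalyticAt ℂ (rho c T) s) : AnalyticAt ℂ (G2 c H T τ d N N' v) s := by
  unfold G2
  exact ((hr.mul ((dp_analytic _ _).analyticAt s)).mul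
    (((gv_diff H v).analyticAt s).mul (((dps_analytic _ _).analyticAt s).mul
      ((gs_diff H v).analyticAt s)))).mul (phi_analytic _ _ s)

/-- **the shift** -/
theorem shift_main (c : ℝ) (hc : 0 < c) (hc1 : c < 1) :
    ∃ T0 : ℝ, ∀ (x η H T W : ℝ) (d : ℕ → ℂ) (_ : ∀ n, ‖d n‖ ≤ 1) (N N' J : ℕ), T0 ≤ T → Dat x η H T W N N' J →
    ∀ (U1 U2 τ : ℝ), W ≤ U1 → U1 ≤ W + H / 20 → W + H - H / 20 ≤ U2 → U2 ≤ W + H →
    W + H / 4 ≤ τ → τ ≤ W + 3 * H / 4 → ∀ v : Fin J → ℂ,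
    ‖(∫ t in U1..U2, ff c T (⟨6, t⟩ : ℂ) * FF H T d N v (⟨6, t⟩ : ℂ) *
        sta (FF H T d N v) (⟨6, t⟩ : ℂ) * phi τ (dd H T) (⟨6, t⟩ : ℂ)) -
      ∫ t in U1..U2, G2 c H T τ d N N' v (⟨1 / 2, t⟩ : ℂ)‖ ≤ ∑ j, ‖v j‖ ^ 2 := by
  obtain ⟨C, T1, hC, hT1, hrho⟩ := SP.rho_bound c hc hc1
  have ev1 := ev_small4' 17 (1 / 50) (1 / (64 * C * Real.exp 1)) (by norm_num) (by positivity)
  obtain ⟨T2, hT2⟩ := eventually_atTop.mp (ev1.and (eventually_ge_atTop (8 * C * Real.exp 1)))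
  refine ⟨max T1 T2, fun x η H T W d hd N N' J hT hdat U1 U2 τ hU1 hU1' hU2 hU2' hτ1 hτ2 v => ?_⟩
  have hTa : T1 ≤ T := (le_max_left _ _).trans hT
  obtain ⟨hsm, hT8⟩ := hT2 T ((le_max_right _ _).trans hT)
  have hA := hdat.adm
  have hT1' := hdat.T1
  have hT0 : 0 < T := by linarith
  have hH := hA.H_pos
  have hHge := hA.H_ge
  norm_num at hHge
  have hHT := hA.hi
  have hw1 := hdat.w1
  have hw2 := hdat.w2
  have hD := hA.dd_pos
  have hD100 := hA.one_le_dd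
  have hDT := hA.dd_le_T
  set D := dd H T with hDdef
  set V := ∑ j, ‖v j‖ ^ 2 with hV
  have hV0 : 0 ≤ V := Finset.sum_nonneg fun j _ => by positivity
  have hU12 : U1 < U2 := by linarith
  set E := Real.exp (-(1 / 50) * Real.log T ^ 4) with hE
  have hE0 : 0 < E := Real.exp_pos _
  have he0 : 0 < Real.exp 1 := Real.exp_pos 1
  have hC0 : 0 < C := by linarith
  -- rho
  have hr : ∀ s : ℂ, U1 ≤ s.im → s.im ≤ U2 → |s.re| ≤ T / 4 →
      AnalyticAt ℂ (rho c T) s ∧ ‖rho c T s‖ ≤ C := fun s h1 h2 h3 =>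
    hrho T hTa s (by linarith) (by linarith) h3
  -- analytic
  have han1 : ∀ s : ℂ, 6 ≤ s.re → s.re ≤ 1 / 2 + D → U1 ≤ s.im → s.im ≤ U2 →
      AnalyticAt ℂ (G1 c H T τ d N N' v) s := fun s h1 h2 h3 h4 =>
    G1_an c H T τ d N N' v s (by linarith) (hr s h3 h4 (by rw [abs_of_pos (by linarith)]; linarith)).1
  have han2 : ∀ s : ℂ, 1 / 2 ≤ s.re → s.re ≤ 6 → U1 ≤ s.im → s.im ≤ U2 →
      AnalyticAt ℂ (G2 c H T τ d N N' v) s := fun s h1 h2 h3 h4 =>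
    G2_an c H T τ d N N' v s (hr s h3 h4 (by rw [abs_of_pos (by linarith)]; linarith)).1
  -- distance from τ on the horizontals
  have hfar1 : H / 5 ≤ |U1 - τ| := by
    rw [abs_of_nonpos (by linarith)]; linarith
  have hfar2 : H / 5 ≤ |U2 - τ| := by
    rw [abs_of_nonneg (by linarith)]; linarith
  have h17 : T ^ (17 : ℝ) * E ≤ 1 / (64 * C * Real.exp 1) := hsm
  have hpow : ∀ a : ℝ, a ≤ 17 → T ^ a ≤ T ^ (17 : ℝ) := fun a ha =>
    Real.rpow_le_rpow_of_exponent_le hT1' ha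
  -- pieces
  have hG1 : ∀ s : ℂ, 6 ≤ s.re → s.re ≤ 1 / 2 + D → U1 ≤ s.im → s.im ≤ U2 →
      ‖G1 c H T τ d N N' v s‖ ≤ C * (2 * T ^ (7 : ℝ) * T ^ (-(η * s.re)) * V) *
        ‖phi τ D s‖ := by
    intro s h1 h2 h3 h4
    unfold G1
    rw [norm_mul]
    apply mul_le_mul_of_nonneg_right _ (norm_nonneg _)
    rw [norm_mul, norm_mul, norm_mul, norm_mul, mul_assoc]
    exact mul_le_mul (hr s h3 h4 (by rw [abs_of_pos (by linarith)]; linarith)).2
      (G1_bound hdat c d hd v s h1) (by positivity) hC0.le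
  have hG2 : ∀ s : ℂ, 1 / 2 ≤ s.re → s.re ≤ 6 → U1 ≤ s.im → s.im ≤ U2 →
      ‖G2 c H T τ d N N' v s‖ ≤ C * (T ^ (16 : ℝ) * V) * ‖phi τ D s‖ := by
    intro s h1 h2 h3 h4
    unfold G2
    rw [norm_mul]
    apply mul_le_mul_of_nonneg_right _ (norm_nonneg _)
    rw [norm_mul, norm_mul, norm_mul, norm_mul, mul_assoc]
    apply mul_le_mul (hr s h3 h4 (by rw [abs_of_pos (by linarith)]; linarith)).2 _
      (by positivity) hC0.le
    have p1 : ‖DP N' (ee c T d N) s‖ ≤ T ^ (3 : ℝ) := by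
      refine (pp_bound c T d hd N N' s (by linarith)).trans ?_
      have : T ^ (3 : ℝ) = T ^ 3 := by norm_cast
      rw [this]
      exact pow_le_pow_left₀ (by positivity) hdat.n3 3
    have p2 := G2_bound hdat c d hd v s (by linarith) h2
    calc ‖DP N' (ee c T d N) s‖ * (‖gv H v s‖ * (‖DPs N (d) s‖ * ‖gs H v s‖)) ≤
          T ^ (3 : ℝ) * (T ^ (13 : ℝ) * V) := mul_le_mul p1 p2 (by positivity) (by positivity)
      _ = T ^ (16 : ℝ) * V := by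
          rw [← mul_assoc, ← Real.rpow_add hT0]
          norm_num
  -- horizontals
  have hor1 : ∀ σ : ℝ, 6 ≤ σ → σ ≤ 1 / 2 + D → ∀ U : ℝ, (U = U1 ∨ U = U2) →
      ‖G1 c H T τ d N N' v (⟨σ, U⟩ : ℂ)‖ ≤ 2 * C * Real.exp 1 * V * (T ^ (7 : ℝ) * E) := by
    intro σ h1 h2 U hU
    have hUb : U1 ≤ U ∧ U ≤ U2 ∧ H / 5 ≤ |U - τ| := by
      rcases hU with rfl | rfl
      · exact ⟨le_rfl, hU12.le, hfar1⟩
      · exact ⟨hU12.le, le_rfl, hfar2⟩
    refine (hG1 ⟨σ, U⟩ h1 h2 hUb.1 hUb.2.1).trans ?_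
    have p1 := phi_small hA τ (⟨σ, U⟩ : ℂ) (by
      rw [abs_of_nonneg (by simp only; linarith)]; simp only; linarith) hUb.2.2
    have p2 : T ^ (-(η * (⟨σ, U⟩ : ℂ).re)) ≤ 1 := by
      apply Real.rpow_le_one_of_one_le_of_nonpos hT1'
      have := hdat.η0
      simp only
      nlinarith
    calc C * (2 * T ^ (7 : ℝ) * T ^ (-(η * (⟨σ, U⟩ : ℂ).re)) * V) * ‖phi τ D (⟨σ, U⟩ : ℂ)‖
        ≤ C * (2 * T ^ (7 : ℝ) * 1 * V) * (Real.exp 1 * E) := by
          apply mul_le_mul _ p1 (norm_nonneg _) (by positivity)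
          apply mul_le_mul_of_nonneg_left _ hC0.le
          apply mul_le_mul_of_nonneg_right _ hV0
          exact mul_le_mul_of_nonneg_left p2 (by positivity)
      _ = _ := by ring
  have hor2 : ∀ σ : ℝ, 1 / 2 ≤ σ → σ ≤ 6 → ∀ U : ℝ, (U = U1 ∨ U = U2) →
      ‖G2 c H T τ d N N' v (⟨σ, U⟩ : ℂ)‖ ≤ C * Real.exp 1 * V * (T ^ (16 : ℝ) * E) := by
    intro σ h1 h2 U hU
    have hUb : U1 ≤ U ∧ U ≤ U2 ∧ H / 5 ≤ |U - τ| := by
      rcases hU with rfl | rfl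
      · exact ⟨le_rfl, hU12.le, hfar1⟩
      · exact ⟨hU12.le, le_rfl, hfar2⟩
    refine (hG2 ⟨σ, U⟩ h1 h2 hUb.1 hUb.2.1).trans ?_
    have p1 := phi_small hA τ (⟨σ, U⟩ : ℂ) (by
      rw [abs_of_nonneg (by simp only; linarith)]; simp only; linarith) hUb.2.2
    calc C * (T ^ (16 : ℝ) * V) * ‖phi τ D (⟨σ, U⟩ : ℂ)‖
        ≤ C * (T ^ (16 : ℝ) * V) * (Real.exp 1 * E) :=
          mul_le_mul_of_nonneg_left p1 (by positivity)
      _ = _ := by ring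
  -- shifts
  have s1 := vshift (G1 c H T τ d N N' v) 6 (1 / 2 + D) U1 U2 _ (by linarith) hU12 han1
    (fun σ h1 h2 => ⟨hor1 σ h1 h2 U1 (Or.inl rfl), hor1 σ h1 h2 U2 (Or.inr rfl)⟩)
  have s2 := vshift (G2 c H T τ d N N' v) (1 / 2) 6 U1 U2 _ (by norm_num) hU12 han2
    (fun σ h1 h2 => ⟨hor2 σ h1 h2 U1 (Or.inl rfl), hor2 σ h1 h2 U2 (Or.inr rfl)⟩)
  -- the far vertical line
  have s3 : ‖∫ y in U1..U2, G1 c H T τ d N N' v (⟨1 / 2 + D, y⟩ : ℂ)‖ ≤ V / 4 := by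
    have hb : ∀ y ∈ Set.uIoc U1 U2, ‖G1 c H T τ d N N' v (⟨1 / 2 + D, y⟩ : ℂ)‖ ≤
        C * (2 * T ^ (7 : ℝ) * T ^ (-40 : ℝ) * V) * Real.exp 1 := by
      intro y hy
      rw [uIoc_of_le hU12.le] at hy
      refine (hG1 ⟨1 / 2 + D, y⟩ (by simp only; linarith) le_rfl hy.1.le hy.2).trans ?_
      have p1 := phi_le hA τ (⟨1 / 2 + D, y⟩ : ℂ) (by
        simp only
        rw [add_sub_cancel_left, abs_of_pos hD])
      have p2 : T ^ (-(η * (⟨1 / 2 + D, y⟩ : ℂ).re)) ≤ T ^ (-40 : ℝ) := by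
        apply Real.rpow_le_rpow_of_exponent_le hT1'
        have h1 := hdat.η0
        have h2 := hdat.dbig
        rw [div_le_iff₀ h1] at h2
        simp only
        nlinarith
      apply mul_le_mul _ p1 (norm_nonneg _) (by positivity)
      apply mul_le_mul_of_nonneg_left _ hC0.le
      apply mul_le_mul_of_nonneg_right _ hV0
      exact mul_le_mul_of_nonneg_left p2 (by positivity)
    refine (intervalIntegral.norm_integral_le_of_norm_le_const hb).trans ?_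
    have hlen : |U2 - U1| ≤ T := by
      rw [abs_of_nonneg (by linarith)]
      linarith
    have hTT : T ^ (7 : ℝ) * T ^ (-40 : ℝ) * T ≤ 1 / T := by
      have : (1 : ℝ) / T = T ^ (-1 : ℝ) := by rw [Real.rpow_neg_one, one_div]
      rw [this]
      nth_rewrite 3 [← Real.rpow_one T]
      rw [← Real.rpow_add hT0, ← Real.rpow_add hT0]
      exact Real.rpow_le_rpow_of_exponent_le hT1' (by norm_num)
    calc C * (2 * T ^ (7 : ℝ) * T ^ (-40 : ℝ) * V) * Real.exp 1 * |U2 - U1|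
        ≤ C * (2 * T ^ (7 : ℝ) * T ^ (-40 : ℝ) * V) * Real.exp 1 * T :=
          mul_le_mul_of_nonneg_left hlen (by positivity)
      _ = 2 * C * Real.exp 1 * V * (T ^ (7 : ℝ) * T ^ (-40 : ℝ) * T) := by ring
      _ ≤ 2 * C * Real.exp 1 * V * (1 / T) := mul_le_mul_of_nonneg_left hTT (by positivity)
      _ = V * (2 * C * Real.exp 1 / T) := by ring
      _ ≤ V * (1 / 4) := by
          apply mul_le_mul_of_nonneg_left _ hV0
          rw [div_le_div_iff₀ hT0 (by norm_num)]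
          linarith
      _ = V / 4 := by ring
  -- split
  have i1 := an_cont (p := 6) hU12.le (fun s h1 h2 h3 =>
    han1 s (by linarith) (by linarith) h2 h3)
  have i2 := an_cont (p := 6) hU12.le (fun s h1 h2 h3 =>
    han2 s (by linarith) (by linarith) h2 h3)
  have hsplit : (∫ t in U1..U2, ff c T (⟨6, t⟩ : ℂ) * FF H T d N v (⟨6, t⟩ : ℂ) *
        sta (FF H T d N v) (⟨6, t⟩ : ℂ) * phi τ D (⟨6, t⟩ : ℂ)) =
      (∫ t in U1..U2, G1 c H T τ d N N' v (⟨6, t⟩ : ℂ)) +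
      ∫ t in U1..U2, G2 c H T τ d N N' v (⟨6, t⟩ : ℂ) := by
    rw [← intervalIntegral.integral_add i1 i2]
    apply intervalIntegral.integral_congr
    intro t _
    exact G_split c H T τ d N N' v ⟨6, t⟩ (by norm_num)
  rw [hsplit]
  -- conclusion
  have c1 : 2 * (1 / 2 + D - 6) * (2 * C * Real.exp 1 * V * (T ^ (7 : ℝ) * E)) ≤ V / 8 := by
    have hTE : T * (T ^ (7 : ℝ) * E) ≤ T ^ (17 : ℝ) * E := by
      rw [← mul_assoc]
      apply mul_le_mul_of_nonneg_right _ hE0.le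
      nth_rewrite 1 [← Real.rpow_one T]
      rw [← Real.rpow_add hT0]
      exact Real.rpow_le_rpow_of_exponent_le hT1' (by norm_num)
    calc 2 * (1 / 2 + D - 6) * (2 * C * Real.exp 1 * V * (T ^ (7 : ℝ) * E)) ≤
        2 * T * (2 * C * Real.exp 1 * V * (T ^ (7 : ℝ) * E)) := by
          apply mul_le_mul_of_nonneg_right _ (by positivity)
          linarith
      _ = 4 * C * Real.exp 1 * V * (T * (T ^ (7 : ℝ) * E)) := by ring
      _ ≤ 4 * C * Real.exp 1 * V * (1 / (64 * C * Real.exp 1)) := by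
          apply mul_le_mul_of_nonneg_left _ (by positivity)
          exact hTE.trans h17
      _ = V / 16 := by field_simp; ring
      _ ≤ V / 8 := by linarith
  have c2 : 2 * (6 - 1 / 2) * (C * Real.exp 1 * V * (T ^ (16 : ℝ) * E)) ≤ V / 4 := by
    have hTE : T ^ (16 : ℝ) * E ≤ T ^ (17 : ℝ) * E :=
      mul_le_mul_of_nonneg_right (hpow 16 (by norm_num)) hE0.le
    calc 2 * (6 - 1 / 2) * (C * Real.exp 1 * V * (T ^ (16 : ℝ) * E)) =
        11 * C * Real.exp 1 * V * (T ^ (16 : ℝ) * E) := by ring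
      _ ≤ 11 * C * Real.exp 1 * V * (1 / (64 * C * Real.exp 1)) := by
          apply mul_le_mul_of_nonneg_left _ (by positivity)
          exact hTE.trans h17
      _ = V * (11 / 64) := by field_simp
      _ ≤ V / 4 := by linarith
  have key : ‖((∫ t in U1..U2, G1 c H T τ d N N' v (⟨6, t⟩ : ℂ)) +
      ∫ t in U1..U2, G2 c H T τ d N N' v (⟨6, t⟩ : ℂ)) -
      ∫ t in U1..U2, G2 c H T τ d N N' v (⟨1 / 2, t⟩ : ℂ)‖ ≤
      ‖(∫ y in U1..U2, G1 c H T τ d N N' v (⟨6, y⟩ : ℂ)) -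
        ∫ y in U1..U2, G1 c H T τ d N N' v (⟨1 / 2 + D, y⟩ : ℂ)‖ +
      ‖∫ y in U1..U2, G1 c H T τ d N N' v (⟨1 / 2 + D, y⟩ : ℂ)‖ +
      ‖(∫ y in U1..U2, G2 c H T τ d N N' v (⟨1 / 2, y⟩ : ℂ)) -
        ∫ y in U1..U2, G2 c H T τ d N N' v (⟨6, y⟩ : ℂ)‖ := by
    rw [← norm_neg ((∫ y in U1..U2, G2 c H T τ d N N' v (⟨1 / 2, y⟩ : ℂ)) -
        ∫ y in U1..U2, G2 c H T τ d N N' v (⟨6, y⟩ : ℂ))]
    refine le_trans ?_ (norm_add₃_le)
    apply le_of_eq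
    congr 1
    ring
  refine key.trans ?_
  linarith

theorem dp_line (c T : ℝ) (d : ℕ → ℂ) (hd : ∀ n, ‖d n‖ ≤ 1) (N : ℕ) (t : ℝ) : ‖DP N (d) (⟨1 / 2, t⟩ : ℂ)‖ ≤ N := by
  have := norm_dp N (d) 1 (hd) (⟨1 / 2, t⟩ : ℂ) (by norm_num)
  simpa using this

/-- the diagonal -/
noncomputable def be (c T : ℝ) (d : ℕ → ℂ) (N : ℕ) : ℂ :=
  ∑ l ∈ Finset.Icc 1 N, ee c T d N l * (starRingEnd ℂ) (d l) / (l : ℂ)

/-- the main term on `[U1,U2]` -/
theorem gauss_main : ∃ T0 : ℝ, ∀ (x η c H T W : ℝ) (d : ℕ → ℂ) (_ : ∀ n, ‖d n‖ ≤ 1) (N N' J : ℕ), T0 ≤ T →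
    Dat x η H T W N N' J → N ≤ N' → Real.log T ^ 2 * N' ≤ dd H T →
    ∀ (U1 U2 τ : ℝ), W ≤ U1 → U1 ≤ W + H / 20 → W + H - H / 20 ≤ U2 → U2 ≤ W + H →
    W + H / 4 ≤ τ → τ ≤ W + 3 * H / 4 →
    ‖(∫ t in U1..U2, (wt τ (dd H T) t : ℂ) * (DP N' (ee c T d N) (⟨1 / 2, t⟩ : ℂ) *
      (starRingEnd ℂ) (DP N (d) (⟨1 / 2, t⟩ : ℂ)))) -
      ((dd H T * Real.sqrt (2 * Real.pi) : ℝ) : ℂ) * be c T d N‖ ≤ 1 := by
  have ev1 := ev_small4' 5 (1 / 100) (1 / 12) (by norm_num) (by norm_num)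
  have ev2 := ev_small4' 5 (1 / 2) (1 / 12) (by norm_num) (by norm_num)
  obtain ⟨T0, hT0⟩ := eventually_atTop.mp (ev1.and ev2)
  refine ⟨T0, fun x η c H T W d hd N N' J hT hdat hNN hbig U1 U2 τ hU1 hU1' hU2 hU2' hτ1 hτ2 => ?_⟩
  obtain ⟨k1, k2⟩ := hT0 T hT
  have hA := hdat.adm
  have hD := hA.dd_pos
  have hL := hA.log_ge
  have hH := hA.H_pos
  have hT1 := hdat.T1
  have hTpos : 0 < T := by linarith
  set D := dd H T with hDdef
  have hDT : D ≤ T / 100 := hA.dd_le_T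
  have h5 : Real.sqrt (2 * Real.pi) ≤ 3 := by
    rw [Real.sqrt_le_left (by norm_num)]
    have := Real.pi_lt_four
    linarith
  have ha : ∀ j ∈ Finset.Icc 1 N', ‖ee c T d N j‖ ≤ T ^ 2 := by
    intro j hj
    refine (ee_bound c T d hd N j).trans ?_
    apply pow_le_pow_left₀ (by positivity)
    exact le_trans (by exact_mod_cast (Finset.mem_Icc.mp hj).2) hdat.n3
  have hv := pd_val (ee c T d N) (d) N N' hNN D τ (T ^ 2) hD ha (hd)
  have hbe : ∑ l ∈ Finset.Icc 1 N, ee c T d N l * (starRingEnd ℂ) (d l) / (l : ℂ) =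
      be c T d N := rfl
  rw [hbe] at hv
  have hK : ∀ t : ℝ, ‖DP N' (ee c T d N) (⟨1 / 2, t⟩ : ℂ) *
      (starRingEnd ℂ) (DP N (d) (⟨1 / 2, t⟩ : ℂ))‖ ≤ T ^ 4 := by
    intro t
    rw [norm_mul, RCLike.norm_conj]
    have p1 := pp_bound c T d hd N N' (⟨1 / 2, t⟩ : ℂ) (by norm_num)
    have p2 := dp_line c T d hd N t
    have p3 : (N' : ℝ) ^ 3 ≤ T ^ 3 := pow_le_pow_left₀ (by positivity) hdat.n3 3
    calc _ ≤ T ^ 3 * T := mul_le_mul (p1.trans p3) (p2.trans hdat.N_le) (norm_nonneg _)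
          (by positivity)
      _ = T ^ 4 := by ring
  have hc := cut_tail hA (fun t => DP N' (ee c T d N) (⟨1 / 2, t⟩ : ℂ) *
      (starRingEnd ℂ) (DP N (d) (⟨1 / 2, t⟩ : ℂ))) τ U1 U2 (T ^ 4) (by linarith)
      (by linarith) (by linarith) hK (pd_int _ _ _ _ _ _ hD)
  have c1 : T ^ 4 * Real.exp (-(1 / 100) * Real.log T ^ 4) * (6 * D) ≤ 1 / 2 := by
    calc T ^ 4 * Real.exp (-(1 / 100) * Real.log T ^ 4) * (6 * D) ≤
        T ^ 4 * Real.exp (-(1 / 100) * Real.log T ^ 4) * (6 * T) := by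
          apply mul_le_mul_of_nonneg_left _ (by positivity)
          linarith
      _ = 6 * (T ^ (5 : ℝ) * Real.exp (-(1 / 100) * Real.log T ^ 4)) := by
          have : T ^ (5 : ℝ) = T ^ 5 := by norm_cast
          rw [this]
          ring
      _ ≤ 6 * (1 / 12) := mul_le_mul_of_nonneg_left k1 (by norm_num)
      _ = 1 / 2 := by norm_num
  have c2 : D * Real.sqrt (2 * Real.pi) * (N' * (N * (T ^ 2 *
      Real.exp (-(D ^ 2 / (2 * (N' : ℝ) ^ 2)))))) ≤ 1 / 2 := by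
    rcases Nat.eq_zero_or_pos N' with h0 | h0
    · rw [h0]
      simp
    have hN0 : (0 : ℝ) < N' := by exact_mod_cast h0
    have g1 : Real.exp (-(D ^ 2 / (2 * (N' : ℝ) ^ 2))) ≤ Real.exp (-(1 / 2) * Real.log T ^ 4) := by
      apply Real.exp_le_exp.mpr
      have : Real.log T ^ 4 ≤ D ^ 2 / (N' : ℝ) ^ 2 := by
        rw [le_div_iff₀ (by positivity)]
        have := pow_le_pow_left₀ (by positivity) hbig 2
        calc Real.log T ^ 4 * (N' : ℝ) ^ 2 = (Real.log T ^ 2 * N') ^ 2 := by ring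
          _ ≤ D ^ 2 := this
      have e : D ^ 2 / (2 * (N' : ℝ) ^ 2) = D ^ 2 / (N' : ℝ) ^ 2 / 2 := by field_simp
      rw [e]
      linarith
    calc D * Real.sqrt (2 * Real.pi) * (N' * (N * (T ^ 2 *
          Real.exp (-(D ^ 2 / (2 * (N' : ℝ) ^ 2)))))) ≤
        T / 100 * 3 * (T * (T * (T ^ 2 * Real.exp (-(1 / 2) * Real.log T ^ 4)))) := by
          apply mul_le_mul _ _ (by positivity) (by positivity)
          · exact mul_le_mul hDT h5 (Real.sqrt_nonneg _) (by positivity)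
          · apply mul_le_mul hdat.n3 _ (by positivity) (by positivity)
            apply mul_le_mul hdat.N_le _ (by positivity) (by positivity)
            exact mul_le_mul_of_nonneg_left g1 (by positivity)
      _ = 3 / 100 * (T ^ (5 : ℝ) * Real.exp (-(1 / 2) * Real.log T ^ 4)) := by
          have : T ^ (5 : ℝ) = T ^ 5 := by norm_cast
          rw [this]
          ring
      _ ≤ 3 / 100 * (1 / 12) := mul_le_mul_of_nonneg_left k2 (by norm_num)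
      _ ≤ 1 / 2 := by norm_num
  have tri : ∀ (X Y Z : ℂ), ‖Y - Z‖ ≤ ‖X - Y‖ + ‖X - Z‖ := by
    intro X Y Z
    have : Y - Z = -(X - Y) + (X - Z) := by ring
    rw [this]
    refine (norm_add_le _ _).trans ?_
    rw [norm_neg]
  refine (tri (∫ t : ℝ, (wt τ D t : ℂ) * (DP N' (ee c T d N) (⟨1 / 2, t⟩ : ℂ) *
      (starRingEnd ℂ) (DP N (d) (⟨1 / 2, t⟩ : ℂ)))) _ _).trans ?_
  have := hc.trans c1
  have := hv.trans c2
  linarith

theorem dp_left (c T : ℝ) (d : ℕ → ℂ) (hd : ∀ n, ‖d n‖ ≤ 1) (N : ℕ) (s : ℂ) (hs : -5 ≤ s.re) :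
    ‖DP N (d) s‖ ≤ (N : ℝ) ^ 6 := by
  unfold DP
  calc ‖∑ n ∈ Finset.Icc 1 N, d n * (n : ℂ) ^ (-s)‖
      ≤ ∑ n ∈ Finset.Icc 1 N, (N : ℝ) ^ 5 := by
        apply norm_sum_le_of_le
        intro n hn
        rw [Finset.mem_Icc] at hn
        rw [norm_mul, Complex.norm_natCast_cpow_of_pos hn.1, Complex.neg_re]
        have hn1 : (1 : ℝ) ≤ n := by exact_mod_cast hn.1
        have h1 : (n : ℝ) ^ (-s.re) ≤ (N : ℝ) ^ 5 := by
          calc (n : ℝ) ^ (-s.re) ≤ (n : ℝ) ^ (5 : ℝ) :=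
                Real.rpow_le_rpow_of_exponent_le hn1 (by linarith)
            _ = (n : ℝ) ^ 5 := by norm_cast
            _ ≤ (N : ℝ) ^ 5 := pow_le_pow_left₀ (by positivity) (by exact_mod_cast hn.2) 5
        have h2 := hd n
        have h3 : (0 : ℝ) ≤ (n : ℝ) ^ (-s.re) := by positivity
        nlinarith [norm_nonneg (d n)]
    _ = (N : ℝ) ^ 6 := by
        rw [Finset.sum_const, nsmul_eq_mul, Nat.card_Icc, Nat.add_sub_cancel]
        ring

/-- the real function `s(t) = Im (ρ P conj D)` -/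
noncomputable def ss (c T : ℝ) (d : ℕ → ℂ) (N N' : ℕ) (t : ℝ) : ℝ :=
  (rho c T (⟨1 / 2, t⟩ : ℂ) * (DP N' (ee c T d N) (⟨1 / 2, t⟩ : ℂ) *
    (starRingEnd ℂ) (DP N (d) (⟨1 / 2, t⟩ : ℂ)))).im

theorem G2_half (c H T τ : ℝ) (d : ℕ → ℂ) (N N' : ℕ) {J : ℕ} (v : Fin J → ℂ) (t : ℝ) :
    (G2 c H T τ d N N' v (⟨1 / 2, t⟩ : ℂ)).im =
      wt τ (dd H T) t * (ss c T d N N' t * ‖gv H v (⟨1 / 2, t⟩ : ℂ)‖ ^ 2) := by
  unfold G2 ss
  rw [phi_half, ← sta_DP, ← sta_gv, sta_half, sta_half]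
  set P := DP N' (ee c T d N) (⟨1 / 2, t⟩ : ℂ)
  set Dd := DP N (d) (⟨1 / 2, t⟩ : ℂ)
  set g := gv H v (⟨1 / 2, t⟩ : ℂ)
  set r := rho c T (⟨1 / 2, t⟩ : ℂ)
  have h1 : g * (starRingEnd ℂ) g = ((‖g‖ ^ 2 : ℝ) : ℂ) := by
    rw [Complex.mul_conj, Complex.normSq_eq_norm_sq]
  have h2 : r * P * (g * ((starRingEnd ℂ) Dd * (starRingEnd ℂ) g)) * ((wt τ (dd H T) t : ℝ) : ℂ) =
      ((wt τ (dd H T) t * ‖g‖ ^ 2 : ℝ) : ℂ) * (r * (P * (starRingEnd ℂ) Dd)) := by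
    rw [Complex.ofReal_mul, ← h1]
    ring
  rw [h2, Complex.im_ofReal_mul]
  ring

/-- for a vector killing the bad zeros the weighted integral is small -/
theorem upper_v (c Ch : ℝ) (hc : 0 < c) (hc1 : c < 1) :
    ∃ T0 : ℝ, ∀ (x η H T W : ℝ) (d : ℕ → ℂ) (_ : ∀ n, ‖d n‖ ≤ 1) (N N' J : ℕ), T0 ≤ T → Dat x η H T W N N' J →
    ∀ (U1 U2 : ℝ), W ≤ U1 → U1 ≤ W + H / 20 → W + H - H / 20 ≤ U2 → U2 ≤ W + H →
    (∀ σ : ℝ, -5 ≤ σ → σ ≤ 6 → ‖ff c T (⟨σ, U1⟩ : ℂ)‖ ≤ Real.exp (Ch * Real.log T ^ 2) ∧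
      ‖ff c T (⟨σ, U2⟩ : ℂ)‖ ≤ Real.exp (Ch * Real.log T ^ 2)) →
    ∀ S : Multiset ℂ, ResCl c T U1 U2 S →
    ∀ (v : Fin J → ℂ) (F1 : ℂ → ℂ), Differentiable ℂ F1 →
      (∀ s, FF H T d N v s = Pm S s * F1 s) →
    ∀ τ : ℝ, W + H / 4 ≤ τ → τ ≤ W + 3 * H / 4 →
      ∫ t in U1..U2, wt τ (dd H T) t * (ss c T d N N' t * ‖gv H v (⟨1 / 2, t⟩ : ℂ)‖ ^ 2) ≤
        2 * ∑ j, ‖v j‖ ^ 2 := by
  obtain ⟨Ts, hsh⟩ := shift_main c hc hc1
  obtain ⟨Cr, Tr, hCr, hTr, hrho⟩ := SP.rho_bound c hc hc1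
  have ev1 := ev_small4 (|Ch| + 24) (1 / 50) 1 (by norm_num) (by norm_num)
  obtain ⟨Te, hTe⟩ := eventually_atTop.mp ev1
  refine ⟨max (max Ts Tr) Te, ?_⟩
  intro x η H T W d hd N N' J hT hdat U1 U2 hU1 hU1' hU2 hU2' hff S hS v F1 hF1 hfac τ hτ1 hτ2
  have hTs : Ts ≤ T := (le_max_left _ _).trans ((le_max_left _ _).trans hT)
  have hTr' : Tr ≤ T := (le_max_right _ _).trans ((le_max_left _ _).trans hT)
  have he := hTe T ((le_max_right _ _).trans hT)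
  have hA := hdat.adm
  have hT1' := hdat.T1
  have hT0 : 0 < T := by linarith
  have hH := hA.H_pos
  have hHge := hA.H_ge
  norm_num at hHge
  have hHT := hA.hi
  have hw1 := hdat.w1
  have hw2 := hdat.w2
  have hD := hA.dd_pos
  have hD100 := hA.one_le_dd
  have hL := hA.log_ge
  set D := dd H T with hDdef
  set V := ∑ j, ‖v j‖ ^ 2 with hV
  have hV0 : 0 ≤ V := Finset.sum_nonneg fun j _ => by positivity
  have hU12 : U1 < U2 := by linarith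
  have hfar1 : H / 5 ≤ |U1 - τ| := by
    rw [abs_of_nonpos (by linarith)]; linarith
  have hfar2 : H / 5 ≤ |U2 - τ| := by
    rw [abs_of_nonneg (by linarith)]; linarith
  -- horizontals
  have hor : ∀ σ : ℝ, -5 ≤ σ → σ ≤ 6 → ∀ U : ℝ, H / 5 ≤ |U - τ| →
      ‖ff c T (⟨σ, U⟩ : ℂ)‖ ≤ Real.exp (Ch * Real.log T ^ 2) →
      ‖ff c T (⟨σ, U⟩ : ℂ) * FF H T d N v (⟨σ, U⟩ : ℂ) * sta (FF H T d N v) (⟨σ, U⟩ : ℂ) *
        phi τ D (⟨σ, U⟩ : ℂ)‖ ≤ V / 11 := by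
    intro σ h1 h2 U hfar hf
    rw [sta_FF]
    unfold FF
    have p1 := phi_small hA τ (⟨σ, U⟩ : ℂ) (by
      rw [abs_le]; constructor <;> simp only <;> linarith) hfar
    have p2 := G2_bound hdat c d hd v (⟨σ, U⟩ : ℂ) h1 h2
    have p3 : ‖DP N (d) (⟨σ, U⟩ : ℂ)‖ ≤ T ^ 6 :=
      (dp_left c T d hd N (⟨σ, U⟩ : ℂ) h1).trans (pow_le_pow_left₀ (by positivity) hdat.N_le 6)
    have e1 : ‖ff c T (⟨σ, U⟩ : ℂ) * (DP N (d) (⟨σ, U⟩ : ℂ) * gv H v (⟨σ, U⟩ : ℂ)) *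
        (DPs N (d) (⟨σ, U⟩ : ℂ) * gs H v (⟨σ, U⟩ : ℂ)) * phi τ D (⟨σ, U⟩ : ℂ)‖ =
        ‖ff c T (⟨σ, U⟩ : ℂ)‖ * ‖DP N (d) (⟨σ, U⟩ : ℂ)‖ *
          (‖gv H v (⟨σ, U⟩ : ℂ)‖ * (‖DPs N (d) (⟨σ, U⟩ : ℂ)‖ * ‖gs H v (⟨σ, U⟩ : ℂ)‖)) *
          ‖phi τ D (⟨σ, U⟩ : ℂ)‖ := by
      simp only [norm_mul]
      ring
    rw [e1]
    have hlog : Real.exp (Real.log T) = T := Real.exp_log hT0
    have hTpow : T ^ 6 * T ^ (13 : ℝ) = Real.exp (19 * Real.log T) := by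
      have a1 : T ^ (13 : ℝ) = T ^ 13 := by norm_cast
      have a2 : Real.exp (19 * Real.log T) = T ^ 19 := by
        rw [show (19 : ℝ) * Real.log T = ((19 : ℕ) : ℝ) * Real.log T by norm_num,
          Real.exp_nat_mul, hlog]
      rw [a1, a2]
      ring
    calc ‖ff c T (⟨σ, U⟩ : ℂ)‖ * ‖DP N (d) (⟨σ, U⟩ : ℂ)‖ *
          (‖gv H v (⟨σ, U⟩ : ℂ)‖ * (‖DPs N (d) (⟨σ, U⟩ : ℂ)‖ * ‖gs H v (⟨σ, U⟩ : ℂ)‖)) *
          ‖phi τ D (⟨σ, U⟩ : ℂ)‖
        ≤ Real.exp (Ch * Real.log T ^ 2) * T ^ 6 * (T ^ (13 : ℝ) * V) *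
          (Real.exp 1 * Real.exp (-(1 / 50) * Real.log T ^ 4)) := by
          apply mul_le_mul _ p1 (norm_nonneg _) (by positivity)
          apply mul_le_mul _ p2 (by positivity) (by positivity)
          exact mul_le_mul hf p3 (norm_nonneg _) (by positivity)
      _ = V * (Real.exp (Ch * Real.log T ^ 2) * (T ^ 6 * T ^ (13 : ℝ)) *
          Real.exp 1 * Real.exp (-(1 / 50) * Real.log T ^ 4)) := by ring
      _ ≤ V * (1 / 11) := by
          apply mul_le_mul_of_nonneg_left _ hV0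
          rw [hTpow]
          have h11 : (11 : ℝ) ≤ Real.exp 4 := by
            have := Real.add_one_le_exp (1 : ℝ)
            have h4 : Real.exp 4 = Real.exp 1 ^ 4 := by rw [← Real.exp_nat_mul]; norm_num
            rw [h4]
            have : (2 : ℝ) ^ 4 ≤ Real.exp 1 ^ 4 := pow_le_pow_left₀ (by norm_num) (by linarith) 4
            linarith
          rw [le_div_iff₀ (by norm_num)]
          calc Real.exp (Ch * Real.log T ^ 2) * Real.exp (19 * Real.log T) * Real.exp 1 *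
                Real.exp (-(1 / 50) * Real.log T ^ 4) * 11
              ≤ Real.exp (Ch * Real.log T ^ 2) * Real.exp (19 * Real.log T) * Real.exp 1 *
                Real.exp (-(1 / 50) * Real.log T ^ 4) * Real.exp 4 :=
                mul_le_mul_of_nonneg_left h11 (by positivity)
            _ = Real.exp (Ch * Real.log T ^ 2 + 19 * Real.log T + 1 + 4) *
                Real.exp (-(1 / 50) * Real.log T ^ 4) := by
                rw [Real.exp_add, Real.exp_add, Real.exp_add]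
                ring
            _ ≤ Real.exp ((|Ch| + 24) * Real.log T ^ 2) *
                Real.exp (-(1 / 50) * Real.log T ^ 4) := by
                apply mul_le_mul_of_nonneg_right _ (Real.exp_pos _).le
                apply Real.exp_le_exp.mpr
                have := le_abs_self Ch
                have h2 : Real.log T ≤ Real.log T ^ 2 := by nlinarith
                have h3 : 1 ≤ Real.log T ^ 2 := by nlinarith
                have h4 : Ch * Real.log T ^ 2 ≤ |Ch| * Real.log T ^ 2 :=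
                  mul_le_mul_of_nonneg_right this (by positivity)
                linarith
            _ ≤ 1 := he
      _ = V / 11 := by ring
  have hmain := hS τ D (V / 11) (FF H T d N v) F1 hD (FF_diff H T d N v) hF1 hfac
    (fun σ h1 h2 => ⟨hor σ h1 h2 U1 hfar1 (hff σ h1 h2).1, hor σ h1 h2 U2 hfar2 (hff σ h1 h2).2⟩)
  have hshift := hsh x η H T W d hd N N' J hTs hdat U1 U2 τ hU1 hU1' hU2 hU2' hτ1 hτ2 v
  have hint : IntervalIntegrable (fun t : ℝ => G2 c H T τ d N N' v (⟨1 / 2, t⟩ : ℂ)) volume U1 U2 :=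
    an_cont (p := 1 / 2) hU12.le (fun s h1 h2 h3 =>
      G2_an c H T τ d N N' v s (hrho T hTr' s (by linarith) (by linarith) (by
        rw [h1, abs_of_pos (by norm_num)]; linarith)).1)
  have him := im_int hint
  have e2 : ∫ t in U1..U2, (G2 c H T τ d N N' v (⟨1 / 2, t⟩ : ℂ)).im =
      ∫ t in U1..U2, wt τ D t * (ss c T d N N' t * ‖gv H v (⟨1 / 2, t⟩ : ℂ)‖ ^ 2) :=
    intervalIntegral.integral_congr fun t _ => G2_half c H T τ d N N' v t
  rw [← e2, ← him]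
  have h3 := (Complex.abs_im_le_norm _).trans hshift
  rw [Complex.sub_im, abs_le] at h3
  linarith [h3.1]

/-- the product `P conj D` on the critical line -/
noncomputable def pdt (c T : ℝ) (d : ℕ → ℂ) (N N' : ℕ) (t : ℝ) : ℂ :=
  DP N' (ee c T d N) (⟨1 / 2, t⟩ : ℂ) * (starRingEnd ℂ) (DP N (d) (⟨1 / 2, t⟩ : ℂ))

theorem pdt_cont (c T : ℝ) (d : ℕ → ℂ) (N N' : ℕ) : Continuous (pdt c T d N N') := by
  unfold pdt
  exact (DP_half_cont _ _).mul (Complex.continuous_conj.comp (DP_half_cont _ _))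

theorem pdt_norm (c T : ℝ) (d : ℕ → ℂ) (N N' : ℕ) (t : ℝ) : ‖pdt c T d N N' t‖ =
    ‖DP N' (ee c T d N) (⟨1 / 2, t⟩ : ℂ)‖ * ‖DP N (d) (⟨1 / 2, t⟩ : ℂ)‖ := by
  unfold pdt
  rw [norm_mul, RCLike.norm_conj]

theorem ss_lower (c T : ℝ) (d : ℕ → ℂ) (N N' : ℕ) (t E : ℝ)
    (h : ‖rho c T (⟨1 / 2, t⟩ : ℂ) - cexp (-(Real.pi * c : ℝ) * I)‖ ≤ E) :
    (cexp (-(Real.pi * c : ℝ) * I) * pdt c T d N N' t).im - E * ‖pdt c T d N N' t‖ ≤
      ss c T d N N' t := by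
  have e : ss c T d N N' t = (cexp (-(Real.pi * c : ℝ) * I) * pdt c T d N N' t).im +
      ((rho c T (⟨1 / 2, t⟩ : ℂ) - cexp (-(Real.pi * c : ℝ) * I)) * pdt c T d N N' t).im := by
    rw [← Complex.add_im]
    unfold ss pdt
    congr 1
    ring
  rw [e]
  have h2 := Complex.abs_im_le_norm
    ((rho c T (⟨1 / 2, t⟩ : ℂ) - cexp (-(Real.pi * c : ℝ) * I)) * pdt c T d N N' t)
  rw [norm_mul, abs_le] at h2
  have h3 := mul_le_mul_of_nonneg_right h (norm_nonneg (pdt c T d N N' t))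
  linarith [h2.1]

theorem ss_cont {c T : ℝ} {d : ℕ → ℂ} {N N' : ℕ} {U1 U2 : ℝ}
    (h : ∀ t ∈ Icc U1 U2, AnalyticAt ℂ (rho c T) (⟨1 / 2, t⟩ : ℂ)) :
    ContinuousOn (ss c T d N N') (Icc U1 U2) := by
  have h1 : ContinuousOn (fun t : ℝ => rho c T (⟨1 / 2, t⟩ : ℂ)) (Icc U1 U2) := by
    intro t ht
    apply ContinuousAt.continuousWithinAt
    exact ContinuousAt.comp (g := rho c T) (f := fun t : ℝ => (⟨1 / 2, t⟩ : ℂ))
      (h t ht).continuousAt (mk_cont' (1 / 2)).continuousAt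
  have h2 : ContinuousOn (fun t : ℝ => rho c T (⟨1 / 2, t⟩ : ℂ) * pdt c T d N N' t) (Icc U1 U2) :=
    h1.mul (pdt_cont c T d N N').continuousOn
  exact Complex.continuous_im.comp_continuousOn h2

end Pool.Agent.TH299.PG
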