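import Pool.Agent.W612.PP.Coef
import Pool.Agent.TH299.PG.Gen

/-! The second moment of `D(s) ζ(s-h)/ζ(s+h)` on the critical line. -/

open Complex Filter Topology Set MeasureTheory

namespace Pool.Agent.TH299.PG

open Pool.Agent.W192.PP Pool.Agent.W612.PP
open SG (phi hh dl)
open SP hiding GG
open SP.EvalAux

theorem GG_sum (c ε : ℝ) (hc : 0 < c) (hε : 0 < ε) : ∃ C T0 : ℝ, 0 < C ∧ ∀ T : ℝ, T0 ≤ T →
    ∀ X : ℕ, (X : ℝ) ≤ T →
    ∑ n ∈ Finset.Icc 1 X, GG (T ^ ε) (dl c T) n ^ 2 / n ≤ C := by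
  obtain ⟨C, hC⟩ := Pool.Agent.Helper923.HMertens.mertens_log
  have hC0 : 0 ≤ C := (abs_nonneg _).trans (hC 1 le_rfl)
  set W := ∑' k, ww k with hW
  have hW0 : 0 ≤ W := tsum_nonneg ww_nonneg
  refine ⟨Real.exp (W * ((4 * Real.pi ^ 2 * c ^ 2 + 1 / ε) * (1 + C))), Real.exp 1,
    Real.exp_pos _, ?_⟩
  intro T hT X hXT
  have hT0 : 0 < T := (Real.exp_pos 1).trans_le hT
  set L := Real.log T with hL
  have hL1 : 1 ≤ L := by
    rw [hL, ← Real.log_exp 1]
    exact Real.log_le_log (Real.exp_pos 1) hT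
  have hL0 : 0 < L := by linarith
  set δ := dl c T with hδ
  have hδv : δ = 2 * Real.pi * c / L := rfl
  have hδ0 : 0 < δ := by rw [hδv]; positivity
  set z := T ^ ε with hz
  have hzpos : 0 < z := Real.rpow_pos_of_pos hT0 _
  have hlogz : Real.log z = ε * L := by rw [hz, Real.log_rpow hT0]
  set f : ℕ → ℝ := fun n => GG z δ n ^ 2 / (n : ℝ) with hf
  set a : ℕ → ℝ := fun p => (if (p : ℝ) ≤ z then (|δ| * Real.log p) ^ 2 else 1) / p with ha
  have hmain := euler_le f (fun n => by rw [hf]; simp only; positivity)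
    (by rw [hf]; simp only; rw [(GG_mult z δ).1]; simp)
    (by
      intro m n hmn
      rw [hf]
      simp only
      rw [(GG_mult z δ).2 hmn]
      push_cast
      rw [mul_pow, mul_div_mul_comm]) a X
    (fun p => by
      rw [ha]
      simp only
      split_ifs <;> positivity)
    (fun p hp => ⟨a p, fun k hk => GG_sq_le hp hk⟩)
    (fun p hp _ k hk => GG_sq_le hp hk)
  refine hmain.trans ?_
  rw [Real.exp_le_exp]
  refine mul_le_mul_of_nonneg_left ?_ hW0
  rcases Nat.eq_zero_or_pos X with hX0 | hXpos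
  · rw [hX0]
    simp
    positivity
  have hB0 : 0 ≤ 4 * Real.pi ^ 2 * c ^ 2 / L + 1 / (ε * L) := by positivity
  calc ∑ p ∈ (Finset.Icc 1 X).filter Nat.Prime, a p
      ≤ ∑ p ∈ (Finset.Icc 1 X).filter Nat.Prime,
        (4 * Real.pi ^ 2 * c ^ 2 / L + 1 / (ε * L)) * (Real.log p / p) := by
        refine Finset.sum_le_sum fun p hp => ?_
        rw [Finset.mem_filter, Finset.mem_Icc] at hp
        have hp0 : (0 : ℝ) < p := by exact_mod_cast hp.2.pos
        have hpT : (p : ℝ) ≤ T := le_trans (by exact_mod_cast hp.1.2) hXT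
        have hlp : Real.log p ≤ L := Real.log_le_log hp0 hpT
        have hlp0 : 0 ≤ Real.log p := Real.log_natCast_nonneg p
        rw [ha]
        simp only
        rw [← mul_div_assoc]
        refine div_le_div_of_nonneg_right ?_ hp0.le
        split_ifs with hpz
        · rw [abs_of_pos hδ0, mul_pow, hδv]
          have e1 : (2 * Real.pi * c / L) ^ 2 * Real.log p ^ 2 =
              4 * Real.pi ^ 2 * c ^ 2 / L * (Real.log p * (Real.log p / L)) := by
            field_simp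
            ring
          rw [e1]
          have e2 : Real.log p / L ≤ 1 := by
            rw [div_le_one hL0]
            exact hlp
          have e3 : Real.log p * (Real.log p / L) ≤ Real.log p := by
            calc _ ≤ Real.log p * 1 := mul_le_mul_of_nonneg_left e2 hlp0
              _ = _ := mul_one _
          have e4 : 0 ≤ 4 * Real.pi ^ 2 * c ^ 2 / L := by positivity
          have e5 : 0 ≤ 1 / (ε * L) * Real.log p := by positivity
          calc _ ≤ 4 * Real.pi ^ 2 * c ^ 2 / L * Real.log p := mul_le_mul_of_nonneg_left e3 e4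
            _ ≤ _ := by rw [add_mul]; linarith
        · have e1 : ε * L ≤ Real.log p := by
            rw [← hlogz]
            exact Real.log_le_log hzpos (le_of_lt (lt_of_not_ge hpz))
          have e2 : 1 ≤ 1 / (ε * L) * Real.log p := by
            rw [one_div, ← div_eq_inv_mul, le_div_iff₀ (by positivity), one_mul]
            exact e1
          have e3 : 0 ≤ 4 * Real.pi ^ 2 * c ^ 2 / L * Real.log p := by positivity
          rw [add_mul]
          linarith
    _ = (4 * Real.pi ^ 2 * c ^ 2 / L + 1 / (ε * L)) *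
        ∑ p ∈ (Finset.Icc 1 X).filter Nat.Prime, Real.log p / p := by rw [Finset.mul_sum]
    _ ≤ (4 * Real.pi ^ 2 * c ^ 2 / L + 1 / (ε * L)) * (L + C) := by
        refine mul_le_mul_of_nonneg_left ?_ hB0
        have h1 := (abs_le.1 (hC X hXpos)).2
        have h2 : Real.log X ≤ L := Real.log_le_log (by exact_mod_cast hXpos) hXT
        linarith
    _ = (4 * Real.pi ^ 2 * c ^ 2 + 1 / ε) * (1 + C / L) := by field_simp
    _ ≤ (4 * Real.pi ^ 2 * c ^ 2 + 1 / ε) * (1 + C) := by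
        refine mul_le_mul_of_nonneg_left ?_ (by positivity)
        have : C / L ≤ C := div_le_self hC0 hL1
        linarith

theorem RF_le_GG (z δ : ℝ) (n : ℕ) : (R1 z * FM δ) n ≤ GG z δ n := by
  rcases Nat.eq_zero_or_pos n with h | h
  · subst h
    simp
  have hG : GG z δ n = ∑ x ∈ n.divisorsAntidiagonal, (R1 z * FM δ) x.1 * R1 z x.2 := by
    rw [GG, ArithmeticFunction.mul_apply]
  rw [hG]
  have hmem : (n, 1) ∈ n.divisorsAntidiagonal := by
    rw [Nat.mem_divisorsAntidiagonal]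
    exact ⟨mul_one n, h.ne'⟩
  refine le_trans ?_ (Finset.single_le_sum
    (f := fun x : ℕ × ℕ => (R1 z * FM δ) x.1 * R1 z x.2)
    (fun x _ => mul_nonneg (RF_nonneg _ _ _) (R1_nonneg _ _)) hmem)
  simp only
  rw [R1_apply_rough (rough_one z), mul_one]

theorem ee_le (c T z : ℝ) (d : ℕ → ℂ) (hd : ∀ n, ‖d n‖ ≤ R1 z n) (N j : ℕ) :
    ‖ee c T d N j‖ ≤ GG z (dl c T) j := by
  refine le_trans ?_ (RF_le_GG z (dl c T) j)
  unfold ee ec
  rw [ArithmeticFunction.mul_apply]
  have h := Nat.sum_divisorsAntidiagonal (fun a b : ℕ => R1 z a * FM (dl c T) b) (n := j)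
  rw [h]
  calc ‖∑ x ∈ j.divisors.filter (fun x => x ≤ N), d x * (x : ℂ) ^ ((0 : ℝ) : ℂ) *
        SP.fm (dl c T) (j / x)‖
      ≤ ∑ x ∈ j.divisors.filter (fun x => x ≤ N), R1 z x * FM (dl c T) (j / x) := by
        refine norm_sum_le_of_le _ fun x _ => ?_
        rw [Complex.ofReal_zero, Complex.cpow_zero, mul_one, norm_mul]
        exact mul_le_mul_of_nonneg_right (hd x) (norm_nonneg _)
    _ ≤ _ := Finset.sum_le_sum_of_subset_of_nonneg (Finset.filter_subset _ _)
        fun x _ _ => mul_nonneg (R1_nonneg _ _) (FM_nonneg _ _)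

/-- the second moment of the polynomial part -/
theorem secP (c ε : ℝ) (hc : 0 < c) (hε : 0 < ε) : ∃ C T0 : ℝ, 0 < C ∧ ∀ T : ℝ, T0 ≤ T →
    ∀ (H W : ℝ) (d : ℕ → ℂ) (N N' : ℕ), (∀ n, ‖d n‖ ≤ R1 (T ^ ε) n) → 1 ≤ H → H ≤ T →
    (N' : ℝ) ≤ H →
    ∫ t in W..(W + H), ‖DP N' (ee c T d N) (⟨1 / 2, t⟩ : ℂ)‖ ^ 2 ≤ C * H := by
  obtain ⟨C, T0, hC, h⟩ := GG_sum c ε hc hε
  refine ⟨60 * C, T0, by positivity, fun T hT H W d N N' hd hH hHT hN => ?_⟩
  have h1 := mv_int (ee c T d N) N' H W hH hN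
  have h2 := h T hT N' (hN.trans hHT)
  have h3 : ∑ n ∈ Finset.Icc 1 N', ‖ee c T d N n‖ ^ 2 / n ≤ C := by
    refine le_trans (Finset.sum_le_sum fun n _ => ?_) h2
    exact div_le_div_of_nonneg_right
      (pow_le_pow_left₀ (norm_nonneg _) (ee_le c T (T ^ ε) d hd N n) 2) (Nat.cast_nonneg n)
  calc _ ≤ 60 * H * ∑ n ∈ Finset.Icc 1 N', ‖ee c T d N n‖ ^ 2 / n := h1
    _ ≤ 60 * H * C := mul_le_mul_of_nonneg_left h3 (by linarith)
    _ = 60 * C * H := by ring

end Pool.Agent.TH299.PG
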