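import Pool.Agent.TH299.PG.Fam
import Pool.Agent.TH299.PG.Gen
import Pool.Agent.H382P.DpId

/-! The detector attached to a family of bins, and its diagonal sum. -/

open Complex Filter Topology Set MeasureTheory

namespace Pool.Agent.TH299.PG

open SG (phi hh dl phi_norm)
open SP SP.EvalAux SP.DpAux

section

variable {α : Type*} (cost : α → ℕ) (Q : α → Finset ℕ) (l : List α) (b : ℕ)

open Classical in
/-- coefficients of the detector -/
noncomputable def dF (lam : ℝ) (χ : ℕ → ℝ) (δ : ℝ) (n : ℕ) : ℂ :=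
  if Squarefree n ∧ n.primeFactors ∈ Fam cost Q l b then
    (lam : ℂ) * ∏ p ∈ n.primeFactors, (-(χ p : ℂ) * (p : ℂ) ^ (hh δ)) else 0

theorem Fam_prime (hP : ∀ x ∈ l, ∀ p ∈ Q x, p.Prime) {B : Finset ℕ} (hB : B ∈ Fam cost Q l b) :
    ∀ p ∈ B, p.Prime := by
  intro p hp
  obtain ⟨x, hx, hpx⟩ := Fam_mem cost Q l b B hB p hp
  exact hP x hx p hpx

theorem sum_supp2 (hP : ∀ x ∈ l, ∀ p ∈ Q x, p.Prime) (N : ℕ)
    (hN : ∀ B ∈ Fam cost Q l b, ∏ p ∈ B, p ≤ N) (G : ℕ → ℂ)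
    (hG : ∀ n, ¬ (Squarefree n ∧ n.primeFactors ∈ Fam cost Q l b) → G n = 0) :
    ∑ n ∈ Finset.Icc 1 N, G n = ∑ B ∈ Fam cost Q l b, G (∏ p ∈ B, p) := by
  classical
  symm
  refine Finset.sum_bij_ne_zero (fun B _ _ => ∏ p ∈ B, p) ?_ ?_ ?_ ?_
  · intro B hB _
    have hpr := Fam_prime cost Q l b hP hB
    rw [Finset.mem_Icc]
    exact ⟨Nat.pos_of_ne_zero (prod_ne B hpr), hN B hB⟩
  · intro B hB _ B' hB' _ h
    have hpr := Fam_prime cost Q l b hP hB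
    have hpr' := Fam_prime cost Q l b hP hB'
    rw [← Nat.primeFactors_prod hpr, ← Nat.primeFactors_prod hpr', h]
  · intro n _ hne
    have h2 : Squarefree n ∧ n.primeFactors ∈ Fam cost Q l b := by
      by_contra h
      exact hne (hG n h)
    refine ⟨n.primeFactors, h2.2, ?_, Nat.prod_primeFactors_of_squarefree h2.1⟩
    rw [Nat.prod_primeFactors_of_squarefree h2.1]
    exact hne
  · intro B _ _
    rfl

theorem dF_zero (lam : ℝ) (χ : ℕ → ℝ) (δ : ℝ) (n : ℕ)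
    (h : ¬ (Squarefree n ∧ n.primeFactors ∈ Fam cost Q l b)) :
    dF cost Q l b lam χ δ n = 0 := by
  unfold dF
  rw [if_neg h]

theorem dF_prod (hP : ∀ x ∈ l, ∀ p ∈ Q x, p.Prime) (lam : ℝ) (χ : ℕ → ℝ) (δ : ℝ) {B : Finset ℕ}
    (hB : B ∈ Fam cost Q l b) :
    dF cost Q l b lam χ δ (∏ p ∈ B, p) =
      (lam : ℂ) * ∏ p ∈ B, (-(χ p : ℂ) * (p : ℂ) ^ (hh δ)) := by
  have hpr := Fam_prime cost Q l b hP hB
  unfold dF
  rw [Nat.primeFactors_prod hpr, if_pos ⟨sqf_prod B hpr, hB⟩]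

theorem DP_dF (hP : ∀ x ∈ l, ∀ p ∈ Q x, p.Prime)
    (hdis : l.Pairwise (fun x y => Disjoint (Q x) (Q y))) (N : ℕ)
    (hN : ∀ B ∈ Fam cost Q l b, ∏ p ∈ B, p ≤ N) (lam : ℝ) (χ : ℕ → ℝ) (δ : ℝ) (s : ℂ) :
    DP N (dF cost Q l b lam χ δ) s = (lam : ℂ) *
      SW cost (fun x => ∑ p ∈ Q x, -(χ p : ℂ) * (p : ℂ) ^ (hh δ) * (p : ℂ) ^ (-s)) l b := by
  unfold DP
  rw [sum_supp2 cost Q l b hP N hN _ (fun n hn => by rw [dF_zero cost Q l b lam χ δ n hn, zero_mul]),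
    ← sum_Fam cost Q _ l hdis b, Finset.mul_sum]
  refine Finset.sum_congr rfl fun B hB => ?_
  rw [dF_prod cost Q l b hP lam χ δ hB, prod_cpow, mul_assoc, ← Finset.prod_mul_distrib]

/-- the diagonal contribution of a prime -/
noncomputable def gq (χ : ℕ → ℝ) (δ : ℝ) (p : ℕ) : ℂ :=
  ((χ p : ℂ) / p) * ((χ p : ℂ) - 1 + (p : ℂ) ^ (-(2 * hh δ)))

theorem be_dF (hP : ∀ x ∈ l, ∀ p ∈ Q x, p.Prime)
    (hdis : l.Pairwise (fun x y => Disjoint (Q x) (Q y))) (N : ℕ)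
    (hN : ∀ B ∈ Fam cost Q l b, ∏ p ∈ B, p ≤ N) (lam : ℝ) (χ : ℕ → ℝ) (c T : ℝ) :
    be c T (dF cost Q l b lam χ (dl c T)) N = (lam : ℂ) ^ 2 *
      SW cost (fun x => ∑ p ∈ Q x, gq χ (dl c T) p) l b := by
  classical
  unfold be
  rw [sum_supp2 cost Q l b hP N hN _ (fun n hn => by
    rw [dF_zero cost Q l b lam χ _ n hn, map_zero, mul_zero, zero_div]),
    ← sum_Fam cost Q _ l hdis b, Finset.mul_sum]
  refine Finset.sum_congr rfl fun B hB => ?_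
  have hpr := Fam_prime cost Q l b hP hB
  have hne := prod_ne B hpr
  have hBN := hN B hB
  have hinner : ee c T (dF cost Q l b lam χ (dl c T)) N (∏ p ∈ B, p) =
      (lam : ℂ) * ∏ p ∈ B, ((-(χ p : ℂ) * (p : ℂ) ^ (hh (dl c T))) +
        ((p : ℂ) ^ (hh (dl c T)) - (p : ℂ) ^ (-(hh (dl c T))))) := by
    unfold ee ec
    have hfil : (∏ p ∈ B, p).divisors.filter (fun x => x ≤ N) = (∏ p ∈ B, p).divisors := by
      apply Finset.filter_true_of_mem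
      intro x hx
      exact (Nat.le_of_dvd (Nat.pos_of_ne_zero hne) (Nat.dvd_of_mem_divisors hx)).trans hBN
    rw [hfil, sum_div B hpr (fun x => dF cost Q l b lam χ (dl c T) x * (x : ℂ) ^ ((0 : ℝ) : ℂ) *
      fm (dl c T) ((∏ p ∈ B, p) / x)), Finset.prod_add, Finset.mul_sum]
    apply Finset.sum_congr rfl
    intro C hC
    rw [Finset.mem_powerset] at hC
    have hCF := Fam_down cost Q l b B C hB hC
    rw [dF_prod cost Q l b hP lam χ _ hCF, div_prod B C hpr hC,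
      fm_prod _ _ (fun p hp => hpr p (Finset.sdiff_subset hp)), Complex.ofReal_zero,
      Complex.cpow_zero]
    ring
  rw [hinner, dF_prod cost Q l b hP lam χ _ hB, map_mul, Complex.conj_ofReal, map_prod]
  push_cast
  have e : ∀ (u v w : ℂ), (lam : ℂ) * u * ((lam : ℂ) * v) / w = (lam : ℂ) ^ 2 * (u * v / w) := by
    intro u v w
    ring
  rw [e, ← Finset.prod_mul_distrib, ← Finset.prod_div_distrib]
  congr 1
  apply Finset.prod_congr rfl
  intro p hp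
  have hpp := hpr p hp
  have hp0 : (p : ℂ) ≠ 0 := by exact_mod_cast hpp.ne_zero
  rw [map_mul, conj_cpow_h _ p hpp.pos, map_neg, Complex.conj_ofReal]
  unfold gq
  have e2 : (p : ℂ) ^ (-(2 * hh (dl c T))) =
      (p : ℂ) ^ (-(hh (dl c T))) * (p : ℂ) ^ (-(hh (dl c T))) := by
    rw [← Complex.cpow_add _ _ hp0]
    congr 1
    ring
  have e3 : (p : ℂ) ^ (-(hh (dl c T))) * (p : ℂ) ^ (hh (dl c T)) = 1 := by
    rw [← Complex.cpow_add _ _ hp0]
    simp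
  rw [e2]
  set x : ℂ := (χ p : ℂ)
  set a1 := (p : ℂ) ^ (-(hh (dl c T)))
  set a2 := (p : ℂ) ^ (hh (dl c T))
  field_simp
  have : (-(x * a2) + (a2 - a1)) * a1 = -x * (a1 * a2) + (a1 * a2) - a1 ^ 2 := by ring
  linear_combination (x * (x - 1)) * e3

end

end Pool.Agent.TH299.PG
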