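import Pool.Agent.W192.PP.MV

/-! High moments of short prime polynomials on an interval. -/

open Complex Filter Topology Set MeasureTheory

namespace Pool.Agent.TH299.PG

open SG (phi hh dl)
open SG.MVaux (cpow_nat)
open SP SP.EvalAux SP.MomAux
open Pool.Agent.W192.PP

theorem mom_int (k X : ℕ) (H W : ℝ) (hH : 1 ≤ H) (hX : (X : ℝ) ^ k ≤ H) (P : Finset ℕ)
    (hP : ∀ p ∈ P, p.Prime ∧ p ≤ X) (β : ℕ → ℂ) :
    ∫ t in W..(W + H), ‖∑ p ∈ P, β p * (p : ℂ) ^ (-(⟨1 / 2, t⟩ : ℂ))‖ ^ (2 * k) ≤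
      60 * H * (k.factorial * (∑ p ∈ P, ‖β p‖ ^ 2 / p) ^ k) := by
  classical
  set F := Fintype.piFinset (fun _ : Fin k => P) with hF
  have hFmem : ∀ f ∈ F, ∀ i, f i ∈ P := fun f hf => Fintype.mem_piFinset.mp hf
  have hpr : ∀ f ∈ F, ∀ i, (f i).Prime := fun f hf i => (hP _ (hFmem f hf i)).1
  have hprod1 : ∀ f ∈ F, 1 ≤ ∏ i, f i := fun f hf =>
    Finset.one_le_prod' fun i _ => (hpr f hf i).one_le
  have hprodX : ∀ f ∈ F, ∏ i, f i ≤ X ^ k := by
    intro f hf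
    calc ∏ i, f i ≤ ∏ _i : Fin k, X := Finset.prod_le_prod' fun i _ => (hP _ (hFmem f hf i)).2
      _ = X ^ k := by rw [Finset.prod_const, Finset.card_univ, Fintype.card_fin]
  set B : ℕ → ℂ := fun n => ∑ f ∈ F.filter (fun f => ∏ i, f i = n), ∏ i, β (f i) with hB
  have hmaps : ∀ f ∈ F, ∏ i, f i ∈ Finset.Icc 1 (X ^ k) := fun f hf =>
    Finset.mem_Icc.mpr ⟨hprod1 f hf, hprodX f hf⟩
  have hexp : ∀ s : ℂ, (∑ p ∈ P, β p * (p : ℂ) ^ (-s)) ^ k = DP (X ^ k) B s := by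
    intro s
    have h1 : (∑ p ∈ P, β p * (p : ℂ) ^ (-s)) ^ k =
        ∏ _i : Fin k, ∑ p ∈ P, β p * (p : ℂ) ^ (-s) := by
      rw [Finset.prod_const, Finset.card_univ, Fintype.card_fin]
    rw [h1, Finset.prod_univ_sum]
    unfold DP
    rw [← Finset.sum_fiberwise_of_maps_to hmaps]
    refine Finset.sum_congr rfl fun n _ => ?_
    simp only [hB]
    rw [Finset.sum_mul]
    refine Finset.sum_congr rfl fun f hf => ?_
    rw [Finset.mem_filter] at hf
    rw [Finset.prod_mul_distrib, ← hf.2]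
    congr 1
    have hg : ∀ (A : Finset (Fin k)), ∏ i ∈ A, ((f i : ℕ) : ℂ) ^ (-s) =
        ((∏ i ∈ A, f i : ℕ) : ℂ) ^ (-s) := by
      intro A
      induction A using Finset.induction_on with
      | empty => simp
      | insert a A ha ih =>
        rw [Finset.prod_insert ha, Finset.prod_insert ha, ih]
        push_cast
        have := natCast_mul_natCast_cpow (f a) (∏ i ∈ A, f i) (-s)
        push_cast at this
        exact this.symm
    exact hg Finset.univ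
  have hpow : ∀ t : ℝ, ‖∑ p ∈ P, β p * (p : ℂ) ^ (-(⟨1 / 2, t⟩ : ℂ))‖ ^ (2 * k) =
      ‖DP (X ^ k) B (⟨1 / 2, t⟩ : ℂ)‖ ^ 2 := by
    intro t
    rw [← hexp, norm_pow, ← pow_mul, mul_comm k 2]
  simp only [hpow]
  refine (mv_int B (X ^ k) H W hH (by push_cast; exact hX)).trans ?_
  apply mul_le_mul_of_nonneg_left _ (by linarith)
  -- coefficients
  have hBn : ∀ n ∈ Finset.Icc 1 (X ^ k), ‖B n‖ ^ 2 / n ≤
      k.factorial * ∑ f ∈ F.filter (fun f => ∏ i, f i = n), ∏ i, (‖β (f i)‖ ^ 2 / (f i : ℝ)) := by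
    intro n hn
    have hn0 : (0 : ℝ) < n := by exact_mod_cast (Finset.mem_Icc.mp hn).1
    set S := F.filter (fun f => ∏ i, f i = n) with hS
    have hcard : (S.card : ℝ) ≤ k.factorial := by
      rcases S.eq_empty_or_nonempty with h | ⟨f, hf⟩
      · rw [h]
        simp
      · have hf' := Finset.mem_filter.mp hf
        have h3 := card_le P (fun p hp => (hP p hp).1) k f (hpr f hf'.1)
        rw [hf'.2] at h3
        exact_mod_cast h3
    have h1 : ‖B n‖ ^ 2 ≤ S.card * ∑ f ∈ S, ‖∏ i, β (f i)‖ ^ 2 := by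
      have h2 : ‖B n‖ ≤ ∑ f ∈ S, ‖∏ i, β (f i)‖ := norm_sum_le _ _
      exact (pow_le_pow_left₀ (norm_nonneg _) h2 2).trans (sq_sum_le_card_mul_sum_sq)
    have h2 : ∀ f ∈ S, ∏ i, (‖β (f i)‖ ^ 2 / (f i : ℝ)) = ‖∏ i, β (f i)‖ ^ 2 / n := by
      intro f hf
      have hf' := Finset.mem_filter.mp hf
      rw [Finset.prod_div_distrib, Finset.prod_pow, ← norm_prod]
      congr 1
      rw [← hf'.2]
      push_cast
      rfl
    rw [Finset.sum_congr rfl h2, ← Finset.sum_div, ← mul_div_assoc]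
    apply div_le_div_of_nonneg_right _ hn0.le
    refine h1.trans ?_
    exact mul_le_mul_of_nonneg_right hcard (Finset.sum_nonneg fun f _ => by positivity)
  calc ∑ n ∈ Finset.Icc 1 (X ^ k), ‖B n‖ ^ 2 / n
      ≤ ∑ n ∈ Finset.Icc 1 (X ^ k), k.factorial *
        ∑ f ∈ F.filter (fun f => ∏ i, f i = n), ∏ i, (‖β (f i)‖ ^ 2 / (f i : ℝ)) :=
        Finset.sum_le_sum hBn
    _ = k.factorial * ∑ f ∈ F, ∏ i, (‖β (f i)‖ ^ 2 / (f i : ℝ)) := by
        rw [← Finset.mul_sum, Finset.sum_fiberwise_of_maps_to hmaps]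
    _ = k.factorial * (∑ p ∈ P, ‖β p‖ ^ 2 / p) ^ k := by
        congr 1
        have h3 : (∑ p ∈ P, ‖β p‖ ^ 2 / (p : ℝ)) ^ k = ∏ _i : Fin k, ∑ p ∈ P, ‖β p‖ ^ 2 / (p : ℝ) := by
          rw [Finset.prod_const, Finset.card_univ, Fintype.card_fin]
        rw [h3, Finset.prod_univ_sum]

end Pool.Agent.TH299.PG
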