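import Pool.Agent.TH299.PG.Num2
import Pool.Agent.TH299.PG.Diag2
import Pool.Agent.TH299.PG.MomP
import Pool.Agent.TH299.PG.Coef2

/-! The detector at height `T`. -/

open Complex Filter Topology Set MeasureTheory

namespace Pool.Agent.TH299.PG

open SG (phi hh dl phi_norm)
open SP hiding GG
open SP.EvalAux
open Pool.Agent.W192.PP Pool.Agent.W612.PP

/-- the primes of a bin -/
noncomputable def QB (T : ℝ) (x : Bin) : Finset ℕ := QT ((x.a : ℝ) / 100000) ((x.b : ℝ) / 100000) T

/-- the coefficient of a prime -/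
noncomputable def chiL (Q : Bin → Finset ℕ) : List Bin → ℕ → ℝ
  | [], _ => 0
  | x :: l, p => if p ∈ Q x then (x.χ : ℝ) / 100 else chiL Q l p

theorem chiL_eq (Q : Bin → Finset ℕ) (l : List Bin)
    (hd : l.Pairwise (fun x y => Disjoint (Q x) (Q y))) :
    ∀ x ∈ l, ∀ p ∈ Q x, chiL Q l p = (x.χ : ℝ) / 100 := by
  induction l with
  | nil => intro x hx; simp at hx
  | cons y l ih =>
    intro x hx p hp
    rw [List.pairwise_cons] at hd
    rw [chiL]
    rw [List.mem_cons] at hx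
    rcases hx with rfl | hx
    · rw [if_pos hp]
    · rw [if_neg (fun h => Finset.disjoint_left.mp (hd.1 x hx) h hp)]
      exact ih hd.2 x hx p hp

theorem chiL_bd (Q : Bin → Finset ℕ) (l : List Bin) (h : ∀ x ∈ l, x.χ ≤ 200) (p : ℕ) :
    0 ≤ chiL Q l p ∧ chiL Q l p ≤ 2 := by
  induction l with
  | nil => simp [chiL]
  | cons y l ih =>
    rw [chiL]
    split_ifs
    · have h1 := h y List.mem_cons_self
      have h2 : (y.χ : ℝ) ≤ 200 := by exact_mod_cast h1
      constructor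
      · positivity
      · linarith
    · exact ih (fun x hx => h x (List.mem_cons_of_mem _ hx))

theorem bins_pw : bins.Pairwise (fun x y => y.b ≤ x.a) := by decide +kernel

attribute [local irreducible] bins

theorem QB_disj {T : ℝ} (hT : 1 ≤ T) :
    bins.Pairwise (fun x y => Disjoint (QB T x) (QB T y)) := by
  refine bins_pw.imp ?_
  intro x y h
  have hT0 : 0 < T := by linarith
  rw [Finset.disjoint_left]
  intro p h1 h2
  obtain ⟨_, h3, _⟩ := (mem_QT hT0).mp h1
  obtain ⟨_, _, h4⟩ := (mem_QT hT0).mp h2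
  have h5 : T ^ ((y.b : ℝ) / 100000) ≤ T ^ ((x.a : ℝ) / 100000) := by
    apply Real.rpow_le_rpow_of_exponent_le hT
    have : (y.b : ℝ) ≤ x.a := by exact_mod_cast h
    linarith
  linarith

theorem QB_prime {T : ℝ} (hT : 0 < T) : ∀ x ∈ bins, ∀ p ∈ QB T x, p.Prime := by
  intro x _ p hp
  exact ((mem_QT hT).mp hp).1

/-- the constant `c` -/
noncomputable def c0 : ℝ := (3534 / 1000) / (2 * Real.pi)

theorem c0_pos : 0 < c0 := by
  unfold c0
  have := Real.pi_pos
  positivity

theorem c0_lt : c0 < 9 / 16 := by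
  unfold c0
  have h := Real.pi_gt_d4
  rw [div_lt_iff₀ (by linarith)]
  norm_num at h ⊢
  linarith

theorem pi_c0 : Real.pi * c0 = 1767 / 1000 := by
  unfold c0
  have := Real.pi_pos
  field_simp
  norm_num

theorem dl_c0 (T : ℝ) : dl c0 T = (3534 / 1000) / Real.log T := by
  unfold dl c0
  have := Real.pi_pos
  field_simp

/-- normalisation -/
noncomputable def lam : ℝ := 1 / 2 ^ 1259

theorem lam_pos : 0 < lam := by
  unfold lam
  positivity

/-- the detector -/
noncomputable def dT (T : ℝ) : ℕ → ℂ :=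
  dF Bin.co (QB T) bins 1259 lam (chiL (QB T) bins) (dl c0 T)

theorem dT_le {T : ℝ} (hT : 1 ≤ T) (n : ℕ) : ‖dT T n‖ ≤ R1 (T ^ (1 / 100 : ℝ)) n := by
  have hT0 : 0 < T := by linarith
  unfold dT dF
  split_ifs with h
  · have hmem := Fam_mem Bin.co (QB T) bins 1259 _ h.2
    have hr : Rough (T ^ (1 / 100 : ℝ)) n := by
      refine ⟨h.1.ne_zero, fun p hp hpn => ?_⟩
      obtain ⟨x, hx, hpx⟩ := hmem p (Nat.mem_primeFactors.mpr ⟨hp, hpn, h.1.ne_zero⟩)
      obtain ⟨_, h1, _⟩ := (mem_QT hT0).mp hpx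
      refine lt_of_le_of_lt ?_ h1
      apply Real.rpow_le_rpow_of_exponent_le hT
      have h2 := (ok_mem hx).1
      have h3 : (1000 : ℝ) ≤ x.a := by exact_mod_cast h2
      linarith
    rw [R1_apply_rough hr, norm_mul, norm_prod, Complex.norm_real, Real.norm_of_nonneg lam_pos.le]
    have h1 : ∏ p ∈ n.primeFactors, ‖-((chiL (QB T) bins p : ℝ) : ℂ) * (p : ℂ) ^ (hh (dl c0 T))‖ ≤
        ∏ p ∈ n.primeFactors, (2 : ℝ) := by
      refine Finset.prod_le_prod (fun _ _ => norm_nonneg _) fun p hp => ?_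
      have hp0 := (Nat.prime_of_mem_primeFactors hp).pos
      rw [norm_mul, norm_neg, Complex.norm_real, fm_norm_pow _ hp0, mul_one, Real.norm_eq_abs]
      have := chiL_bd (QB T) bins (fun x hx => (ok_mem hx).2.2.2.2.1) p
      rw [abs_of_nonneg this.1]
      exact this.2
    have h2 := Fam_size Bin.co (QB T) (fun _ => 1) 1 bins (fun x hx p _ => by
      refine ⟨zero_le_one, ?_⟩
      have h3 := (ok_mem hx).2.2.2.1
      have h4 : 1 ≤ x.co := by
        rcases Nat.eq_zero_or_pos x.co with h | h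
        · rw [h] at h3
          omega
        · exact h
      have : (1 : ℝ) ≤ x.co := by exact_mod_cast h4
      simpa using this) zero_le_one 1259 _ h.2
    simp only [Finset.sum_const, nsmul_eq_mul, mul_one, one_mul] at h2
    have h3 : n.primeFactors.card ≤ 1259 := by exact_mod_cast h2
    have h4 : ∏ p ∈ n.primeFactors, (2 : ℝ) ≤ 2 ^ 1259 := by
      rw [Finset.prod_const]
      exact pow_le_pow_right₀ (by norm_num) h3
    calc lam * _ ≤ lam * 2 ^ 1259 := mul_le_mul_of_nonneg_left (h1.trans h4) lam_pos.le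
      _ = 1 := by
        unfold lam
        have : (0 : ℝ) < 2 ^ 1259 := by positivity
        generalize (2 : ℝ) ^ 1259 = z at this
        field_simp
  · rw [norm_zero]
    exact R1_nonneg _ _

theorem R1_le_one (z : ℝ) (n : ℕ) : R1 z n ≤ 1 := by
  by_cases h : Rough z n
  · rw [R1_apply_rough h]
  · rw [R1_apply_not h]
    norm_num

theorem dT_le1 {T : ℝ} (hT : 1 ≤ T) (n : ℕ) : ‖dT T n‖ ≤ 1 := (dT_le hT n).trans (R1_le_one _ _)

theorem bin_b {x : Bin} (hx : x ∈ bins) : (x.b : ℝ) / 100000 ≤ 999 / 1000 / 1260 * x.co ∧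
    (x.b : ℝ) / 100000 * x.k ≤ 999 / 1000 := by
  obtain ⟨o1, o2, o3, o4, o5, o6, o7, o8⟩ := ok_mem hx
  have h3 : (x.b : ℝ) * x.k ≤ 99900 := by exact_mod_cast o3
  have h4 : (1260 : ℝ) ≤ x.co * x.k := by exact_mod_cast o4
  have h8 : (1 : ℝ) ≤ x.k := by exact_mod_cast o8
  constructor
  · have hb0 : (0 : ℝ) ≤ x.b := by positivity
    have hk : (0 : ℝ) < x.k := by linarith
    have h5 : (x.b : ℝ) / 100000 * x.k ≤ (999 / 1000 / 1260 * x.co) * x.k := by
      have : 999 / 1000 / 1260 * (1260 : ℝ) ≤ 999 / 1000 / 1260 * (x.co * x.k) :=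
        mul_le_mul_of_nonneg_left h4 (by norm_num)
      linarith
    exact le_of_mul_le_mul_right h5 hk
  · linarith

/-- the length exponent -/
noncomputable def xx : ℝ := 999 / 1000 / 1260 * 1259

theorem prod_N {T : ℝ} (hT : 1 < T) : ∀ B ∈ Fam Bin.co (QB T) bins 1259,
    ∏ p ∈ B, p ≤ ⌊T ^ xx⌋₊ := by
  intro B hB
  have hT0 : 0 < T := by linarith
  have hL : 0 < Real.log T := Real.log_pos hT
  have hpr := Fam_prime Bin.co (QB T) bins 1259 (QB_prime hT0) hB
  apply Nat.le_floor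
  have h0 : (0 : ℝ) < ((∏ p ∈ B, p : ℕ) : ℝ) := by
    exact_mod_cast Finset.prod_pos fun p hp => (hpr p hp).pos
  rw [← Real.log_le_log_iff h0 (Real.rpow_pos_of_pos hT0 _), Real.log_rpow hT0]
  push_cast
  rw [Real.log_prod (fun p hp => by exact_mod_cast (hpr p hp).ne_zero)]
  have h1 := Fam_size Bin.co (QB T) (fun p => Real.log p) (999 / 1000 / 1260 * Real.log T) bins
    (fun x hx p hp => by
      obtain ⟨h2, _, h4⟩ := (mem_QT hT0).mp hp
      have hp0 : (0 : ℝ) < p := by exact_mod_cast h2.pos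
      refine ⟨Real.log_natCast_nonneg p, ?_⟩
      have h5 := Real.log_le_log hp0 h4
      rw [Real.log_rpow hT0] at h5
      refine h5.trans ?_
      have h6 := mul_le_mul_of_nonneg_right (bin_b hx).1 hL.le
      calc _ ≤ _ := h6
        _ = _ := by ring) (by positivity) 1259 B hB
  refine h1.trans (le_of_eq ?_)
  unfold xx
  push_cast
  ring

/-- **positivity of the diagonal** -/
theorem beT : ∃ T0 : ℝ, ∀ T : ℝ, T0 ≤ T →
    lam ^ 2 ≤ (cexp (-(Real.pi * c0 : ℝ) * I) * be c0 T (dT T) ⌊T ^ xx⌋₊).im := by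
  have hlim : ∀ x ∈ {x | x ∈ bins}, ∀ᶠ T : ℝ in atTop,
      ‖(∑ p ∈ QB T x, ((((x.χ : ℝ) / 100 : ℝ) : ℂ) / p) * ((((x.χ : ℝ) / 100 : ℝ) : ℂ) - 1 +
      cexp (-(I * (((3534 / 1000) * (Real.log p / Real.log T) : ℝ) : ℂ))))) - gl x‖ ≤
        1 / 1000000 := by
    intro x hx
    obtain ⟨o1, o2, o3, o4, o5, o6, o7, o8⟩ := ok_mem hx
    have ha : (0 : ℝ) < (x.a : ℝ) / 100000 := by
      have : 0 < x.a := by omega
      positivity
    have hab : (x.a : ℝ) / 100000 ≤ (x.b : ℝ) / 100000 := by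
      have : (x.a : ℝ) ≤ x.b := by exact_mod_cast o2.le
      linarith
    have hb : (x.b : ℝ) / 100000 ≤ 1 := by
      have h1 := (bin_b hx).2
      have h8 : (1 : ℝ) ≤ x.k := by exact_mod_cast o8
      have : (0 : ℝ) ≤ (x.b : ℝ) / 100000 := by positivity
      nlinarith
    obtain ⟨C, hC, h⟩ := bin_lim ((x.χ : ℝ) / 100) (3534 / 1000) _ _ ha hab hb
    filter_upwards [eventually_ge_atTop (Real.exp 1),
      Real.tendsto_log_atTop.eventually_ge_atTop (1000000 * C + 1)] with T hT1 hT2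
    refine (h T hT1).trans ?_
    have hL : 0 < Real.log T := by nlinarith
    rw [div_le_div_iff₀ hL (by norm_num)]
    linarith
  have hall := (Filter.eventually_all_finite (List.finite_toSet bins)).mpr hlim
  obtain ⟨T0, hT0⟩ := eventually_atTop.mp (hall.and (eventually_gt_atTop 1))
  refine ⟨T0, fun T hT => ?_⟩
  obtain ⟨h1, hT1⟩ := hT0 T hT
  have hTpos : 0 < T := by linarith
  have hdis := QB_disj hT1.le
  unfold dT
  rw [be_dF Bin.co (QB T) bins 1259 (QB_prime hTpos) hdis _ (prod_N hT1) lam _ c0 T]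
  set g : Bin → ℂ := fun x => ∑ p ∈ QB T x, gq (chiL (QB T) bins) (dl c0 T) p with hg
  have hgx : ∀ x ∈ bins, ‖g x - gl x‖ ≤ 1 / 1000000 := by
    intro x hx
    have h2 := h1 x hx
    have e : g x = ∑ p ∈ QB T x, ((((x.χ : ℝ) / 100 : ℝ) : ℂ) / p) *
        ((((x.χ : ℝ) / 100 : ℝ) : ℂ) - 1 +
        cexp (-(I * (((3534 / 1000) * (Real.log p / Real.log T) : ℝ) : ℂ)))) := by
      simp only [hg]
      refine Finset.sum_congr rfl fun p hp => ?_
      have hp0 : (p : ℂ) ≠ 0 := by exact_mod_cast (QB_prime hTpos x hx p hp).ne_zero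
      unfold gq
      rw [chiL_eq (QB T) bins hdis x hx p hp]
      congr 2
      rw [Complex.cpow_def_of_ne_zero hp0, ← Complex.natCast_log, dl_c0]
      congr 1
      unfold hh
      push_cast
      ring
    rw [e]
    exact h2
  have hpos := positive g hgx
  have e1 : cexp (-(Real.pi * c0 : ℝ) * I) * ((lam : ℂ) ^ 2 * SW Bin.co g bins 1259) =
      ((lam ^ 2 : ℝ) : ℂ) * (cexp (-(1767 / 1000 : ℝ) * I) * SW Bin.co g bins 1259) := by
    rw [pi_c0]
    push_cast
    ring
  rw [e1, Complex.im_ofReal_mul]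
  have := mul_le_mul_of_nonneg_left hpos (by positivity : 0 ≤ lam ^ 2)
  linarith

end Pool.Agent.TH299.PG
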