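import Mathlib

/-! Families of finite sets with at most one element in each bin and bounded total cost. -/

namespace Pool.Agent.TH299.PG

/-- weighted sum over the admissible families -/
def SW {α R : Type*} [CommRing R] (cost : α → ℕ) (g : α → R) : List α → ℕ → R
  | [], _ => 1
  | x :: l, b => SW cost g l b + if cost x ≤ b then g x * SW cost g l (b - cost x) else 0

/-- sets with at most one element in each bin, and total cost at most `b` -/
def Fam {α : Type*} (cost : α → ℕ) (Q : α → Finset ℕ) : List α → ℕ → Finset (Finset ℕ)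
  | [], _ => {∅}
  | x :: l, b => Fam cost Q l b ∪
      if cost x ≤ b then (Q x ×ˢ Fam cost Q l (b - cost x)).image (fun y => insert y.1 y.2) else ∅

section

variable {α : Type*} (cost : α → ℕ) (Q : α → Finset ℕ)

theorem mem_Fam_cons (x : α) (l : List α) (b : ℕ) (B : Finset ℕ) :
    B ∈ Fam cost Q (x :: l) b ↔ B ∈ Fam cost Q l b ∨
      (cost x ≤ b ∧ ∃ p ∈ Q x, ∃ C ∈ Fam cost Q l (b - cost x), insert p C = B) := by
  rw [Fam, Finset.mem_union]
  apply or_congr_right
  split_ifs with h
  · simp only [Finset.mem_image, Finset.mem_product, Prod.exists, h, true_and]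
    constructor
    · rintro ⟨p, C, ⟨h1, h2⟩, h3⟩
      exact ⟨p, h1, C, h2, h3⟩
    · rintro ⟨p, h1, C, h2, h3⟩
      exact ⟨p, C, ⟨h1, h2⟩, h3⟩
  · simp [h]

theorem Fam_mono (l : List α) : ∀ b b' : ℕ, b ≤ b' → Fam cost Q l b ⊆ Fam cost Q l b' := by
  induction l with
  | nil => intro b b' _; exact le_refl _
  | cons x l ih =>
    intro b b' h B hB
    rw [mem_Fam_cons] at hB ⊢
    rcases hB with hB | ⟨h1, p, hp, C, hC, h2⟩
    · exact Or.inl (ih b b' h hB)
    · exact Or.inr ⟨h1.trans h, p, hp, C, ih _ _ (by omega) hC, h2⟩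

theorem empty_mem_Fam (l : List α) (b : ℕ) : ∅ ∈ Fam cost Q l b := by
  induction l with
  | nil => simp [Fam]
  | cons x l ih =>
    rw [mem_Fam_cons]
    exact Or.inl ih

theorem Fam_down (l : List α) : ∀ (b : ℕ) (B B' : Finset ℕ), B ∈ Fam cost Q l b → B' ⊆ B →
    B' ∈ Fam cost Q l b := by
  induction l with
  | nil =>
    intro b B B' hB h
    simp only [Fam, Finset.mem_singleton] at hB ⊢
    subst hB
    exact Finset.subset_empty.mp h
  | cons x l ih =>
    intro b B B' hB h
    rw [mem_Fam_cons] at hB ⊢
    rcases hB with hB | ⟨h1, p, hp, C, hC, h2⟩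
    · exact Or.inl (ih b B B' hB h)
    · subst h2
      by_cases hpB : p ∈ B'
      · refine Or.inr ⟨h1, p, hp, B'.erase p, ih _ C _ hC ?_, Finset.insert_erase hpB⟩
        intro q hq
        rw [Finset.mem_erase] at hq
        have := h hq.2
        rw [Finset.mem_insert] at this
        rcases this with h | h
        · exact absurd h hq.1
        · exact h
      · refine Or.inl (Fam_mono cost Q l _ _ (Nat.sub_le b (cost x)) (ih _ C B' hC ?_))
        intro q hq
        have := h hq
        rw [Finset.mem_insert] at this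
        rcases this with h | h
        · subst h
          exact absurd hq hpB
        · exact h

theorem Fam_mem (l : List α) : ∀ (b : ℕ) (B : Finset ℕ), B ∈ Fam cost Q l b → ∀ p ∈ B,
    ∃ x ∈ l, p ∈ Q x := by
  induction l with
  | nil =>
    intro b B hB p hp
    simp only [Fam, Finset.mem_singleton] at hB
    subst hB
    simp at hp
  | cons x l ih =>
    intro b B hB p hp
    rw [mem_Fam_cons] at hB
    rcases hB with hB | ⟨h1, q, hq, C, hC, h2⟩
    · obtain ⟨y, hy, hpy⟩ := ih b B hB p hp
      exact ⟨y, List.mem_cons_of_mem _ hy, hpy⟩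
    · subst h2
      rw [Finset.mem_insert] at hp
      rcases hp with rfl | hp
      · exact ⟨x, List.mem_cons_self, hq⟩
      · obtain ⟨y, hy, hpy⟩ := ih _ C hC p hp
        exact ⟨y, List.mem_cons_of_mem _ hy, hpy⟩

theorem Fam_size (v : ℕ → ℝ) (c : ℝ) (l : List α) (hv : ∀ x ∈ l, ∀ p ∈ Q x, 0 ≤ v p ∧
    v p ≤ c * cost x) (hc : 0 ≤ c) :
    ∀ (b : ℕ) (B : Finset ℕ), B ∈ Fam cost Q l b → ∑ p ∈ B, v p ≤ c * b := by
  induction l with
  | nil =>
    intro b B hB
    simp only [Fam, Finset.mem_singleton] at hB
    subst hB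
    simp
    positivity
  | cons x l ih =>
    intro b B hB
    have ih' := ih (fun y hy => hv y (List.mem_cons_of_mem _ hy))
    rw [mem_Fam_cons] at hB
    rcases hB with hB | ⟨h1, q, hq, C, hC, h2⟩
    · exact ih' b B hB
    · subst h2
      have h3 := ih' _ C hC
      have h4 := hv x List.mem_cons_self q hq
      have h5 : ∑ p ∈ insert q C, v p ≤ v q + ∑ p ∈ C, v p := by
        by_cases hqC : q ∈ C
        · rw [Finset.insert_eq_of_mem hqC]
          linarith
        · rw [Finset.sum_insert hqC]
      have h6 : ((b - cost x : ℕ) : ℝ) = b - cost x := by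
        rw [Nat.cast_sub h1]
      rw [h6] at h3
      nlinarith

theorem sum_Fam {R : Type*} [CommRing R] (w : ℕ → R) (l : List α)
    (hd : l.Pairwise (fun x y => Disjoint (Q x) (Q y))) :
    ∀ b : ℕ, ∑ B ∈ Fam cost Q l b, ∏ p ∈ B, w p =
      SW cost (fun x => ∑ p ∈ Q x, w p) l b := by
  induction l with
  | nil => intro b; simp [Fam, SW]
  | cons x l ih =>
    intro b
    rw [List.pairwise_cons] at hd
    have ih' := ih hd.2
    have hnot : ∀ (b : ℕ) (C : Finset ℕ), C ∈ Fam cost Q l b → ∀ p ∈ Q x, p ∉ C := by
      intro b C hC p hp hpC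
      obtain ⟨y, hy, hpy⟩ := Fam_mem cost Q l b C hC p hpC
      exact Finset.disjoint_left.mp (hd.1 y hy) hp hpy
    unfold Fam SW
    rw [Finset.sum_union, ih']
    · congr 1
      split_ifs with h
      · rw [Finset.sum_image, Finset.sum_product, ← ih', Finset.sum_mul_sum]
        · refine Finset.sum_congr rfl fun p hp => Finset.sum_congr rfl fun C hC => ?_
          rw [Finset.prod_insert (hnot _ C hC p hp)]
        · rintro ⟨p, C⟩ h1 ⟨p', C'⟩ h2 h3
          simp only [Finset.coe_product, Set.mem_prod, Finset.mem_coe] at h1 h2 h3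
          have a1 : p = p' := by
            have : p ∈ insert p' C' := h3 ▸ Finset.mem_insert_self p C
            rw [Finset.mem_insert] at this
            rcases this with h | h
            · exact h
            · exact absurd h (hnot _ C' h2.2 p h1.1)
          subst a1
          have a2 : C = C' := by
            have e1 := Finset.erase_insert (hnot _ C h1.2 p h1.1)
            have e2 := Finset.erase_insert (hnot _ C' h2.2 p h1.1)
            rw [← e1, ← e2, h3]
          rw [a2]
      · simp
    · rw [Finset.disjoint_left]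
      intro B hB hB'
      split_ifs at hB' with h
      · rw [Finset.mem_image] at hB'
        obtain ⟨⟨p, C⟩, h1, h2⟩ := hB'
        rw [Finset.mem_product] at h1
        simp only at h1 h2
        refine hnot b B hB p h1.1 ?_
        rw [← h2]
        exact Finset.mem_insert_self p C
      · simp at hB'

end

section bounds

variable {α : Type*} (cost : α → ℕ)

theorem SW_norm (g : α → ℂ) (l : List α) (A Z : ℝ) (hA : 0 ≤ A) (hZ : 1 ≤ Z)
    (hg : ∀ x ∈ l, ‖g x‖ ≤ A * Z ^ cost x) :
    ∀ b : ℕ, ‖SW cost g l b‖ ≤ (1 + A) ^ l.length * Z ^ b := by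
  induction l with
  | nil =>
    intro b
    simp only [SW, norm_one, List.length_nil, pow_zero, one_mul]
    exact one_le_pow₀ hZ
  | cons x l ih =>
    intro b
    have ih' := ih (fun y hy => hg y (List.mem_cons_of_mem _ hy))
    have hx := hg x List.mem_cons_self
    unfold SW
    rw [List.length_cons, pow_succ]
    have h0 : 0 ≤ (1 + A) ^ l.length := by positivity
    have hZ0 : 0 ≤ Z := by linarith
    split_ifs with h
    · refine (norm_add_le _ _).trans ?_
      rw [norm_mul]
      have h1 := ih' b
      have h2 := mul_le_mul hx (ih' (b - cost x)) (norm_nonneg _) (by positivity)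
      have h3 : A * Z ^ cost x * ((1 + A) ^ l.length * Z ^ (b - cost x)) =
          A * (1 + A) ^ l.length * Z ^ b := by
        have : Z ^ b = Z ^ cost x * Z ^ (b - cost x) := by
          rw [← pow_add]
          congr 1
          omega
        rw [this]
        ring
      rw [h3] at h2
      calc _ ≤ (1 + A) ^ l.length * Z ^ b + A * (1 + A) ^ l.length * Z ^ b := add_le_add h1 h2
        _ = _ := by ring
    · rw [add_zero]
      refine (ih' b).trans ?_
      apply mul_le_mul_of_nonneg_right _ (by positivity)
      nlinarith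

theorem SW_diff (g g' : α → ℂ) (l : List α) (γ η : ℝ) (hγ : 0 ≤ γ) (hη : 0 ≤ η)
    (hg : ∀ x ∈ l, ‖g x‖ ≤ γ) (hg' : ∀ x ∈ l, ‖g' x‖ ≤ γ) (hd : ∀ x ∈ l, ‖g x - g' x‖ ≤ η) :
    ∀ b : ℕ, ‖SW cost g l b - SW cost g' l b‖ ≤ l.length * η * (1 + γ) ^ l.length := by
  induction l with
  | nil => intro b; simp [SW]
  | cons x l ih =>
    intro b
    have ih' := ih (fun y hy => hg y (List.mem_cons_of_mem _ hy))
      (fun y hy => hg' y (List.mem_cons_of_mem _ hy)) (fun y hy => hd y (List.mem_cons_of_mem _ hy))
    have hx := hg x List.mem_cons_self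
    have hx' := hg' x List.mem_cons_self
    have hdx := hd x List.mem_cons_self
    have hn := SW_norm cost g l γ 1 hγ le_rfl (fun y hy => by
      rw [one_pow, mul_one]
      exact hg y (List.mem_cons_of_mem _ hy))
    have h0 : 0 ≤ (1 + γ) ^ l.length := by positivity
    unfold SW
    rw [List.length_cons, pow_succ]
    push_cast
    have key : ∀ X X' Y Y' : ℂ, ‖X - X'‖ ≤ l.length * η * (1 + γ) ^ l.length →
        ‖Y - Y'‖ ≤ l.length * η * (1 + γ) ^ l.length → ‖Y‖ ≤ (1 + γ) ^ l.length →
        ‖(X + g x * Y) - (X' + g' x * Y')‖ ≤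
          ((l.length : ℝ) + 1) * η * ((1 + γ) ^ l.length * (1 + γ)) := by
      intro X X' Y Y' a1 a2 a3
      have e : (X + g x * Y) - (X' + g' x * Y') = (X - X') + ((g x - g' x) * Y +
          g' x * (Y - Y')) := by ring
      rw [e]
      refine (norm_add_le _ _).trans ?_
      have h1 : ‖(g x - g' x) * Y + g' x * (Y - Y')‖ ≤ η * (1 + γ) ^ l.length +
          γ * (l.length * η * (1 + γ) ^ l.length) := by
        refine (norm_add_le _ _).trans ?_
        rw [norm_mul, norm_mul]
        exact add_le_add (mul_le_mul hdx a3 (norm_nonneg _) hη)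
          (mul_le_mul hx' a2 (norm_nonneg _) hγ)
      have h2 : 0 ≤ γ * (η * (1 + γ) ^ l.length) := by positivity
      calc _ ≤ l.length * η * (1 + γ) ^ l.length + (η * (1 + γ) ^ l.length +
          γ * (l.length * η * (1 + γ) ^ l.length)) := add_le_add a1 h1
        _ ≤ _ := by
          have e2 : ((l.length : ℝ) + 1) * η * ((1 + γ) ^ l.length * (1 + γ)) =
            l.length * η * (1 + γ) ^ l.length + (η * (1 + γ) ^ l.length +
              γ * (l.length * η * (1 + γ) ^ l.length)) + γ * (η * (1 + γ) ^ l.length) := by ring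
          rw [e2]
          linarith
    split_ifs with h
    · refine key _ _ _ _ (ih' b) (ih' _) ?_
      have := hn (b - cost x)
      rwa [one_pow, mul_one] at this
    · have := key _ _ 0 0 (ih' b) (by simp; positivity) (by simp; positivity)
      simpa using this

end bounds

/-! ### integer evaluation -/

/-- homogenised sum -/
def SH {α R : Type*} [CommRing R] (cost : α → ℕ) (S : R) (g : α → R) : List α → ℕ → R
  | [], _ => 1
  | x :: l, b => S * SH cost S g l b + if cost x ≤ b then g x * SH cost S g l (b - cost x) else 0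

theorem SH_eq {α R : Type*} [CommRing R] (cost : α → ℕ) (S : R) (g h : α → R) (l : List α)
    (hg : ∀ x ∈ l, g x = S * h x) : ∀ b : ℕ, SH cost S g l b = S ^ l.length * SW cost h l b := by
  induction l with
  | nil => intro b; simp [SH, SW]
  | cons x l ih =>
    intro b
    have ih' := ih (fun y hy => hg y (List.mem_cons_of_mem _ hy))
    unfold SH SW
    rw [ih', ih', hg x List.mem_cons_self, List.length_cons, pow_succ]
    split_ifs <;> ring

/-- multiplication of pairs -/
def mulP (x y : ℤ × ℤ) : ℤ × ℤ := (x.1 * y.1 - x.2 * y.2, x.1 * y.2 + x.2 * y.1)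

/-- the rows of the computation -/
def row {α : Type*} (cost : α → ℕ) (S : ℤ) (g : α → ℤ × ℤ) (G : ℕ) : List α → List (ℤ × ℤ)
  | [] => List.replicate G (1, 0)
  | x :: l => List.zipWith (fun y z => (S * y.1 + (mulP (g x) z).1, S * y.2 + (mulP (g x) z).2))
      (row cost S g G l) (List.replicate (cost x) (0, 0) ++ row cost S g G l)

/-- a pair as a complex number -/
noncomputable def toC (x : ℤ × ℤ) : ℂ := (x.1 : ℂ) + (x.2 : ℂ) * Complex.I

theorem toC_mulP (x y : ℤ × ℤ) : toC (mulP x y) = toC x * toC y := by
  unfold toC mulP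
  push_cast
  have := Complex.I_mul_I
  linear_combination (-(x.2 : ℂ) * y.2) * this

theorem row_length {α : Type*} (cost : α → ℕ) (S : ℤ) (g : α → ℤ × ℤ) (G : ℕ) (l : List α) :
    (row cost S g G l).length = G := by
  induction l with
  | nil => simp [row]
  | cons x l ih =>
    unfold row
    rw [List.length_zipWith, List.length_append, ih]
    simp

theorem row_get {α : Type*} (cost : α → ℕ) (S : ℤ) (g : α → ℤ × ℤ) (G : ℕ) (l : List α) :
    ∀ b : ℕ, (hb : b < G) → toC ((row cost S g G l)[b]'(by rw [row_length]; exact hb)) =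
      SH cost (S : ℂ) (fun x => toC (g x)) l b := by
  induction l with
  | nil =>
    intro b hb
    simp [row, SH, toC]
  | cons x l ih =>
    intro b hb
    simp only [row, SH, List.getElem_zipWith]
    have h1 := ih b hb
    have e : ∀ y z : ℤ × ℤ, toC (S * y.1 + (mulP (g x) z).1, S * y.2 + (mulP (g x) z).2) =
        S * toC y + toC (g x) * toC z := by
      intro y z
      rw [← toC_mulP]
      unfold toC
      push_cast
      ring
    rw [e, h1]
    congr 1
    split_ifs with h
    · congr 1
      rw [List.getElem_append_right (by simpa using h)]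
      simp only [List.length_replicate]
      exact ih _ (by omega)
    · rw [List.getElem_append_left (by simp; omega)]
      simp [toC]

end Pool.Agent.TH299.PG
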