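import Pool.Agent.W240.PPLa

/-! The trace inequality when `|f| ≤ M + g` with `g` of small mass. -/

open Complex Filter Topology Set MeasureTheory

namespace Pool.Agent.TH299.PG

open Pool.Agent.W192.PP Pool.Agent.W240.PPLa

theorem la2 (J K : ℕ) (H A B β M : ℝ) (Φ : (Fin J → ℂ) →ₗ[ℂ] (Fin K → ℂ)) (f g : ℝ → ℝ)
    (hH : 0 < H) (hAB : A ≤ B) (hBH : B ≤ A + H) (hf : ContinuousOn f (Icc A B))
    (hg : ContinuousOn g (Icc A B)) (hβ : 0 ≤ β) (hM : 0 ≤ M)
    (hfg : ∀ t ∈ Icc A B, f t ≤ M + g t) (hg0 : ∀ t ∈ Icc A B, 0 ≤ g t)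
    (hyp : ∀ v : Fin J → ℂ, Φ v = 0 →
      ∫ t in A..B, f t * ‖∑ j : Fin J, v j * cexp (-(I * ((2 * Real.pi * j / H * t : ℝ) : ℂ)))‖ ^ 2 ≤
        β * ∑ j : Fin J, ‖v j‖ ^ 2) :
    J * (∫ t in A..B, f t) ≤ J * β + J * (∫ t in A..B, g t) + M * (H * K) := by
  let E := EuclideanSpace ℂ (Fin J)
  let L : E →ₗ[ℂ] (Fin K → ℂ) := Φ.comp (WithLp.linearEquiv 2 ℂ (Fin J → ℂ)).toLinearMap
  let W : Submodule ℂ E := LinearMap.ker L
  have hE : Module.finrank ℂ E = J := finrank_euclideanSpace_fin
  have hdim1 : Module.finrank ℂ W + Module.finrank ℂ Wᗮ = J := by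
    rw [W.finrank_add_finrank_orthogonal, hE]
  have hdim2 : Module.finrank ℂ Wᗮ ≤ K := by
    have h1 := LinearMap.finrank_range_add_finrank_ker L
    have h2 : Module.finrank ℂ (LinearMap.range L) ≤ K := by
      have := Submodule.finrank_le (LinearMap.range L)
      simpa using this
    rw [hE] at h1
    have h3 : Module.finrank ℂ W = Module.finrank ℂ (LinearMap.ker L) := rfl
    omega
  let b := stdOrthonormalBasis ℂ W
  let b' := stdOrthonormalBasis ℂ Wᗮ
  let m : ℝ → ℝ := fun t => ∑ i, ‖gg J H (b i : E) t‖ ^ 2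
  let k : ℝ → ℝ := fun t => ∑ i, ‖gg J H (b' i : E) t‖ ^ 2
  have hmk : ∀ t, m t + k t = J := by
    intro t
    have h1 : m t = ‖W.orthogonalProjection (ev J H t)‖ ^ 2 := by
      rw [← b.sum_sq_norm_inner_right]
      refine Finset.sum_congr rfl fun i _ => ?_
      rw [Submodule.inner_orthogonalProjection_eq_of_mem_left, norm_inner_ev]
    have h2 : k t = ‖Wᗮ.orthogonalProjection (ev J H t)‖ ^ 2 := by
      rw [← b'.sum_sq_norm_inner_right]
      refine Finset.sum_congr rfl fun i _ => ?_
      rw [Submodule.inner_orthogonalProjection_eq_of_mem_left, norm_inner_ev]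
    rw [h1, h2, ← Submodule.norm_sq_eq_add_norm_sq_projection, norm_ev]
  have hk0 : ∀ t, 0 ≤ k t := fun t => Finset.sum_nonneg fun i _ => sq_nonneg _
  have hm0 : ∀ t, 0 ≤ m t := fun t => Finset.sum_nonneg fun i _ => sq_nonneg _
  have hkJ : ∀ t, k t ≤ J := fun t => by linarith [hmk t, hm0 t]
  have hkc : Continuous k := by
    refine continuous_finset_sum _ fun i _ => ?_
    exact ((gg_cont J H _).norm).pow 2
  have hnorm : ∀ i, ∑ j, ‖(b i : E) j‖ ^ 2 = 1 := by
    intro i
    rw [← EuclideanSpace.norm_sq_eq]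
    have : ‖(b i : E)‖ = 1 := b.norm_eq_one i
    rw [this, one_pow]
  have hnorm' : ∀ i, ∑ j, ‖(b' i : E) j‖ ^ 2 = 1 := by
    intro i
    rw [← EuclideanSpace.norm_sq_eq]
    have : ‖(b' i : E)‖ = 1 := b'.norm_eq_one i
    rw [this, one_pow]
  -- the sum of the hypotheses
  have h1 : ∀ i, ∫ t in A..B, f t * ‖gg J H (b i : E) t‖ ^ 2 ≤ β := by
    intro i
    have h2 := hyp (b i : E).ofLp (by
      have : (b i : E) ∈ W := (b i).2
      exact LinearMap.mem_ker.1 this)
    refine h2.trans ?_
    have h3 : ∑ j : Fin J, ‖(b i : E).ofLp j‖ ^ 2 = 1 := hnorm i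
    rw [h3, mul_one]
  have h2 : ∫ t in A..B, f t * m t ≤ J * β := by
    have e1 : ∫ t in A..B, f t * m t = ∑ i, ∫ t in A..B, f t * ‖gg J H (b i : E) t‖ ^ 2 := by
      rw [← intervalIntegral.integral_finset_sum]
      · congr 1
        funext t
        rw [Finset.mul_sum]
      · intro i _
        exact ContinuousOn.intervalIntegrable_of_Icc hAB
          (hf.mul (((gg_cont J H _).norm).pow 2).continuousOn)
    rw [e1]
    calc ∑ i, ∫ t in A..B, f t * ‖gg J H (b i : E) t‖ ^ 2
        ≤ ∑ _i : Fin (Module.finrank ℂ W), β := Finset.sum_le_sum fun i _ => h1 i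
      _ = (Module.finrank ℂ W : ℝ) * β := by simp
      _ ≤ J * β := by
        refine mul_le_mul_of_nonneg_right ?_ hβ
        have : Module.finrank ℂ W ≤ J := by omega
        exact_mod_cast this
  have h3 : (J : ℝ) * ∫ t in A..B, f t = (∫ t in A..B, f t * m t) + ∫ t in A..B, f t * k t := by
    rw [← intervalIntegral.integral_add, ← intervalIntegral.integral_const_mul]
    · congr 1
      funext t
      rw [← mul_add, hmk, mul_comm]
    · exact ContinuousOn.intervalIntegrable_of_Icc hAB (hf.mul (by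
        refine Continuous.continuousOn ?_
        refine continuous_finset_sum _ fun i _ => ?_
        exact ((gg_cont J H _).norm).pow 2))
    · exact ContinuousOn.intervalIntegrable_of_Icc hAB (hf.mul hkc.continuousOn)
  have h4 : ∫ t in A..B, k t ≤ H * K := by
    have e1 : ∫ t in A..B, k t ≤ ∫ t in A..(A + H), k t := by
      have := intervalIntegral.integral_add_adjacent_intervals
        (hkc.intervalIntegrable A B) (hkc.intervalIntegrable B (A + H)) (μ := volume)
      have h0 : 0 ≤ ∫ t in B..(A + H), k t :=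
        intervalIntegral.integral_nonneg hBH fun t _ => hk0 t
      linarith
    have e2 : ∫ t in A..(A + H), k t = ∑ i, ∫ t in A..(A + H), ‖gg J H (b' i : E) t‖ ^ 2 := by
      rw [← intervalIntegral.integral_finset_sum]
      intro i _
      exact (((gg_cont J H _).norm).pow 2).intervalIntegrable _ _
    rw [e2] at e1
    refine e1.trans ?_
    have e3 : ∀ i, ∫ t in A..(A + H), ‖gg J H (b' i : E) t‖ ^ 2 = H := by
      intro i
      rw [parseval J H A hH]
      have h3 : ∑ j : Fin J, ‖(b' i : E).ofLp j‖ ^ 2 = 1 := hnorm' i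
      rw [h3, mul_one]
    simp only [e3]
    rw [Finset.sum_const, Finset.card_univ, Fintype.card_fin, nsmul_eq_mul, mul_comm]
    refine mul_le_mul_of_nonneg_left ?_ hH.le
    exact_mod_cast hdim2
  have h5 : ∫ t in A..B, f t * k t ≤ M * (H * K) + J * ∫ t in A..B, g t := by
    have e1 : ∫ t in A..B, f t * k t ≤ ∫ t in A..B, (M * k t + J * g t) := by
      refine intervalIntegral.integral_mono_on hAB
        (ContinuousOn.intervalIntegrable_of_Icc hAB (hf.mul hkc.continuousOn))
        (ContinuousOn.intervalIntegrable_of_Icc hAB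
          ((continuousOn_const.mul hkc.continuousOn).add (continuousOn_const.mul hg))) fun t ht => ?_
      have a1 := hfg t ht
      have a2 := hg0 t ht
      have a3 := hk0 t
      have a4 := hkJ t
      have a5 := mul_le_mul_of_nonneg_right a1 a3
      have a6 := mul_le_mul_of_nonneg_left a4 a2
      linarith
    rw [intervalIntegral.integral_add, intervalIntegral.integral_const_mul,
      intervalIntegral.integral_const_mul] at e1
    · have := mul_le_mul_of_nonneg_left h4 hM
      linarith
    · exact (hkc.const_mul M).intervalIntegrable _ _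
    · exact ContinuousOn.intervalIntegrable_of_Icc hAB (continuousOn_const.mul hg)
  rw [h3]
  linarith

end Pool.Agent.TH299.PG
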