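import Pool.Agent.TH299.PG.Gen
import Pool.Agent.TH299.PG.La

open Complex Filter Topology Set MeasureTheory

namespace Pool.Agent.TH299.PG

open SG (phi hh dl phi_norm)
open SP SP.EvalAux
open Pool.Agent.W192.SI (Adm dd ev_small4' ev_small4)
open Pool.Agent.W192.PP

/-- lower bound for the integral of `f = w s` -/
theorem low2 (c κ C1 C2 : ℝ) (hc : 0 < c) (hc1 : c < 1) (hκ : 0 < κ) (hC1 : 0 < C1)
    (hC2 : 0 < C2) :
    ∃ T0 : ℝ, ∀ (x η H T W : ℝ) (d : ℕ → ℂ) (_ : ∀ n, ‖d n‖ ≤ 1) (N N' J : ℕ), T0 ≤ T →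
    4 / κ ≤ dd H T → Dat x η H T W N N' J →
    N ≤ N' → Real.log T ^ 2 * N' ≤ dd H T → κ ≤ (cexp (-(Real.pi * c : ℝ) * I) * be c T d N).im →
    ∫ t in W..(W + H), ‖DP N' (ee c T d N) (⟨1 / 2, t⟩ : ℂ)‖ ^ 2 ≤ C2 * H →
    ∫ t in W..(W + H), ‖DP N d (⟨1 / 2, t⟩ : ℂ)‖ ^ 2 ≤ C1 * H →
    ∀ (U1 U2 : ℝ), W ≤ U1 → U1 ≤ W + H / 20 → W + H - H / 20 ≤ U2 → U2 ≤ W + H →
    κ / 2 * dd H T * H ≤
      ∫ t in U1..U2, wW (dd H T) (W + H / 4) (W + 3 * H / 4) t * ss c T d N N' t ∧
    ContinuousOn (ss c T d N N') (Icc U1 U2) := by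
  obtain ⟨Cp, Tp, hCp, hTp, hph⟩ := rho_phase0 c hc hc1
  obtain ⟨Cr, Tr, hCr, hTr, hrho⟩ := SP.rho_bound c hc hc1
  obtain ⟨Tg, hg⟩ := gauss_main
  have ev1 : ∀ᶠ T : ℝ in atTop, 12 * (Cp * (C1 + C2)) / κ ≤ Real.log T :=
    Real.tendsto_log_atTop.eventually_ge_atTop _
  obtain ⟨Te, hTe⟩ := eventually_atTop.mp ev1
  refine ⟨max (max Tp Tr) (max Tg Te), ?_⟩
  intro x η H T W d hd N N' J hT hbigD hdat hNN hbig hbe hsecP hsecD U1 U2 hU1 hU1' hU2 hU2'
  have hTp' : Tp ≤ T := (le_max_left _ _).trans ((le_max_left _ _).trans hT)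
  have hTr' : Tr ≤ T := (le_max_right _ _).trans ((le_max_left _ _).trans hT)
  have hTg' : Tg ≤ T := (le_max_left _ _).trans ((le_max_right _ _).trans hT)
  have hlogbig := hTe T ((le_max_right _ _).trans ((le_max_right _ _).trans hT))
  have hA := hdat.adm
  have hT1' := hdat.T1
  have hT0 : 0 < T := by linarith
  have hH := hA.H_pos
  have hHge := hA.H_ge
  norm_num at hHge
  have hHT := hA.hi
  have hw1 := hdat.w1
  have hw2 := hdat.w2
  have hD := hA.dd_pos
  have hL := hA.log_ge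
  set D := dd H T with hDdef
  set w := wW D (W + H / 4) (W + 3 * H / 4) with hw
  have hab : W + H / 4 ≤ W + 3 * H / 4 := by linarith
  have hU12 : U1 < U2 := by linarith
  have hwc : Continuous w := wW_cont _ _ _
  have hw0 : ∀ t, 0 ≤ w t := fun t => wW_nonneg hab t
  have hw3 : ∀ t, w t ≤ 3 * D := fun t => wW_le hD hab t
  have hpc := pdt_cont c T d N N'
  have han : ∀ t ∈ Icc U1 U2, AnalyticAt ℂ (rho c T) (⟨1 / 2, t⟩ : ℂ) := fun t ht =>
    (hrho T hTr' _ (by simp only; linarith [ht.1]) (by simp only; linarith [ht.2]) (by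
      simp only
      rw [abs_of_pos (by norm_num)]; linarith)).1
  have hsc : ContinuousOn (ss c T d N N') (Icc U1 U2) := ss_cont han
  have hPc := DP_half_cont N' (ee c T d N)
  have hDc := DP_half_cont N d
  -- second moments on [U1,U2]
  have hP' : ∫ t in U1..U2, ‖DP N' (ee c T d N) (⟨1 / 2, t⟩ : ℂ)‖ ^ 2 ≤ C2 * H := by
    refine le_trans ?_ hsecP
    apply intervalIntegral.integral_mono_interval hU1 hU12.le hU2'
    · exact Eventually.of_forall fun t => by positivity
    · exact (hPc.norm.pow 2).intervalIntegrable _ _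
  have hD' : ∫ t in U1..U2, ‖DP N d (⟨1 / 2, t⟩ : ℂ)‖ ^ 2 ≤ C1 * H := by
    refine le_trans ?_ hsecD
    apply intervalIntegral.integral_mono_interval hU1 hU12.le hU2'
    · exact Eventually.of_forall fun t => by positivity
    · exact (hDc.norm.pow 2).intervalIntegrable _ _
  refine ⟨?_, hsc⟩
  -- lower bound
  set q : ℝ → ℝ := fun t => (cexp (-(Real.pi * c : ℝ) * I) * pdt c T d N N' t).im with hq
  have hqc : Continuous q := Complex.continuous_im.comp (continuous_const.mul hpc)
  -- main part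
  have hmain : (W + 3 * H / 4 - (W + H / 4)) * (2 * D * κ - 1) ≤ ∫ t in U1..U2, w t * q t := by
    apply swap_lower hab hU12.le q hqc.continuousOn
    intro τ hτ
    have hgm := hg x η c H T W d hd N N' J hTg' hdat hNN hbig U1 U2 τ hU1 hU1' hU2 hU2' hτ.1 hτ.2
    have hwt : Continuous (fun t : ℝ => wt τ D t) := by unfold wt; fun_prop
    have hcont : Continuous (fun t : ℝ => (wt τ D t : ℂ) * pdt c T d N N' t) := by
      exact (Complex.continuous_ofReal.comp hwt).mul hpc
    have e1 : ∫ t in U1..U2, wt τ D t * q t =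
        (cexp (-(Real.pi * c : ℝ) * I) *
          ∫ t in U1..U2, (wt τ D t : ℂ) * pdt c T d N N' t).im := by
      rw [← intervalIntegral.integral_const_mul, im_int]
      · apply intervalIntegral.integral_congr
        intro t _
        simp only [hq]
        rw [mul_left_comm, Complex.im_ofReal_mul]
      · exact (continuous_const.mul hcont).intervalIntegrable _ _
    rw [e1]
    set X := ∫ t in U1..U2, (wt τ D t : ℂ) * pdt c T d N N' t with hX
    set Y := ((D * Real.sqrt (2 * Real.pi) : ℝ) : ℂ) * be c T d N with hY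
    have hXY : ‖X - Y‖ ≤ 1 := hgm
    have h1 : (cexp (-(Real.pi * c : ℝ) * I) * X).im =
        (cexp (-(Real.pi * c : ℝ) * I) * Y).im +
        (cexp (-(Real.pi * c : ℝ) * I) * (X - Y)).im := by
      rw [← Complex.add_im]
      congr 1
      ring
    have h2 := Complex.abs_im_le_norm (cexp (-(Real.pi * c : ℝ) * I) * (X - Y))
    rw [norm_mul, phase_norm, one_mul, abs_le] at h2
    have h3 : (cexp (-(Real.pi * c : ℝ) * I) * Y).im = D * Real.sqrt (2 * Real.pi) *
        (cexp (-(Real.pi * c : ℝ) * I) * be c T d N).im := by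
      rw [hY, mul_left_comm, Complex.im_ofReal_mul]
    have h4 : 2 ≤ Real.sqrt (2 * Real.pi) := by
      apply Real.le_sqrt_of_sq_le
      have := Real.pi_gt_three
      linarith
    have h5 : 2 * D * κ ≤ D * Real.sqrt (2 * Real.pi) *
        (cexp (-(Real.pi * c : ℝ) * I) * be c T d N).im := by
      calc 2 * D * κ ≤ D * Real.sqrt (2 * Real.pi) * κ := by
            apply mul_le_mul_of_nonneg_right _ hκ.le
            nlinarith
        _ ≤ _ := mul_le_mul_of_nonneg_left hbe (by positivity)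
    rw [h1, h3]
    linarith [h2.1]
  -- error part
  have herr : ∫ t in U1..U2, w t * ‖pdt c T d N N' t‖ ≤ 3 * D * ((C1 + C2) * H) := by
    calc ∫ t in U1..U2, w t * ‖pdt c T d N N' t‖
        ≤ ∫ t in U1..U2, 3 * D * (‖DP N' (ee c T d N) (⟨1 / 2, t⟩ : ℂ)‖ ^ 2 +
            ‖DP N d (⟨1 / 2, t⟩ : ℂ)‖ ^ 2) := by
          apply intervalIntegral.integral_mono_on hU12.le
          · exact (hwc.mul hpc.norm).intervalIntegrable _ _
          · exact (continuous_const.mul ((hPc.norm.pow 2).add (hDc.norm.pow 2))).intervalIntegrable _ _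
          · intro t _
            have h1 := hw3 t
            have h2 := norm_nonneg (pdt c T d N N' t)
            have h3 : ‖pdt c T d N N' t‖ ≤ ‖DP N' (ee c T d N) (⟨1 / 2, t⟩ : ℂ)‖ ^ 2 +
                ‖DP N d (⟨1 / 2, t⟩ : ℂ)‖ ^ 2 := by
              rw [pdt_norm]
              nlinarith [sq_nonneg (‖DP N' (ee c T d N) (⟨1 / 2, t⟩ : ℂ)‖ -
                ‖DP N d (⟨1 / 2, t⟩ : ℂ)‖), sq_nonneg ‖DP N' (ee c T d N) (⟨1 / 2, t⟩ : ℂ)‖,
                sq_nonneg ‖DP N d (⟨1 / 2, t⟩ : ℂ)‖]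
            exact mul_le_mul h1 h3 h2 (by positivity)
      _ = 3 * D * ((∫ t in U1..U2, ‖DP N' (ee c T d N) (⟨1 / 2, t⟩ : ℂ)‖ ^ 2) +
            ∫ t in U1..U2, ‖DP N d (⟨1 / 2, t⟩ : ℂ)‖ ^ 2) := by
          rw [intervalIntegral.integral_const_mul, intervalIntegral.integral_add]
          · exact (hPc.norm.pow 2).intervalIntegrable _ _
          · exact (hDc.norm.pow 2).intervalIntegrable _ _
      _ ≤ 3 * D * ((C1 + C2) * H) := by
          apply mul_le_mul_of_nonneg_left _ (by positivity)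
          linarith
  have hlow : (∫ t in U1..U2, w t * q t) - Cp / Real.log T *
      (∫ t in U1..U2, w t * ‖pdt c T d N N' t‖) ≤ ∫ t in U1..U2, w t * ss c T d N N' t := by
    rw [← intervalIntegral.integral_const_mul, ← intervalIntegral.integral_sub]
    · apply intervalIntegral.integral_mono_on hU12.le
      · exact ((hwc.mul hqc).sub (continuous_const.mul (hwc.mul hpc.norm))).intervalIntegrable _ _
      · apply ContinuousOn.intervalIntegrable
        rw [uIcc_of_le hU12.le]
        exact hwc.continuousOn.mul hsc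
      · intro t ht
        have h1 := ss_lower c T d N N' t _ (hph T hTp' t (by linarith [ht.1]) (by linarith [ht.2]))
        have h2 := mul_le_mul_of_nonneg_left h1 (hw0 t)
        calc w t * q t - Cp / Real.log T * (w t * ‖pdt c T d N N' t‖) =
              w t * ((cexp (-(Real.pi * c : ℝ) * I) * pdt c T d N N' t).im -
                Cp / Real.log T * ‖pdt c T d N N' t‖) := by
                simp only [hq]
                ring
          _ ≤ _ := h2
    · exact (hwc.mul hqc).intervalIntegrable _ _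
    · exact (continuous_const.mul (hwc.mul hpc.norm)).intervalIntegrable _ _
  refine le_trans ?_ hlow
  have h6 : Cp / Real.log T * (∫ t in U1..U2, w t * ‖pdt c T d N N' t‖) ≤ κ / 4 * D * H := by
    have hCpL : 0 ≤ Cp / Real.log T := by positivity
    refine (mul_le_mul_of_nonneg_left herr hCpL).trans ?_
    have hL0 : 0 < Real.log T := by linarith
    have e : Cp / Real.log T * (3 * D * ((C1 + C2) * H)) =
        (3 * (Cp * (C1 + C2)) / Real.log T) * (D * H) := by ring
    rw [e]
    have h7 : 3 * (Cp * (C1 + C2)) / Real.log T ≤ κ / 4 := by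
      rw [div_le_div_iff₀ hL0 (by norm_num)]
      rw [div_le_iff₀ hκ] at hlogbig
      linarith
    calc 3 * (Cp * (C1 + C2)) / Real.log T * (D * H) ≤ κ / 4 * (D * H) :=
          mul_le_mul_of_nonneg_right h7 (by positivity)
      _ = κ / 4 * D * H := by ring
  have h8 : 1 ≤ κ / 4 * D := by
    rw [div_le_iff₀ hκ] at hbigD
    linarith
  nlinarith

end Pool.Agent.TH299.PG
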