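import Pool.Agent.TH299.PG.Ui
import Pool.Agent.TH299.PG.Low2
import Pool.Agent.W192.PP.Fin2

/-! Many small gaps. -/

open Complex Filter Topology Set MeasureTheory

namespace Pool.Agent.TH299.PG

open SG (phi hh dl phi_norm)
open SP hiding GG
open SP.EvalAux
open Pool.Agent.W192.PP Pool.Agent.W612.PP
open Pool.Agent.W192.SI (Adm dd)

attribute [local irreducible] bins dT Sx lam

theorem dat_ev2 (x η θ κ : ℝ) (hx : 0 < x) (hη : 0 < η) (hη1 : η ≤ 1) (hx1 : x + 2 * η ≤ 1)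
    (hθ : θ < 1) (hxθ : x + 2 * η < θ) (hκ : 0 < κ) :
    ∃ T0 : ℝ, ∀ T : ℝ, T0 ≤ T → ∀ W : ℝ, T ≤ W → W + T ^ θ ≤ 2 * T →
      Dat x η (T ^ θ) T W ⌊T ^ x⌋₊ ⌊T ^ (x + 2 * η)⌋₊ ⌊η * Real.log T * T ^ θ / (2 * Real.pi)⌋₊ ∧
      ⌊T ^ x⌋₊ ≤ ⌊T ^ (x + 2 * η)⌋₊ ∧
      Real.log T ^ 2 * (⌊T ^ (x + 2 * η)⌋₊ : ℝ) ≤ dd (T ^ θ) T ∧
      (⌊T ^ (x + 2 * η)⌋₊ : ℝ) ≤ T ^ θ ∧
      8 / κ ≤ dd (T ^ θ) T ∧
      η * Real.log T * T ^ θ / (4 * Real.pi) ≤
        (⌊η * Real.log T * T ^ θ / (2 * Real.pi)⌋₊ : ℝ) := by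
  have hθ0 : 0 < θ := by linarith
  have ev := (eventually_ge_atTop (Real.exp 100)).and ((ev_log 6 θ hθ0).and
    ((ev_log 1 (1 - θ) (by linarith)).and ((ev_log 4 (θ - x - 2 * η) (by linarith)).and
    ((ev_log 3 θ hθ0).and ((Real.tendsto_log_atTop.eventually_ge_atTop (40 / η)).and
    ((Real.tendsto_log_atTop.eventually_ge_atTop (8 / κ))))))))
  obtain ⟨T0, hT0⟩ := eventually_atTop.mp ev
  refine ⟨T0, fun T hT W hW1 hW2 => ?_⟩
  obtain ⟨e1, e2, e3, e4, e5, e6, e7⟩ := hT0 T hT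
  have hTpos : 0 < T := (Real.exp_pos _).trans_le e1
  have hT1 : 1 ≤ T := by
    have := Real.add_one_le_exp (100 : ℝ)
    linarith
  have hL : 100 ≤ Real.log T := by
    rw [Real.le_log_iff_exp_le hTpos]
    exact e1
  have hHT : T ^ θ ≤ T := by
    calc T ^ θ ≤ T ^ (1 : ℝ) := Real.rpow_le_rpow_of_exponent_le hT1 hθ.le
      _ = T := Real.rpow_one T
  have hA : Adm (T ^ θ) T := ⟨e1, e2, hHT⟩
  have hH := hA.H_pos
  have hHge := hA.H_ge
  norm_num at hHge
  have hpi := Real.pi_pos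
  have hpi3 := Real.pi_gt_three
  have hpi4 := Real.pi_lt_four
  set L := Real.log T with hLdef
  set H := T ^ θ with hHdef
  have hN' : (⌊T ^ (x + 2 * η)⌋₊ : ℝ) ≤ T ^ (x + 2 * η) :=
    Nat.floor_le (Real.rpow_nonneg hTpos.le _)
  have hN : (⌊T ^ x⌋₊ : ℝ) ≤ T ^ x := Nat.floor_le (Real.rpow_nonneg hTpos.le _)
  have hJ0 : 0 ≤ η * L * H / (2 * Real.pi) := by positivity
  have hJ : (⌊η * L * H / (2 * Real.pi)⌋₊ : ℝ) ≤ η * L * H / (2 * Real.pi) := Nat.floor_le hJ0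
  have hdd : dd H T = H / L ^ 2 := rfl
  have hLH : L * H ≤ T := by
    rw [pow_one] at e3
    calc L * H ≤ T ^ (1 - θ) * T ^ θ := mul_le_mul_of_nonneg_right e3 hH.le
      _ = T := by rw [← Real.rpow_add hTpos]; norm_num
  have hddL : L ≤ dd H T := by
    rw [hdd, le_div_iff₀ (by positivity)]
    calc L * L ^ 2 = L ^ 3 := by ring
      _ ≤ H := e5
  refine ⟨⟨hA, hW1, hW2, hx.le, hη, hη1, hx1, hN, (Nat.lt_floor_add_one _).le, ?_, ?_, ?_,
    e6.trans hddL⟩, ?_, ?_, ?_, e7.trans hddL, ?_⟩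
  · refine hN'.trans ?_
    calc T ^ (x + 2 * η) ≤ T ^ (1 : ℝ) := Real.rpow_le_rpow_of_exponent_le hT1 hx1
      _ = T := Real.rpow_one T
  · refine hJ.trans ?_
    rw [div_le_iff₀ (by positivity)]
    have h1 : η * L * H ≤ 1 * (L * H) := by
      rw [mul_assoc]
      exact mul_le_mul_of_nonneg_right hη1 (by positivity)
    nlinarith
  · intro j
    unfold fr
    rw [div_le_iff₀ hH]
    have h1 : ((j : ℕ) : ℝ) ≤ η * L * H / (2 * Real.pi) := by
      have : ((j : ℕ) : ℝ) ≤ (⌊η * L * H / (2 * Real.pi)⌋₊ : ℝ) := by exact_mod_cast j.2.le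
      exact this.trans hJ
    calc 2 * Real.pi * ((j : ℕ) : ℝ) ≤ 2 * Real.pi * (η * L * H / (2 * Real.pi)) :=
          mul_le_mul_of_nonneg_left h1 (by positivity)
      _ = η * L * H := by field_simp
  · apply Nat.floor_le_floor
    exact Real.rpow_le_rpow_of_exponent_le hT1 (by linarith)
  · rw [hdd, le_div_iff₀ (by positivity)]
    calc L ^ 2 * (⌊T ^ (x + 2 * η)⌋₊ : ℝ) * L ^ 2 = L ^ 4 * (⌊T ^ (x + 2 * η)⌋₊ : ℝ) := by ring
      _ ≤ T ^ (θ - x - 2 * η) * T ^ (x + 2 * η) := mul_le_mul e4 hN' (by positivity) (by positivity)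
      _ = H := by
          rw [← Real.rpow_add hTpos, hHdef]
          congr 1
          ring
  · exact hN'.trans (Real.rpow_le_rpow_of_exponent_le hT1 hxθ.le)
  · have h1 := (Nat.lt_floor_add_one (η * L * H / (2 * Real.pi))).le
    have h2 : 1 ≤ η * L * H / (4 * Real.pi) := by
      rw [le_div_iff₀ (by positivity)]
      rw [div_le_iff₀ hη] at e6
      nlinarith
    have h3 : η * L * H / (2 * Real.pi) = 2 * (η * L * H / (4 * Real.pi)) := by
      field_simp
      ring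
    rw [h3] at h1 ⊢
    linarith

/-- final algebra -/
theorem final_alg2 {J K κ D H M G : ℝ} (hJ : 0 < J) (hκ : 0 < κ) (hD : 0 < D)
    (hH : 0 < H) (hM : 0 < M) (hbig : 8 / κ ≤ D) (hG : G ≤ κ / 8 * D * H)
    (h : J * (κ / 2 * D * H) ≤ J * H + J * G + M * D * (H * K)) :
    κ / (4 * M) * J ≤ K := by
  have h2 : J * H ≤ κ / 8 * (J * D * H) := by
    rw [div_le_iff₀ hκ] at hbig
    have : 0 < J * H := by positivity
    nlinarith
  have h3 : J * G ≤ κ / 8 * (J * D * H) := by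
    have := mul_le_mul_of_nonneg_left hG hJ.le
    linarith
  have h4 : κ / 4 * J * (D * H) ≤ M * K * (D * H) := by nlinarith
  have h5 : κ / 4 * J ≤ M * K := le_of_mul_le_mul_right h4 (by positivity)
  rw [div_mul_eq_mul_div, div_le_iff₀ (by positivity)]
  linarith

theorem beT' : ∃ κ T0 : ℝ, 0 < κ ∧ ∀ T : ℝ, T0 ≤ T →
    κ ≤ (cexp (-(Real.pi * c0 : ℝ) * I) * be c0 T (dT T) ⌊T ^ xx⌋₊).im := by
  obtain ⟨T0, h⟩ := beT
  exact ⟨lam ^ 2, T0, pow_pos lam_pos 2, h⟩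

theorem D_le' : ∃ CD : ℝ, 0 < CD ∧ ∀ M : ℝ, 1 ≤ M → ∃ MM : ℝ, 0 < MM ∧ ∀ T : ℝ, 1 < T →
    ∀ t : ℝ, ‖DP ⌊T ^ xx⌋₊ (dT T) (⟨1 / 2, t⟩ : ℂ)‖ ^ 2 ≤ CD * (MM + Sx T t / M) :=
  ⟨(lam * 2 ^ 109) ^ 2, pow_pos (mul_pos lam_pos (pow_pos two_pos _)) _, fun M hM =>
    ⟨M ^ 1259, pow_pos (lt_of_lt_of_le one_pos hM) _, fun _ hT t => D_le hT t M hM⟩⟩

theorem xx_facts : 0 < xx ∧ xx + 2 * (1 / 10000) ≤ 1 ∧ xx + 2 * (1 / 10000) < 999 / 1000 := by
  unfold xx
  norm_num

attribute [local irreducible] xx c0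

/-- many bad zeros in every interval of length `T^(999/1000)` -/
theorem many_bad2 :
    ∃ κ T0 : ℝ, 0 < κ ∧ ∀ T : ℝ, T0 ≤ T → ∀ W : ℝ, T ≤ W → W + T ^ (999 / 1000 : ℝ) ≤ 2 * T →
      ∃ S : Multiset ℂ, (∀ z ∈ S, W + dl c0 T ≤ (z + hh (dl c0 T)).im ∧
        (z + hh (dl c0 T)).im ≤ W + T ^ (999 / 1000 : ℝ) ∧ 0 < (z + hh (dl c0 T)).re ∧
        (z + hh (dl c0 T)).re < 1 ∧
        riemannZeta (z + hh (dl c0 T)) = 0 ∧ BadZ (dl c0 T) (z + hh (dl c0 T))) ∧
      (∀ z, S.count z ≤ H370.mult riemannZeta (z + hh (dl c0 T))) ∧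
      κ * T ^ (999 / 1000 : ℝ) * Real.log T ≤ Multiset.card S := by
  classical
  have hc := c0_pos
  have hc1 : c0 < 1 := by linarith [c0_lt]
  obtain ⟨κ, Ta, hκ, hari⟩ := beT'
  obtain ⟨C2, Tb, hC2, hsec⟩ := secP c0 (1 / 100) hc (by norm_num)
  obtain ⟨Ch, Tc, hCh, hhor⟩ := Pool.Agent.W578.PPHor.t_hor c0 hc hc1
  obtain ⟨Td, hup⟩ := upper_v c0 Ch hc hc1
  obtain ⟨CS, hCS, hSx⟩ := Sx_int
  obtain ⟨Cr, Tr, hCr, hTr, hrho⟩ := SP.rho_bound c0 hc hc1
  obtain ⟨CD, hCD0, hDle⟩ := D_le'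
  have hCr0 : 0 < Cr := by linarith
  set μ : ℝ := κ / (48 * Cr * C2) with hμ
  have hμ0 : 0 < μ := by positivity
  set M : ℝ := 1 + 48 * Cr * CD * CS / (μ * κ) with hM
  have hM1 : 1 ≤ M := by
    have : 0 ≤ 48 * Cr * CD * CS / (μ * κ) := by positivity
    linarith
  obtain ⟨MM, hMM0, hDM⟩ := hDle M hM1
  obtain ⟨M1, hM10, hD1⟩ := hDle 1 le_rfl
  obtain ⟨Te, hbd⟩ := low2 c0 κ (CD * (M1 + CS)) C2 hc hc1 hκ (by positivity) hC2
  obtain ⟨hxx0, hxx1, hxx2⟩ := xx_facts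
  obtain ⟨Tf, hdat⟩ := dat_ev2 xx (1 / 10000) (999 / 1000) κ hxx0 (by norm_num) (by norm_num)
    hxx1 (by norm_num) hxx2 hκ
  set M3 : ℝ := 3 * Cr * CD * MM / μ with hM3
  have hM30 : 0 < M3 := by positivity
  refine ⟨κ / (4 * M3) * (1 / 10000 / (4 * Real.pi)),
    max (max (max Ta Tb) (max Tc Td)) (max (max Te Tf) Tr), by have := Real.pi_pos; positivity, ?_⟩
  intro T hT W hW1 hW2
  have hTa : Ta ≤ T := (le_max_left _ _).trans ((le_max_left _ _).trans ((le_max_left _ _).trans hT))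
  have hTb : Tb ≤ T := (le_max_right _ _).trans ((le_max_left _ _).trans ((le_max_left _ _).trans hT))
  have hTc : Tc ≤ T := (le_max_left _ _).trans ((le_max_right _ _).trans ((le_max_left _ _).trans hT))
  have hTd : Td ≤ T := (le_max_right _ _).trans ((le_max_right _ _).trans ((le_max_left _ _).trans hT))
  have hTe : Te ≤ T := (le_max_left _ _).trans ((le_max_left _ _).trans ((le_max_right _ _).trans hT))
  have hTf : Tf ≤ T := (le_max_right _ _).trans ((le_max_left _ _).trans ((le_max_right _ _).trans hT))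
  have hTr' : Tr ≤ T := (le_max_right _ _).trans ((le_max_right _ _).trans hT)
  obtain ⟨hD, hNN, hbig, hN'H, hκD, hJlow⟩ := hdat T hTf W hW1 hW2
  set H := T ^ (999 / 1000 : ℝ) with hH
  set N := ⌊T ^ xx⌋₊ with hN
  set N' := ⌊T ^ (xx + 2 * (1 / 10000))⌋₊ with hN'
  set J := ⌊1 / 10000 * Real.log T * H / (2 * Real.pi)⌋₊ with hJ
  have hA := hD.adm
  have hHpos := hA.H_pos
  have hHge := hA.H_ge
  norm_num at hHge
  have hHT := hA.hi
  have hTge := hA.T_ge'
  have hT1 : 1 < T := by linarith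
  have hTexp : Real.exp 1 ≤ T :=
    (Real.exp_le_exp.mpr (by norm_num : (1 : ℝ) ≤ 100)).trans hA.1
  have hdl0 : 0 < dl c0 T := hA.dl_pos hc
  have hdl1 : dl c0 T ≤ 1 := by linarith [hA.dl_le (by linarith : c0 < 2)]
  have hL := hA.log_ge
  have hdd0 := hA.dd_pos
  have hdle := dT_le1 hT1.le
  -- heights
  obtain ⟨U1, hU1a, hU1b, hU1⟩ := hhor T hTc (W + 1) (by linarith) (by linarith)
  obtain ⟨U2, hU2a, hU2b, hU2⟩ := hhor T hTc (W + H - 2) (by linarith) (by linarith)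
  -- residues
  obtain ⟨S, hS1, hS2, hS3⟩ := Pool.Agent.W338.PP.t_res c0 T U1 U2 hdl0 hdl1 (by linarith)
    (by linarith) (fun σ h1 h2 => ⟨(hU1 σ h1 h2).1, (hU2 σ h1 h2).1⟩)
  refine ⟨S, ?_, hS2, ?_⟩
  · intro z hz
    obtain ⟨h1, h2, h3, h4, h5, h6⟩ := hS1 z hz
    have him : (z + hh (dl c0 T)).im = z.im + dl c0 T / 2 := by
      rw [Complex.add_im]
      simp [hh]
    rw [him]
    exact ⟨by linarith, by linarith, h3, h4, h5, h6⟩
  -- linear conditions
  obtain ⟨Φ, hΦ⟩ := Pool.Agent.W240.PPDiv.t_div J (fun v => FF H T (dT T) N v)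
    (fun v => FF_diff H T (dT T) N v) (by
      intro a v w s
      simp only [FF, gv_lin]
      ring) S
  have hbe : κ ≤ (cexp (-(Real.pi * c0 : ℝ) * I) * be c0 T (dT T) N).im := hari T hTa
  have hsecP := hsec T hTb H W (dT T) N N' (dT_le hT1.le) (by linarith) hHT hN'H
  obtain ⟨hScont, hSint⟩ := hSx T hTexp H W (by linarith) le_rfl
  have hPc := DP_half_cont N' (ee c0 T (dT T) N)
  have hDc := DP_half_cont N (dT T)
  have i2 : Continuous (fun t : ℝ => CD * Sx T t) := continuous_const.mul hScont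
  have hsecD : ∫ t in W..(W + H), ‖DP N (dT T) (⟨1 / 2, t⟩ : ℂ)‖ ^ 2 ≤ CD * (M1 + CS) * H := by
    calc ∫ t in W..(W + H), ‖DP N (dT T) (⟨1 / 2, t⟩ : ℂ)‖ ^ 2
        ≤ ∫ t in W..(W + H), (CD * M1 + CD * Sx T t) := by
          apply intervalIntegral.integral_mono_on (by linarith)
          · exact (hDc.norm.pow 2).intervalIntegrable _ _
          · exact (continuous_const.add i2).intervalIntegrable _ _
          · intro t _
            have := hD1 T hT1 t
            rw [div_one] at this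
            linarith
      _ = CD * M1 * H + CD * ∫ t in W..(W + H), Sx T t := by
          have e2 : ∫ t in W..(W + H), CD * Sx T t = CD * ∫ t in W..(W + H), Sx T t :=
            intervalIntegral.integral_const_mul _ _
          rw [intervalIntegral.integral_add (by simp) (i2.intervalIntegrable _ _), e2]
          simp only [intervalIntegral.integral_const, add_sub_cancel_left, smul_eq_mul]
          ring
      _ ≤ CD * M1 * H + CD * (CS * H) := by
          have := mul_le_mul_of_nonneg_left hSint hCD0.le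
          linarith
      _ = CD * (M1 + CS) * H := by ring
  obtain ⟨b1, b3⟩ := hbd xx (1 / 10000) H T W (dT T) hdle N N' J hTe (by
      refine le_trans ?_ hκD
      apply div_le_div_of_nonneg_right (by norm_num) hκ.le) hD hNN hbig hbe hsecP hsecD U1 U2
    (by linarith) (by linarith) (by linarith) (by linarith)
  set D := dd H T with hDdef
  set f : ℝ → ℝ := fun t => wW D (W + H / 4) (W + 3 * H / 4) t * ss c0 T (dT T) N N' t with hf
  have hU12 : U1 ≤ U2 := by linarith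
  have hfc : ContinuousOn f (Icc U1 U2) := (wW_cont _ _ _).continuousOn.mul b3
  set g : ℝ → ℝ := fun t => 3 * D * Cr * (μ * ‖DP N' (ee c0 T (dT T) N) (⟨1 / 2, t⟩ : ℂ)‖ ^ 2 +
    CD / (μ * M) * Sx T t) with hg
  have hgc : Continuous g := by
    apply continuous_const.mul
    exact (continuous_const.mul (hPc.norm.pow 2)).add (continuous_const.mul hScont)
  have hSx0 : ∀ t, 0 ≤ Sx T t := fun t => by linarith [one_le_Sx T t]
  have hM0 : 0 < M := by linarith
  have hg0 : ∀ t, 0 ≤ g t := by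
    intro t
    have := hSx0 t
    simp only [hg]
    positivity
  have hfg : ∀ t ∈ Icc U1 U2, f t ≤ M3 * D + g t := by
    intro t ht
    have h1 : |ss c0 T (dT T) N N' t| ≤ Cr * ‖pdt c0 T (dT T) N N' t‖ := by
      unfold ss
      refine (Complex.abs_im_le_norm _).trans ?_
      rw [norm_mul]
      apply mul_le_mul_of_nonneg_right _ (norm_nonneg _)
      exact (hrho T hTr' _ (by simp only; linarith [ht.1]) (by simp only; linarith [ht.2]) (by
        simp only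
        rw [abs_of_pos (by norm_num)]; linarith)).2
    have h2 : f t ≤ 3 * D * (Cr * ‖pdt c0 T (dT T) N N' t‖) := by
      simp only [hf]
      have hw0 := wW_nonneg (D := D) (by linarith : W + H / 4 ≤ W + 3 * H / 4) t
      have hw3 := wW_le (D := D) hdd0 (by linarith : W + H / 4 ≤ W + 3 * H / 4) t
      calc _ ≤ wW D (W + H / 4) (W + 3 * H / 4) t * |ss c0 T (dT T) N N' t| :=
            mul_le_mul_of_nonneg_left (le_abs_self _) hw0
        _ ≤ _ := mul_le_mul hw3 h1 (abs_nonneg _) (by positivity)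
    refine h2.trans ?_
    rw [pdt_norm]
    have h3 := hDM T hT1 t
    rw [← hN] at h3
    set p := ‖DP N' (ee c0 T (dT T) N) (⟨1 / 2, t⟩ : ℂ)‖ with hp
    set q := ‖DP N (dT T) (⟨1 / 2, t⟩ : ℂ)‖ with hq
    have hp0 : 0 ≤ p := norm_nonneg _
    have hq0 : 0 ≤ q := norm_nonneg _
    have h4 : p * q ≤ μ * p ^ 2 + q ^ 2 / μ := by
      have e : μ * p ^ 2 + q ^ 2 / μ - p * q = μ * (p - q / (2 * μ)) ^ 2 + 3 / 4 * (q ^ 2 / μ) := by
        field_simp
        ring
      have h5 : 0 ≤ μ * (p - q / (2 * μ)) ^ 2 + 3 / 4 * (q ^ 2 / μ) := by positivity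
      linarith
    have h5 : q ^ 2 / μ ≤ CD * (MM + Sx T t / M) / μ :=
      div_le_div_of_nonneg_right h3 hμ0.le
    have h6 : p * q ≤ μ * p ^ 2 + CD * (MM + Sx T t / M) / μ := h4.trans (by linarith)
    calc 3 * D * (Cr * (p * q)) ≤ 3 * D * (Cr * (μ * p ^ 2 + CD * (MM + Sx T t / M) / μ)) :=
          mul_le_mul_of_nonneg_left (mul_le_mul_of_nonneg_left h6 hCr0.le) (by positivity)
      _ = M3 * D + g t := by
          simp only [hg, hM3]
          field_simp
          ring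
  have hla := la2 J (Multiset.card S) H U1 U2 H (M3 * D) Φ f g hHpos hU12 (by linarith)
    hfc hgc.continuousOn hHpos.le (by positivity) hfg (fun t _ => hg0 t) (by
    intro v hv
    obtain ⟨F1, hF1, hF2⟩ := hΦ v hv
    have hg : ∀ t : ℝ, (∑ j : Fin J, v j * cexp (-(I * ((2 * Real.pi * j / H * t : ℝ) : ℂ)))) =
        gv H v (⟨1 / 2, t⟩ : ℂ) := fun t => (gv_half H v t).symm
    simp only [hg]
    have hq : ContinuousOn (fun t : ℝ => ss c0 T (dT T) N N' t * ‖gv H v (⟨1 / 2, t⟩ : ℂ)‖ ^ 2)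
        (Icc U1 U2) := by
      apply b3.mul
      apply Continuous.continuousOn
      exact (((gv_diff H v).continuous.comp (mk_cont' (1 / 2))).norm).pow 2
    have h1 := swap_upper (D := D) (m := 2 * ∑ j, ‖v j‖ ^ 2)
      (by linarith : W + H / 4 ≤ W + 3 * H / 4) hU12 _ hq (by
        intro τ hτ
        exact hup xx (1 / 10000) H T W (dT T) hdle N N' J hTd hD U1 U2 (by linarith) (by linarith)
          (by linarith) (by linarith) (fun σ h1 h2 => ⟨(hU1 σ h1 h2).2, (hU2 σ h1 h2).2⟩) S hS3 v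
          F1 hF1 hF2 τ hτ.1 hτ.2)
    calc ∫ t in U1..U2, f t * ‖gv H v (⟨1 / 2, t⟩ : ℂ)‖ ^ 2 =
          ∫ t in U1..U2, wW D (W + H / 4) (W + 3 * H / 4) t *
            (ss c0 T (dT T) N N' t * ‖gv H v (⟨1 / 2, t⟩ : ℂ)‖ ^ 2) := by
            apply intervalIntegral.integral_congr
            intro t _
            simp only [hf]
            ring
      _ ≤ (W + 3 * H / 4 - (W + H / 4)) * (2 * ∑ j, ‖v j‖ ^ 2) := h1
      _ = H * ∑ j, ‖v j‖ ^ 2 := by ring)
  have hG : ∫ t in U1..U2, g t ≤ κ / 8 * D * H := by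
    have h1 : ∫ t in U1..U2, g t ≤ ∫ t in W..(W + H), g t := by
      apply intervalIntegral.integral_mono_interval (by linarith) hU12 (by linarith)
      · exact Eventually.of_forall hg0
      · exact hgc.intervalIntegrable _ _
    refine h1.trans ?_
    simp only [hg]
    have j1 : Continuous (fun t : ℝ => μ * ‖DP N' (ee c0 T (dT T) N) (⟨1 / 2, t⟩ : ℂ)‖ ^ 2) :=
      continuous_const.mul (hPc.norm.pow 2)
    have j2 : Continuous (fun t : ℝ => CD / (μ * M) * Sx T t) := continuous_const.mul hScont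
    rw [intervalIntegral.integral_const_mul, intervalIntegral.integral_add
      (j1.intervalIntegrable _ _) (j2.intervalIntegrable _ _),
      intervalIntegral.integral_const_mul, intervalIntegral.integral_const_mul]
    have h2 : μ * (∫ t in W..(W + H), ‖DP N' (ee c0 T (dT T) N) (⟨1 / 2, t⟩ : ℂ)‖ ^ 2) ≤
        μ * (C2 * H) := mul_le_mul_of_nonneg_left hsecP hμ0.le
    have h3 : CD / (μ * M) * (∫ t in W..(W + H), Sx T t) ≤ CD / (μ * M) * (CS * H) :=
      mul_le_mul_of_nonneg_left hSint (by positivity)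
    have h4 : μ * C2 * (48 * Cr) = κ := by
      rw [hμ]
      field_simp
    have h5 : CD / (μ * M) * CS * (48 * Cr) ≤ κ := by
      have h6 : 48 * Cr * CD * CS / (μ * κ) ≤ M := by rw [hM]; linarith
      rw [div_le_iff₀ (by positivity)] at h6
      have e : CD / (μ * M) * CS * (48 * Cr) = 48 * Cr * CD * CS / (μ * M) := by ring
      rw [e, div_le_iff₀ (by positivity)]
      linarith
    calc 3 * D * Cr * (μ * (∫ t in W..(W + H), ‖DP N' (ee c0 T (dT T) N) (⟨1 / 2, t⟩ : ℂ)‖ ^ 2) +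
          CD / (μ * M) * (∫ t in W..(W + H), Sx T t)) ≤
          3 * D * Cr * (μ * (C2 * H) + CD / (μ * M) * (CS * H)) := by
          apply mul_le_mul_of_nonneg_left (by linarith) (by positivity)
      _ = D * H / 16 * (μ * C2 * (48 * Cr) + CD / (μ * M) * CS * (48 * Cr)) := by ring
      _ ≤ D * H / 16 * (κ + κ) := by
          apply mul_le_mul_of_nonneg_left _ (by positivity)
          linarith
      _ = κ / 8 * D * H := by ring
  have hJ0 : (0 : ℝ) < J := by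
    have : 0 < 1 / 10000 * Real.log T * H / (4 * Real.pi) := by
      have := Real.pi_pos
      positivity
    linarith
  have hfin := final_alg2 (K := (Multiset.card S : ℝ)) hJ0 hκ hdd0 hHpos hM30 hκD hG
    (by
      refine (mul_le_mul_of_nonneg_left b1 hJ0.le).trans ?_
      exact hla)
  refine le_trans ?_ hfin
  have : κ / (4 * M3) * (1 / 10000 / (4 * Real.pi)) * H * Real.log T =
      κ / (4 * M3) * (1 / 10000 * Real.log T * H / (4 * Real.pi)) := by ring
  rw [this]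
  exact mul_le_mul_of_nonneg_left hJlow (by positivity)

end Pool.Agent.TH299.PG
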