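import Pool.Agent.TH299.PG.FinP
import Pool.Agent.W192.PP.Fin2

/-! A positive proportion of gaps below `9/16` of the mean spacing, in every short interval. -/

open Complex Filter Topology Set MeasureTheory

namespace Pool.Agent.TH299.PG

open SG (phi hh dl ord)
open Pool.Agent.W192.PP (BadZ glue gaps_finite)

attribute [local irreducible] bins dT c0

theorem pos_window2 :
    ∃ κ T0 : ℝ, 0 < κ ∧ ∀ T : ℝ, T0 ≤ T → ∀ W : ℝ, T ≤ W → W + T ^ (999 / 1000 : ℝ) ≤ 2 * T →
      κ * T ^ (999 / 1000 : ℝ) * Real.log T ≤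
        ({n : ℕ | 1 ≤ n ∧ W ≤ SG.ord n ∧ SG.ord (n + 1) ≤ W + T ^ (999 / 1000 : ℝ) ∧
        SG.ord (n + 1) - SG.ord n ≤ dl c0 T}.ncard : ℝ) := by
  classical
  obtain ⟨κ, T0, hκ, hm⟩ := many_bad2
  refine ⟨κ / 2, max T0 (Real.exp 100), by positivity, fun T hT W hW1 hW2 => ?_⟩
  obtain ⟨S, hS1, hS2, hS3⟩ := hm T ((le_max_left _ _).trans hT) W hW1 hW2
  have hTe : Real.exp 100 ≤ T := (le_max_right _ _).trans hT
  have hTpos : 0 < T := (Real.exp_pos _).trans_le hTe
  have hT10 : 10 ≤ T := by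
    have := Real.add_one_le_exp (100 : ℝ)
    linarith
  have hL : 100 ≤ Real.log T := by
    rw [Real.le_log_iff_exp_le hTpos]
    exact hTe
  have hdl0 : 0 < dl c0 T := by
    unfold dl
    have := Real.pi_pos
    have := c0_pos
    positivity
  have hH0 : 0 < T ^ (999 / 1000 : ℝ) := Real.rpow_pos_of_pos hTpos _
  have hcnt := Pool.Agent.W191.PP.t_cnt (dl c0 T) W (W + T ^ (999 / 1000 : ℝ)) hdl0 (by linarith)
    (by linarith)
    (S.toFinset.image (fun z => z + hh (dl c0 T))) (by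
      intro s hs
      rw [Finset.mem_image] at hs
      obtain ⟨z, hz, rfl⟩ := hs
      obtain ⟨h1, h2, h3, h4, h5, h6⟩ := hS1 z (Multiset.mem_toFinset.mp hz)
      exact ⟨h5, h3, h4, h1, h2, h6⟩)
  rw [Finset.sum_image (by
    intro a _ b _ hab
    exact add_right_cancel hab)] at hcnt
  have hcard : Multiset.card S ≤ ∑ z ∈ S.toFinset, SG.zmult (z + hh (dl c0 T)) := by
    rw [← Multiset.toFinset_sum_count_eq S]
    exact Finset.sum_le_sum fun z _ => hS2 z
  have h1 : (Multiset.card S : ℝ) ≤ 2 * ({n : ℕ | 1 ≤ n ∧ W ≤ SG.ord n ∧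
      SG.ord (n + 1) ≤ W + T ^ (999 / 1000 : ℝ) ∧
      SG.ord (n + 1) - SG.ord n ≤ dl c0 T}.ncard : ℝ) := by
    exact_mod_cast hcard.trans hcnt
  linarith

/-- **positive proportion of gaps below `9/16` of the mean spacing** -/
theorem pos_prop2 (θ : ℝ) (hθ : 999 / 1000 < θ) :
    ∃ κ T0 : ℝ, 0 < κ ∧ ∀ T t0 H : ℝ, T0 ≤ T → T ≤ t0 → t0 + H ≤ 2 * T → T ^ θ ≤ H →
      κ * H * Real.log T ≤ ({n : ℕ | 1 ≤ n ∧ t0 ≤ ord n ∧ ord (n + 1) ≤ t0 + H ∧
        ord (n + 1) - ord n < 9 / 16 * (2 * Real.pi / Real.log T)}.ncard : ℝ) := by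
  have hpi := Real.pi_pos
  obtain ⟨κ, T1, hκ, hwin⟩ := pos_window2
  have ev : ∀ᶠ T : ℝ in atTop, 4 * T ^ (999 / 1000 : ℝ) ≤ T ^ θ := by
    have hlim : Tendsto (fun T : ℝ => T ^ (θ - 999 / 1000)) atTop atTop :=
      tendsto_rpow_atTop (by linarith)
    filter_upwards [hlim.eventually_ge_atTop 4, eventually_gt_atTop 0] with T h1 h2
    calc 4 * T ^ (999 / 1000 : ℝ) ≤ T ^ (θ - 999 / 1000) * T ^ (999 / 1000 : ℝ) :=
          mul_le_mul_of_nonneg_right h1 (Real.rpow_nonneg h2.le _)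
      _ = T ^ θ := by
          rw [← Real.rpow_add h2]
          congr 1
          ring
  obtain ⟨T2, hT2⟩ := eventually_atTop.mp ev
  refine ⟨κ / 4, max (max T1 T2) 10, by positivity, ?_⟩
  intro T t0 H hT ht0 ht1 hH
  have hTa : T1 ≤ T := (le_max_left _ _).trans ((le_max_left _ _).trans hT)
  have hTb : T2 ≤ T := (le_max_right _ _).trans ((le_max_left _ _).trans hT)
  have hT10 : 10 ≤ T := (le_max_right _ _).trans hT
  have hTpos : 0 < T := by linarith
  have hL : 0 < Real.log T := Real.log_pos (by linarith)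
  set h := T ^ (999 / 1000 : ℝ) with hh
  have hh0 : 0 < h := Real.rpow_pos_of_pos hTpos _
  have h4h : 4 * h ≤ H := (hT2 T hTb).trans hH
  set M : ℕ := ⌊H / (2 * h)⌋₊ with hM
  have hHpos : 0 < H := by linarith
  have hM1 : (M : ℝ) ≤ H / (2 * h) := Nat.floor_le (by positivity)
  have hM2 : H / (2 * h) < M + 1 := Nat.lt_floor_add_one _
  have hM3 : 2 ≤ H / (2 * h) := by
    rw [le_div_iff₀ (by positivity)]
    linarith
  have hM4 : H / (4 * h) ≤ M := by
    have : H / (2 * h) = 2 * (H / (4 * h)) := by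
      field_simp
      ring
    rw [this] at hM2 hM3
    linarith
  have hg := glue (fun n => ord (n + 1) - ord n < 9 / 16 * (2 * Real.pi / Real.log T)) t0 h
    (t0 + H) hh0 M
    (κ * h * Real.log T) (by
      have : 2 * (M : ℝ) * h ≤ H := by
        rw [le_div_iff₀ (by positivity)] at hM1
        linarith
      linarith) (by
      intro i hi
      have hi' : (i : ℝ) + 1 ≤ M := by exact_mod_cast hi
      have hi0 : (0 : ℝ) ≤ i := by positivity
      have hMh : 2 * (M : ℝ) * h ≤ H := by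
        rw [le_div_iff₀ (by positivity)] at hM1
        linarith
      have hb : 0 ≤ 2 * (i : ℝ) * h := by positivity
      have h3 : 2 * (i : ℝ) * h + h ≤ H := by nlinarith
      have := hwin T hTa (t0 + 2 * i * h) (by linarith) (by linarith)
      refine this.trans ?_
      have hsub : {n : ℕ | 1 ≤ n ∧ t0 + 2 * i * h ≤ ord n ∧ ord (n + 1) ≤ t0 + 2 * i * h + h ∧
          ord (n + 1) - ord n ≤ dl c0 T} ⊆ {n : ℕ | 1 ≤ n ∧ t0 + 2 * i * h ≤ ord n ∧
          ord (n + 1) ≤ t0 + 2 * i * h + h ∧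
          ord (n + 1) - ord n < 9 / 16 * (2 * Real.pi / Real.log T)} := by
        rintro n ⟨k1, k2, k3, k4⟩
        refine ⟨k1, k2, k3, k4.trans_lt ?_⟩
        have e : dl c0 T = c0 * (2 * Real.pi / Real.log T) := by
          unfold dl
          ring
        rw [e]
        exact mul_lt_mul_of_pos_right c0_lt (by positivity)
      have hfin : {n : ℕ | 1 ≤ n ∧ t0 + 2 * i * h ≤ ord n ∧
          ord (n + 1) ≤ t0 + 2 * i * h + h ∧
          ord (n + 1) - ord n < 9 / 16 * (2 * Real.pi / Real.log T)}.Finite := by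
        refine (gaps_finite (fun _ => True) (t0 + 2 * i * h + h)).subset ?_
        rintro n ⟨k1, _, k3, _⟩
        exact ⟨k1, trivial, k3⟩
      exact_mod_cast Set.ncard_le_ncard hsub hfin)
  refine le_trans ?_ hg
  have e : κ / 4 * H * Real.log T = H / (4 * h) * (κ * h * Real.log T) := by
    field_simp
  rw [e]
  exact mul_le_mul_of_nonneg_right hM4 (by positivity)

end Pool.Agent.TH299.PG
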