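import Mathlib

namespace Pool.Agent.TH299.PG

/-- data of a bin: the primes in `(T^(a/10^5), T^(b/10^5)]`; the `2k`-th moment is used; `co` is
the cost; the coefficient is `χ/100`; `(gr - i gq)/10^10` approximates the contribution of the bin
to the diagonal -/
structure Bin where
  a : ℕ
  b : ℕ
  k : ℕ
  co : ℕ
  χ : ℕ
  gr : ℕ
  gq : ℕ

/-- evaluate `n` first -/
def fz {α : Type} (n : ℕ) (k : ℕ → α) : α := Nat.rec (k 0) (fun m _ => k (m + 1)) n

theorem fz_eq {α : Type} (n : ℕ) (k : ℕ → α) : fz n k = k n := by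
  cases n <;> rfl

/-- the computation with all the coefficients packed in four numbers -/
def kron (X M S : ℕ) (k : ℕ → ℕ → ℕ → ℕ → Bool) : List Bin → ℕ → ℕ → ℕ → ℕ → Bool
  | [], p0, p1, p2, p3 => k p0 p1 p2 p3
  | x :: l, p0, p1, p2, p3 =>
    fz (X ^ x.co) fun Y =>
    fz ((S * p0 + Y * (x.gr * p0 + x.gq * p3)) % M) fun q0 =>
    fz ((S * p1 + Y * (x.gr * p1 + x.gq * p0)) % M) fun q1 =>
    fz ((S * p2 + Y * (x.gr * p2 + x.gq * p1)) % M) fun q2 =>
    fz ((S * p3 + Y * (x.gr * p3 + x.gq * p2)) % M) fun q3 =>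
    kron X M S k l q0 q1 q2 q3

/-- the final test -/
def test (X E r0 r1 s0 s1 : ℕ) (p0 p1 p2 p3 : ℕ) : Bool :=
  fz (p0 % (X - 1)) fun a0 => fz (p1 % (X - 1)) fun a1 => fz (p2 % (X - 1)) fun a2 =>
  fz (p3 % (X - 1)) fun a3 =>
    decide (a2 + r0 * E < a0) && decide (a0 < a2 + r1 * E) &&
    decide (a3 + s0 * E < a1) && decide (a1 < a3 + s1 * E)

end Pool.Agent.TH299.PG
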