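import Pool.Agent.TH299.PG.Fam
import Pool.Agent.TH299.PG.KDef

/-! Correctness of the packed computation. -/

open Polynomial

namespace Pool.Agent.TH299.PG

section gen

variable {α R : Type*} [CommRing R] (cost : α → ℕ)

/-- generating polynomial -/
noncomputable def SHp (S : R) (g : α → R) : List α → R[X]
  | [] => 1
  | x :: l => (C S + C (g x) * X ^ cost x) * SHp S g l

theorem sum_shift (f : ℕ → R) (c b : ℕ) :
    ∑ m ∈ Finset.range (b + 1), (if c ≤ m then f (m - c) else 0) =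
      if c ≤ b then ∑ m ∈ Finset.range (b - c + 1), f m else 0 := by
  split_ifs with h
  · have e : b + 1 = c + (b - c + 1) := by omega
    rw [e, Finset.sum_range_add]
    have h1 : ∑ x ∈ Finset.range c, (if c ≤ x then f (x - c) else 0) = 0 := by
      refine Finset.sum_eq_zero fun x hx => ?_
      rw [Finset.mem_range] at hx
      rw [if_neg (by omega)]
    rw [h1, zero_add]
    refine Finset.sum_congr rfl fun x _ => ?_
    rw [if_pos (by omega)]
    congr 1
    omega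
  · refine Finset.sum_eq_zero fun x hx => ?_
    rw [Finset.mem_range] at hx
    rw [if_neg (by omega)]

theorem coeff_sum (S : R) (g : α → R) (l : List α) : ∀ b : ℕ,
    ∑ m ∈ Finset.range (b + 1), (SHp cost S g l).coeff m = SH cost S g l b := by
  induction l with
  | nil =>
    intro b
    simp only [SHp, SH, Polynomial.coeff_one]
    rw [Finset.sum_ite_eq']
    simp
  | cons x l ih =>
    intro b
    simp only [SHp, SH]
    have e : ∀ m, ((C S + C (g x) * X ^ cost x) * SHp cost S g l).coeff m =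
        S * (SHp cost S g l).coeff m +
          (if cost x ≤ m then g x * (SHp cost S g l).coeff (m - cost x) else 0) := by
      intro m
      rw [add_mul, Polynomial.coeff_add, Polynomial.coeff_C_mul, mul_assoc,
        Polynomial.coeff_C_mul, Polynomial.coeff_X_pow_mul']
      congr 1
      split_ifs <;> simp
    simp only [e]
    rw [Finset.sum_add_distrib, ← Finset.mul_sum, ih,
      sum_shift (fun n => g x * (SHp cost S g l).coeff n)]
    congr 1
    split_ifs with h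
    · rw [← Finset.mul_sum, ih]
    · rfl

end gen

/-- four polynomials -/
abbrev Q4 := ℕ[X] × ℕ[X] × ℕ[X] × ℕ[X]

/-- one step -/
noncomputable def stp (S : ℕ) (x : Bin) (p : Q4) : Q4 :=
  (C S * p.1 + X ^ x.co * (C x.gr * p.1 + C x.gq * p.2.2.2),
   C S * p.2.1 + X ^ x.co * (C x.gr * p.2.1 + C x.gq * p.1),
   C S * p.2.2.1 + X ^ x.co * (C x.gr * p.2.2.1 + C x.gq * p.2.1),
   C S * p.2.2.2 + X ^ x.co * (C x.gr * p.2.2.2 + C x.gq * p.2.2.1))

/-- all steps -/
noncomputable def fld (S : ℕ) : List Bin → Q4 → Q4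
  | [], p => p
  | x :: l, p => fld S l (stp S x p)

theorem kron_ok (Xv M S : ℕ) (hM : 0 < M) (k : ℕ → ℕ → ℕ → ℕ → Bool) (l : List Bin) :
    ∀ (p0 p1 p2 p3 : ℕ) (P : Q4), p0 < M → p1 < M → p2 < M → p3 < M →
      p0 ≡ P.1.eval Xv [MOD M] → p1 ≡ P.2.1.eval Xv [MOD M] →
      p2 ≡ P.2.2.1.eval Xv [MOD M] → p3 ≡ P.2.2.2.eval Xv [MOD M] →
      kron Xv M S k l p0 p1 p2 p3 = true →
      ∃ n0 n1 n2 n3 : ℕ, n0 < M ∧ n1 < M ∧ n2 < M ∧ n3 < M ∧
        n0 ≡ (fld S l P).1.eval Xv [MOD M] ∧ n1 ≡ (fld S l P).2.1.eval Xv [MOD M] ∧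
        n2 ≡ (fld S l P).2.2.1.eval Xv [MOD M] ∧ n3 ≡ (fld S l P).2.2.2.eval Xv [MOD M] ∧
        k n0 n1 n2 n3 = true := by
  induction l with
  | nil =>
    intro p0 p1 p2 p3 P h0 h1 h2 h3 e0 e1 e2 e3 hk
    exact ⟨p0, p1, p2, p3, h0, h1, h2, h3, e0, e1, e2, e3, hk⟩
  | cons x l ih =>
    intro p0 p1 p2 p3 P h0 h1 h2 h3 e0 e1 e2 e3 hk
    simp only [kron, fz_eq] at hk
    have key : ∀ (p q : ℕ) (A B : ℕ[X]), p ≡ A.eval Xv [MOD M] → q ≡ B.eval Xv [MOD M] →
        (S * p + Xv ^ x.co * (x.gr * p + x.gq * q)) % M ≡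
          (C S * A + X ^ x.co * (C x.gr * A + C x.gq * B)).eval Xv [MOD M] := by
      intro p q A B hA hB
      refine (Nat.mod_modEq _ _).trans ?_
      simp only [eval_add, eval_mul, eval_C, eval_pow, eval_X]
      exact ((hA.mul_left _)).add ((((hA.mul_left _)).add ((hB.mul_left _))).mul_left _)
    exact ih _ _ _ _ (stp S x P) (Nat.mod_lt _ hM) (Nat.mod_lt _ hM) (Nat.mod_lt _ hM)
      (Nat.mod_lt _ hM) (key _ _ _ _ e0 e3) (key _ _ _ _ e1 e0) (key _ _ _ _ e2 e1)
      (key _ _ _ _ e3 e2) hk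

/-- total value at one -/
noncomputable def tot1 (P : Q4) : ℕ :=
  P.1.eval 1 + P.2.1.eval 1 + P.2.2.1.eval 1 + P.2.2.2.eval 1

theorem tot1_fld (S : ℕ) (l : List Bin) : ∀ P : Q4,
    tot1 (fld S l P) = (l.map (fun x => S + x.gr + x.gq)).prod * tot1 P := by
  induction l with
  | nil => intro P; simp [fld]
  | cons x l ih =>
    intro P
    simp only [fld]
    rw [ih, List.map_cons, List.prod_cons]
    have : tot1 (stp S x P) = (S + x.gr + x.gq) * tot1 P := by
      unfold tot1 stp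
      simp only [eval_add, eval_mul, eval_C, eval_pow, eval_X, one_pow, one_mul]
      ring
    rw [this]
    ring

/-- the complex polynomial -/
noncomputable def toZ (P : Q4) : ℂ[X] :=
  (P.1.map (Nat.castRingHom ℂ)) - C Complex.I * (P.2.1.map (Nat.castRingHom ℂ)) -
    (P.2.2.1.map (Nat.castRingHom ℂ)) + C Complex.I * (P.2.2.2.map (Nat.castRingHom ℂ))

theorem toZ_fld (S : ℕ) (l : List Bin) : ∀ P : Q4,
    toZ (fld S l P) = SHp Bin.co (S : ℂ) (fun x => (x.gr : ℂ) - Complex.I * x.gq) l * toZ P := by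
  induction l with
  | nil => intro P; simp [fld, SHp]
  | cons x l ih =>
    intro P
    simp only [fld, SHp]
    rw [ih]
    have hI : (C Complex.I : ℂ[X]) * C Complex.I = -1 := by
      rw [← C_mul, Complex.I_mul_I]
      simp
    have : toZ (stp S x P) = (C (S : ℂ) + C ((x.gr : ℂ) - Complex.I * x.gq) * X ^ x.co) *
        toZ P := by
      have hC : ∀ n : ℕ, (C n : ℕ[X]).map (Nat.castRingHom ℂ) = C (n : ℂ) := by
        intro n
        rw [Polynomial.map_C]
        rfl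
      unfold toZ stp
      simp only [Polynomial.map_add, Polynomial.map_mul, Polynomial.map_pow, Polynomial.map_X,
        hC, C_sub, C_mul]
      linear_combination (-(X ^ x.co * C (x.gq : ℂ)) *
        (P.2.1.map (Nat.castRingHom ℂ) - P.2.2.2.map (Nat.castRingHom ℂ))) * hI
    rw [this]
    ring

theorem small_digits (s : ℕ → ℕ) (Xv : ℕ) (hs : ∀ m, s m < Xv) (G : ℕ) :
    ∑ m ∈ Finset.range G, s m * Xv ^ m < Xv ^ G := by
  induction G with
  | zero => simp
  | succ n ih =>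
    rw [Finset.sum_range_succ, pow_succ]
    have := hs n
    have h2 : (s n + 1) * Xv ^ n ≤ Xv * Xv ^ n := Nat.mul_le_mul_right _ this
    calc _ < Xv ^ n + s n * Xv ^ n := by omega
      _ = (s n + 1) * Xv ^ n := by ring
      _ ≤ Xv * Xv ^ n := h2
      _ = _ := by ring

theorem extract (P : ℕ[X]) (Xv G N : ℕ) (hX : 2 ≤ Xv) (h1 : P.eval 1 < Xv - 1)
    (hN : N < Xv ^ G) (hmod : N ≡ P.eval Xv [MOD Xv ^ G]) :
    N % (Xv - 1) = ∑ m ∈ Finset.range G, P.coeff m := by
  have hev : ∀ (y n : ℕ), P.natDegree < n → P.eval y = ∑ m ∈ Finset.range n, P.coeff m * y ^ m :=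
    fun y n hn => Polynomial.eval_eq_sum_range' hn y
  have hcoef : ∀ m, P.coeff m ≤ P.eval 1 := by
    intro m
    rw [hev 1 (max (m + 1) (P.natDegree + 1)) (by omega)]
    simp only [one_pow, mul_one]
    exact Finset.single_le_sum (f := fun m => P.coeff m) (fun i _ => Nat.zero_le _)
      (Finset.mem_range.mpr (by omega))
  have hpart : ∑ m ∈ Finset.range G, P.coeff m ≤ P.eval 1 := by
    rw [hev 1 (max G (P.natDegree + 1)) (by omega)]
    simp only [one_pow, mul_one]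
    exact Finset.sum_le_sum_of_subset (Finset.range_mono (by omega))
  have hA : P.eval Xv ≡ ∑ m ∈ Finset.range G, P.coeff m * Xv ^ m [MOD Xv ^ G] := by
    rw [hev Xv (G + (P.natDegree + 1)) (by omega), Finset.sum_range_add]
    have h2 : ∑ x ∈ Finset.range (P.natDegree + 1), P.coeff (G + x) * Xv ^ (G + x) ≡ 0
        [MOD Xv ^ G] := by
      rw [Nat.modEq_zero_iff_dvd]
      refine Finset.dvd_sum fun x _ => ?_
      rw [pow_add]
      exact Dvd.dvd.mul_left (Dvd.intro _ rfl) _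
    exact (Nat.ModEq.refl _).add h2
  have hlt := small_digits (fun m => P.coeff m) Xv (fun m => by have := hcoef m; omega) G
  have hNA : N = ∑ m ∈ Finset.range G, P.coeff m * Xv ^ m :=
    Nat.ModEq.eq_of_lt_of_lt (hmod.trans hA) hN hlt
  have hX1 : Xv ≡ 1 [MOD Xv - 1] := by
    have : Xv = (Xv - 1) + 1 := by omega
    conv_lhs => rw [this]
    exact Nat.add_modEq_left
  have hmod2 : ∑ m ∈ Finset.range G, P.coeff m * Xv ^ m ≡ ∑ m ∈ Finset.range G, P.coeff m
      [MOD Xv - 1] := by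
    have : ∀ n, ∑ m ∈ Finset.range n, P.coeff m * Xv ^ m ≡ ∑ m ∈ Finset.range n, P.coeff m
      [MOD Xv - 1] := by
      intro n
      induction n with
      | zero => rfl
      | succ n ih =>
        rw [Finset.sum_range_succ, Finset.sum_range_succ]
        refine ih.add ?_
        have := (hX1.pow n).mul_left (P.coeff n)
        rwa [one_pow, mul_one] at this
    exact this G
  rw [hNA, hmod2]
  exact Nat.mod_eq_of_lt (by omega)

/-- the result of the computation -/
theorem kron_final (Xv G S E r0 r1 s0 s1 : ℕ) (l : List Bin) (hX : 2 ≤ Xv) (hG : 1 ≤ G)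
    (hb : (l.map (fun x => S + x.gr + x.gq)).prod < Xv - 1)
    (hk : kron Xv (Xv ^ G) S (test Xv E r0 r1 s0 s1) l 1 0 0 0 = true) :
    ((r0 * E : ℕ) : ℝ) < (SH Bin.co (S : ℂ) (fun x => (x.gr : ℂ) - Complex.I * x.gq) l (G - 1)).re ∧
    (SH Bin.co (S : ℂ) (fun x => (x.gr : ℂ) - Complex.I * x.gq) l (G - 1)).re < ((r1 * E : ℕ) : ℝ) ∧
    ((s0 * E : ℕ) : ℝ) < -(SH Bin.co (S : ℂ) (fun x => (x.gr : ℂ) - Complex.I * x.gq) l (G - 1)).im ∧
    -(SH Bin.co (S : ℂ) (fun x => (x.gr : ℂ) - Complex.I * x.gq) l (G - 1)).im <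
      ((s1 * E : ℕ) : ℝ) := by
  have hM : 1 < Xv ^ G := Nat.one_lt_pow (by omega) (by omega)
  obtain ⟨n0, n1, n2, n3, h0, h1, h2, h3, e0, e1, e2, e3, hk⟩ :=
    kron_ok Xv (Xv ^ G) S (by omega) _ l 1 0 0 0 (1, 0, 0, 0) hM (by omega) (by omega) (by omega)
      (by simp; rfl) (by simp; rfl) (by simp; rfl) (by simp; rfl) hk
  set F := fld S l (1, 0, 0, 0) with hF
  have ht := tot1_fld S l (1, 0, 0, 0)
  rw [← hF] at ht
  have ht1 : tot1 ((1, 0, 0, 0) : Q4) = 1 := by
    unfold tot1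
    simp
  rw [ht1, mul_one] at ht
  have hb0 : F.1.eval 1 < Xv - 1 := by unfold tot1 at ht; omega
  have hb1 : F.2.1.eval 1 < Xv - 1 := by unfold tot1 at ht; omega
  have hb2 : F.2.2.1.eval 1 < Xv - 1 := by unfold tot1 at ht; omega
  have hb3 : F.2.2.2.eval 1 < Xv - 1 := by unfold tot1 at ht; omega
  simp only [test, fz_eq, Bool.and_eq_true, decide_eq_true_eq] at hk
  rw [extract F.1 Xv G n0 hX hb0 h0 e0, extract F.2.1 Xv G n1 hX hb1 h1 e1,
    extract F.2.2.1 Xv G n2 hX hb2 h2 e2, extract F.2.2.2 Xv G n3 hX hb3 h3 e3] at hk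
  obtain ⟨⟨⟨k0, k1⟩, k2⟩, k3⟩ := hk
  have hz := toZ_fld S l (1, 0, 0, 0)
  rw [← hF] at hz
  have hz1 : toZ ((1, 0, 0, 0) : Q4) = 1 := by
    unfold toZ
    simp
  rw [hz1, mul_one] at hz
  have hsum := coeff_sum Bin.co (S : ℂ) (fun x => (x.gr : ℂ) - Complex.I * x.gq) l (G - 1)
  rw [← hz, show G - 1 + 1 = G by omega] at hsum
  set a0 := ∑ m ∈ Finset.range G, F.1.coeff m with ha0
  set a1 := ∑ m ∈ Finset.range G, F.2.1.coeff m with ha1
  set a2 := ∑ m ∈ Finset.range G, F.2.2.1.coeff m with ha2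
  set a3 := ∑ m ∈ Finset.range G, F.2.2.2.coeff m with ha3
  have hval : ∑ m ∈ Finset.range G, (toZ F).coeff m =
      (a0 : ℂ) - Complex.I * a1 - a2 + Complex.I * a3 := by
    have : ∀ m, (toZ F).coeff m = (F.1.coeff m : ℂ) - Complex.I * (F.2.1.coeff m : ℂ) -
        (F.2.2.1.coeff m : ℂ) + Complex.I * (F.2.2.2.coeff m : ℂ) := by
      intro m
      unfold toZ
      simp [Polynomial.coeff_map]
    simp only [this]
    rw [Finset.sum_add_distrib, Finset.sum_sub_distrib, Finset.sum_sub_distrib,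
      ← Finset.mul_sum, ← Finset.mul_sum, ha0, ha1, ha2, ha3]
    push_cast
    ring
  rw [← hsum, hval]
  have hre : ((a0 : ℂ) - Complex.I * a1 - a2 + Complex.I * a3).re = (a0 : ℝ) - a2 := by simp
  have him : ((a0 : ℂ) - Complex.I * a1 - a2 + Complex.I * a3).im = -(a1 : ℝ) + a3 := by simp
  rw [hre, him]
  have q0 : ((a2 + r0 * E : ℕ) : ℝ) < (a0 : ℝ) := by exact_mod_cast k0
  have q1 : (a0 : ℝ) < ((a2 + r1 * E : ℕ) : ℝ) := by exact_mod_cast k1
  have q2 : ((a3 + s0 * E : ℕ) : ℝ) < (a1 : ℝ) := by exact_mod_cast k2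
  have q3 : (a1 : ℝ) < ((a3 + s1 * E : ℕ) : ℝ) := by exact_mod_cast k3
  push_cast at q0 q1 q2 q3 ⊢
  refine ⟨by linarith, by linarith, by linarith, by linarith⟩

end Pool.Agent.TH299.PG
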