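import Pool.Agent.H382P.Mert

/-! Sums over the primes of a bin. -/

open Complex Filter Topology Set MeasureTheory

namespace Pool.Agent.TH299.PG

open SP.MertAux

/-- the primes in `(T^a, T^b]` -/
noncomputable def QT (a b T : ℝ) : Finset ℕ :=
  (Finset.Ioc ⌊T ^ a⌋₊ ⌊T ^ b⌋₊).filter Nat.Prime

theorem mem_QT {a b T : ℝ} (hT : 0 < T) {p : ℕ} :
    p ∈ QT a b T ↔ p.Prime ∧ T ^ a < p ∧ (p : ℝ) ≤ T ^ b := by
  unfold QT
  rw [Finset.mem_filter, Finset.mem_Ioc, Nat.floor_lt (Real.rpow_nonneg hT.le _),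
    Nat.le_floor_iff (Real.rpow_nonneg hT.le _)]
  tauto

theorem prim_sum (H : ℝ → ℂ) (K : NNReal) (hH : LipschitzWith K H) (M : ℝ) (hM0 : 0 ≤ M)
    (hM : ∀ u, ‖H u‖ ≤ M) :
    ∃ C : ℝ, 0 ≤ C ∧ ∀ (L : ℝ) (N : ℕ), 1 ≤ L → 1 ≤ N → Real.log N ≤ L →
    ‖(∑ p ∈ (Finset.Icc 1 N).filter Nat.Prime, ((Real.log p / p / L : ℝ) : ℂ) *
      H (Real.log p / L)) - ∫ u in (0 : ℝ)..(Real.log N / L), H u‖ ≤ C / L := by
  obtain ⟨C0, hC0⟩ := Pool.Agent.Helper923.HMertens.mertens_log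
  have hC00 : 0 ≤ C0 := (abs_nonneg _).trans (hC0 1 le_rfl)
  refine ⟨C0 * (M + K) + K * Real.log 2, by positivity, fun L N hL hN1 hNL => ?_⟩
  have hL0 : 0 < L := by linarith
  have hN1' : (1 : ℝ) ≤ N := by exact_mod_cast hN1
  have hlogN0 : 0 ≤ Real.log N := Real.log_nonneg hN1'
  have hlip : ∀ u v : ℝ, ‖H u - H v‖ ≤ K * |u - v| := by
    intro u v
    have := hH.dist_le_mul u v
    rwa [dist_eq_norm, Real.dist_eq] at this
  set a : ℕ → ℝ := fun n => if n.Prime then Real.log n / n else 0 with ha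
  have hsa : ∀ n, ∑ i ∈ Finset.Icc 1 n, a i =
      ∑ p ∈ (Finset.Icc 1 n).filter Nat.Prime, Real.log p / p := by
    intro n
    rw [Finset.sum_filter]
  have f1 := abel_bound (fun n => a n - bb n) (fun n => H (Real.log n / L)) C0 (by
    intro n hn
    rw [Finset.sum_sub_distrib, hsa, sum_bb n hn]
    exact hC0 n hn) N hN1
  have f2 : ‖H (Real.log N / L)‖ + ∑ n ∈ Finset.Ico 1 N,
      ‖H (Real.log (n + 1 : ℕ) / L) - H (Real.log n / L)‖ ≤ M + K := by
    have g1 : ∑ n ∈ Finset.Ico 1 N, ‖H (Real.log (n + 1 : ℕ) / L) - H (Real.log n / L)‖ ≤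
        ∑ n ∈ Finset.Ico 1 N, K / L * (Real.log (n + 1 : ℕ) - Real.log n) := by
      refine Finset.sum_le_sum fun n hn => ?_
      have hn1 := (Finset.mem_Ico.mp hn).1
      refine (hlip _ _).trans ?_
      rw [← sub_div, abs_div, abs_of_pos hL0, abs_of_nonneg (log_succ_sub n hn1).1]
      apply le_of_eq
      ring
    have g2 : ∑ n ∈ Finset.Ico 1 N, (K / L * (Real.log (n + 1 : ℕ) - Real.log n)) =
        K / L * (Real.log N - Real.log (1:ℕ)) := by
      rw [← Finset.mul_sum, Finset.sum_Ico_sub (fun n : ℕ => Real.log n) hN1]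
    have g3 : K / L * (Real.log N - Real.log (1:ℕ)) ≤ K := by
      rw [Nat.cast_one, Real.log_one, sub_zero, div_mul_eq_mul_div, div_le_iff₀ hL0]
      gcongr
    have g4 := hM (Real.log N / L)
    linarith
  have f3 : ‖∑ n ∈ Finset.Icc 1 N, ((a n - bb n : ℝ) : ℂ) * H (Real.log n / L)‖ ≤
      C0 * (M + K) := f1.trans (mul_le_mul_of_nonneg_left f2 hC00)
  have f4 := riemann H K hH L hL0 N hN1
  have f6 : (L : ℂ) * ∫ u in (0 : ℝ)..(Real.log N / L), H u =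
      ∫ v in (0:ℝ)..Real.log N, H (v / L) := by
    rw [intervalIntegral.integral_comp_div _ hL0.ne', zero_div, Complex.real_smul]
  have f7 : ∑ p ∈ (Finset.Icc 1 N).filter Nat.Prime,
      ((Real.log p / p : ℝ) : ℂ) * H (Real.log p / L) =
      ∑ n ∈ Finset.Icc 1 N, ((a n - bb n : ℝ) : ℂ) * H (Real.log n / L) +
      ∑ n ∈ Finset.Icc 1 N, (bb n : ℂ) * H (Real.log n / L) := by
    rw [← Finset.sum_add_distrib, Finset.sum_filter]
    refine Finset.sum_congr rfl fun n _ => ?_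
    simp only [ha]
    split_ifs <;> · push_cast; ring
  have f8 : ‖(∑ p ∈ (Finset.Icc 1 N).filter Nat.Prime,
      ((Real.log p / p : ℝ) : ℂ) * H (Real.log p / L)) -
        (L : ℂ) * ∫ u in (0 : ℝ)..(Real.log N / L), H u‖ ≤
      C0 * (M + K) + K * Real.log 2 := by
    rw [f7, f6]
    have hr : K * Real.log 2 * Real.log N / L ≤ K * Real.log 2 := by
      rw [div_le_iff₀ hL0]
      gcongr
    calc _ = ‖(∑ n ∈ Finset.Icc 1 N, ((a n - bb n : ℝ) : ℂ) * H (Real.log n / L)) +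
          ((∑ n ∈ Finset.Icc 1 N, (bb n : ℂ) * H (Real.log n / L)) -
            ∫ v in (0:ℝ)..Real.log N, H (v / L))‖ := by
          congr 1
          ring
      _ ≤ ‖∑ n ∈ Finset.Icc 1 N, ((a n - bb n : ℝ) : ℂ) * H (Real.log n / L)‖ +
          ‖(∑ n ∈ Finset.Icc 1 N, (bb n : ℂ) * H (Real.log n / L)) -
            ∫ v in (0:ℝ)..Real.log N, H (v / L)‖ := norm_add_le _ _
      _ ≤ _ := by linarith
  have hLc : (L : ℂ) ≠ 0 := by exact_mod_cast hL0.ne'
  have f9 : (∑ p ∈ (Finset.Icc 1 N).filter Nat.Prime,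
      ((Real.log p / p / L : ℝ) : ℂ) * H (Real.log p / L)) -
        ∫ u in (0 : ℝ)..(Real.log N / L), H u =
      ((1 / L : ℝ) : ℂ) * ((∑ p ∈ (Finset.Icc 1 N).filter Nat.Prime,
      ((Real.log p / p : ℝ) : ℂ) * H (Real.log p / L)) -
        (L : ℂ) * ∫ u in (0 : ℝ)..(Real.log N / L), H u) := by
    rw [mul_sub, ← mul_assoc, Finset.mul_sum]
    have : ((1 / L : ℝ) : ℂ) * (L : ℂ) = 1 := by
      push_cast
      field_simp
    rw [this, one_mul]
    congr 1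
    refine Finset.sum_congr rfl fun p _ => ?_
    push_cast
    ring
  rw [f9, norm_mul, Complex.norm_real, Real.norm_eq_abs, abs_of_pos (by positivity)]
  rw [one_div, inv_mul_eq_div]
  gcongr

theorem floor_log {T a : ℝ} (hT : 1 ≤ T) (ha : 0 ≤ a) :
    1 ≤ ⌊T ^ a⌋₊ ∧ Real.log ⌊T ^ a⌋₊ ≤ a * Real.log T ∧
      a * Real.log T - Real.log 2 ≤ Real.log ⌊T ^ a⌋₊ := by
  have hT0 : 0 < T := by linarith
  have h1 : 1 ≤ T ^ a := Real.one_le_rpow hT ha
  have h2 : 1 ≤ ⌊T ^ a⌋₊ := Nat.le_floor (by simpa using h1)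
  have h2' : (1 : ℝ) ≤ ⌊T ^ a⌋₊ := by exact_mod_cast h2
  have h3 : (⌊T ^ a⌋₊ : ℝ) ≤ T ^ a := Nat.floor_le (by linarith)
  have h4 : T ^ a < ⌊T ^ a⌋₊ + 1 := Nat.lt_floor_add_one _
  refine ⟨h2, ?_, ?_⟩
  · rw [← Real.log_rpow hT0]
    exact Real.log_le_log (by linarith) h3
  · rw [← Real.log_rpow hT0, ← Real.log_div (by linarith) (by norm_num)]
    apply Real.log_le_log (by linarith)
    linarith

theorem prim_bin (H : ℝ → ℂ) (K : NNReal) (hH : LipschitzWith K H) (M : ℝ) (hM0 : 0 ≤ M)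
    (hM : ∀ u, ‖H u‖ ≤ M) (a b : ℝ) (ha : 0 ≤ a) (hab : a ≤ b) (hb : b ≤ 1) :
    ∃ C : ℝ, 0 ≤ C ∧ ∀ T : ℝ, Real.exp 1 ≤ T →
    ‖(∑ p ∈ QT a b T, ((Real.log p / p / Real.log T : ℝ) : ℂ) *
      H (Real.log p / Real.log T)) - ∫ u in a..b, H u‖ ≤ C / Real.log T := by
  obtain ⟨C, hC, h⟩ := prim_sum H K hH M hM0 hM
  refine ⟨2 * C + 2 * (M * Real.log 2), by positivity, fun T hT => ?_⟩
  have hT0 : 0 < T := (Real.exp_pos 1).trans_le hT
  have hT1 : 1 ≤ T := by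
    have := Real.add_one_le_exp (1 : ℝ)
    linarith
  set L := Real.log T with hL
  have hL1 : 1 ≤ L := by
    rw [hL, Real.le_log_iff_exp_le hT0]
    exact hT
  have hL0 : 0 < L := by linarith
  obtain ⟨a1, a2, a3⟩ := floor_log hT1 ha
  obtain ⟨b1, b2, b3⟩ := floor_log hT1 (ha.trans hab)
  have hfl : ⌊T ^ a⌋₊ ≤ ⌊T ^ b⌋₊ :=
    Nat.floor_le_floor (Real.rpow_le_rpow_of_exponent_le hT1 hab)
  have hA := h L ⌊T ^ a⌋₊ hL1 a1 (by nlinarith)
  have hB := h L ⌊T ^ b⌋₊ hL1 b1 (by nlinarith)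
  have hc : Continuous H := hH.continuous
  have hii : ∀ a b : ℝ, IntervalIntegrable H volume a b := fun a b => hc.intervalIntegrable a b
  have hsplit : ∑ p ∈ (Finset.Icc 1 ⌊T ^ b⌋₊).filter Nat.Prime,
      ((Real.log p / p / L : ℝ) : ℂ) * H (Real.log p / L) =
      ∑ p ∈ (Finset.Icc 1 ⌊T ^ a⌋₊).filter Nat.Prime,
      ((Real.log p / p / L : ℝ) : ℂ) * H (Real.log p / L) +
      ∑ p ∈ QT a b T, ((Real.log p / p / L : ℝ) : ℂ) * H (Real.log p / L) := by
    unfold QT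
    rw [← Finset.sum_union]
    · apply Finset.sum_congr _ fun _ _ => rfl
      ext p
      simp only [Finset.mem_union, Finset.mem_filter, Finset.mem_Icc, Finset.mem_Ioc]
      constructor
      · rintro ⟨⟨h1, h2⟩, h3⟩
        rcases le_or_gt p ⌊T ^ a⌋₊ with h4 | h4
        · left; exact ⟨⟨h1, h4⟩, h3⟩
        · right; exact ⟨⟨h4, h2⟩, h3⟩
      · rintro (⟨⟨h1, h2⟩, h3⟩ | ⟨⟨h1, h2⟩, h3⟩)
        · exact ⟨⟨h1, h2.trans hfl⟩, h3⟩
        · exact ⟨⟨by omega, h2⟩, h3⟩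
    · rw [Finset.disjoint_left]
      intro p h1 h2
      simp only [Finset.mem_filter, Finset.mem_Icc, Finset.mem_Ioc] at h1 h2
      omega
  set SA := ∑ p ∈ (Finset.Icc 1 ⌊T ^ a⌋₊).filter Nat.Prime,
      ((Real.log p / p / L : ℝ) : ℂ) * H (Real.log p / L) with hSA
  set SB := ∑ p ∈ (Finset.Icc 1 ⌊T ^ b⌋₊).filter Nat.Prime,
      ((Real.log p / p / L : ℝ) : ℂ) * H (Real.log p / L) with hSB
  set SQ := ∑ p ∈ QT a b T, ((Real.log p / p / L : ℝ) : ℂ) * H (Real.log p / L) with hSQ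
  set xa := Real.log ⌊T ^ a⌋₊ / L with hxa
  set xb := Real.log ⌊T ^ b⌋₊ / L with hxb
  have hnear : ∀ (u v : ℝ), |u - v| ≤ Real.log 2 / L → ‖∫ t in u..v, H t‖ ≤ M * Real.log 2 / L := by
    intro u v huv
    have := intervalIntegral.norm_integral_le_of_norm_le_const (a := u) (b := v) (C := M)
      (f := H) (fun x _ => hM x)
    refine this.trans ?_
    rw [mul_div_assoc]
    apply mul_le_mul_of_nonneg_left _ hM0
    rwa [abs_sub_comm]
  have ea : |a - xa| ≤ Real.log 2 / L := by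
    rw [hxa, abs_of_nonneg, sub_le_iff_le_add, ← add_div, le_div_iff₀ hL0]
    · linarith
    · rw [sub_nonneg, div_le_iff₀ hL0]
      exact a2
  have eb : |xb - b| ≤ Real.log 2 / L := by
    rw [hxb, abs_sub_comm, abs_of_nonneg, sub_le_iff_le_add, ← add_div, le_div_iff₀ hL0]
    · linarith
    · rw [sub_nonneg, div_le_iff₀ hL0]
      exact b2
  have e1 : ∫ u in a..b, H u = (∫ u in a..xa, H u) + ((∫ u in (0:ℝ)..xb, H u) -
      ∫ u in (0:ℝ)..xa, H u) + ∫ u in xb..b, H u := by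
    have h1 := intervalIntegral.integral_interval_sub_left (hii 0 xb) (hii 0 xa)
    rw [h1, intervalIntegral.integral_add_adjacent_intervals (hii _ _) (hii _ _),
      intervalIntegral.integral_add_adjacent_intervals (hii _ _) (hii _ _)]
  have e2 : SQ - ∫ u in a..b, H u = (SB - ∫ u in (0:ℝ)..xb, H u) -
      (SA - ∫ u in (0:ℝ)..xa, H u) - (∫ u in a..xa, H u) - ∫ u in xb..b, H u := by
    rw [e1, hsplit]
    ring
  rw [e2]
  have n1 := hnear a xa ea
  have n2 := hnear xb b eb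
  calc _ ≤ ‖SB - ∫ u in (0:ℝ)..xb, H u‖ + ‖SA - ∫ u in (0:ℝ)..xa, H u‖ +
        ‖∫ u in a..xa, H u‖ + ‖∫ u in xb..b, H u‖ := by
        refine (norm_sub_le _ _).trans (add_le_add ?_ le_rfl)
        refine (norm_sub_le _ _).trans (add_le_add ?_ le_rfl)
        exact norm_sub_le _ _
    _ ≤ C / L + C / L + M * Real.log 2 / L + M * Real.log 2 / L := by
        linarith
    _ = _ := by ring

/-- the kernel `(A0 + A1 e^{-iωu}) / u`, cut at `a` -/
noncomputable def HK (A0 A1 ω a : ℝ) (u : ℝ) : ℂ :=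
  ((A0 : ℂ) + A1 * cexp (-(I * ((ω * max u a : ℝ) : ℂ)))) / ((max u a : ℝ) : ℂ)

theorem exp_lip (x y : ℝ) : ‖cexp (-(I * (x : ℂ))) - cexp (-(I * (y : ℂ)))‖ ≤ |x - y| := by
  have e : cexp (-(I * (x : ℂ))) - cexp (-(I * (y : ℂ))) =
      cexp (-(I * (x : ℂ))) * (1 - cexp (I * ((x - y : ℝ) : ℂ))) := by
    rw [mul_sub, mul_one, ← Complex.exp_add]
    congr 2
    push_cast
    ring
  rw [e, norm_mul, Complex.norm_exp]
  have e4 : (-(I * (x : ℂ))).re = 0 := by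
    rw [Complex.neg_re, Complex.mul_re, Complex.I_re, Complex.I_im, Complex.ofReal_im]
    ring
  rw [e4, Real.exp_zero, one_mul, norm_sub_rev]
  refine (Real.norm_exp_I_mul_ofReal_sub_one_le).trans ?_
  rw [Real.norm_eq_abs]

theorem norm_expI (x : ℝ) : ‖cexp (-(I * (x : ℂ)))‖ = 1 := by
  rw [Complex.norm_exp]
  have e4 : (-(I * (x : ℂ))).re = 0 := by
    rw [Complex.neg_re, Complex.mul_re, Complex.I_re, Complex.I_im, Complex.ofReal_im]
    ring
  rw [e4, Real.exp_zero]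

theorem HK_bound (A0 A1 ω a : ℝ) (ha : 0 < a) (u : ℝ) :
    ‖HK A0 A1 ω a u‖ ≤ (|A0| + |A1|) / a := by
  unfold HK
  have h1 : a ≤ max u a := le_max_right _ _
  have h0 : 0 < max u a := lt_of_lt_of_le ha h1
  rw [norm_div, Complex.norm_real, Real.norm_of_nonneg h0.le]
  have h2 : ‖(A0 : ℂ) + A1 * cexp (-(I * ((ω * max u a : ℝ) : ℂ)))‖ ≤ |A0| + |A1| := by
    refine (norm_add_le _ _).trans ?_
    rw [norm_mul, norm_expI, mul_one, Complex.norm_real, Complex.norm_real, Real.norm_eq_abs,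
      Real.norm_eq_abs]
  exact div_le_div₀ (by positivity) h2 ha h1

theorem HK_lip (A0 A1 ω a : ℝ) (ha : 0 < a) :
    LipschitzWith (Real.toNNReal ((|A1| * |ω|) / a + (|A0| + |A1|) / a ^ 2)) (HK A0 A1 ω a) := by
  apply LipschitzWith.of_dist_le_mul
  intro u v
  rw [dist_eq_norm, Real.dist_eq, Real.coe_toNNReal _ (by positivity)]
  unfold HK
  set x := max u a with hx
  set y := max v a with hy
  have hxa : a ≤ x := le_max_right _ _
  have hya : a ≤ y := le_max_right _ _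
  have hx0 : 0 < x := lt_of_lt_of_le ha hxa
  have hy0 : 0 < y := lt_of_lt_of_le ha hya
  have hxy : |x - y| ≤ |u - v| := abs_max_sub_max_le_abs u v a
  have hxc : (x : ℂ) ≠ 0 := by exact_mod_cast hx0.ne'
  have hyc : (y : ℂ) ≠ 0 := by exact_mod_cast hy0.ne'
  set ex := cexp (-(I * ((ω * x : ℝ) : ℂ))) with hex
  set ey := cexp (-(I * ((ω * y : ℝ) : ℂ))) with hey
  have e : ((A0 : ℂ) + A1 * ex) / x - ((A0 : ℂ) + A1 * ey) / y =
      A1 * (ex - ey) / x + ((A0 : ℂ) + A1 * ey) * ((y - x : ℝ) : ℂ) / ((x * y : ℝ) : ℂ) := by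
    push_cast
    field_simp
    ring
  rw [e]
  have h1 : ‖(A1 : ℂ) * (ex - ey) / x‖ ≤ (|A1| * |ω|) / a * |u - v| := by
    rw [norm_div, norm_mul, Complex.norm_real, Complex.norm_real, Real.norm_of_nonneg hx0.le,
      Real.norm_eq_abs]
    have h2 := exp_lip (ω * x) (ω * y)
    rw [← mul_sub, abs_mul] at h2
    rw [div_mul_eq_mul_div]
    apply div_le_div₀ (by positivity) _ ha hxa
    rw [mul_assoc]
    apply mul_le_mul_of_nonneg_left _ (abs_nonneg _)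
    exact h2.trans (mul_le_mul_of_nonneg_left hxy (abs_nonneg _))
  have h3 : ‖((A0 : ℂ) + A1 * ey) * ((y - x : ℝ) : ℂ) / ((x * y : ℝ) : ℂ)‖ ≤
      (|A0| + |A1|) / a ^ 2 * |u - v| := by
    have hxy0 : 0 < x * y := by positivity
    rw [norm_div, norm_mul, Complex.norm_real, Complex.norm_real, Real.norm_of_nonneg hxy0.le,
      Real.norm_eq_abs, div_mul_eq_mul_div]
    apply div_le_div₀ (by positivity) _ (by positivity) (by nlinarith)
    apply mul_le_mul _ (by rw [abs_sub_comm]; exact hxy) (abs_nonneg _) (by positivity)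
    refine (norm_add_le _ _).trans ?_
    rw [norm_mul, hey, norm_expI, mul_one, Complex.norm_real, Complex.norm_real, Real.norm_eq_abs,
      Real.norm_eq_abs]
  refine (norm_add_le _ _).trans ?_
  exact (add_le_add h1 h3).trans (le_of_eq (add_mul _ _ _).symm)

/-- the limit of the contribution of a bin -/
noncomputable def glim (χ ω a b : ℝ) : ℂ :=
  ∫ u in a..b, (((χ * (χ - 1) : ℝ) : ℂ) + (χ : ℂ) * cexp (-(I * ((ω * u : ℝ) : ℂ)))) / (u : ℂ)

theorem bin_lim (χ ω a b : ℝ) (ha : 0 < a) (hab : a ≤ b) (hb : b ≤ 1) :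
    ∃ C : ℝ, 0 ≤ C ∧ ∀ T : ℝ, Real.exp 1 ≤ T →
    ‖(∑ p ∈ QT a b T, ((χ : ℂ) / p) * ((χ : ℂ) - 1 +
      cexp (-(I * ((ω * (Real.log p / Real.log T) : ℝ) : ℂ))))) - glim χ ω a b‖ ≤
      C / Real.log T := by
  obtain ⟨C, hC, h⟩ := prim_bin (HK (χ * (χ - 1)) χ ω a) _ (HK_lip _ _ _ _ ha)
    ((|χ * (χ - 1)| + |χ|) / a) (by positivity) (HK_bound _ _ _ _ ha) a b ha.le hab hb
  refine ⟨C, hC, fun T hT => ?_⟩
  have hT0 : 0 < T := (Real.exp_pos 1).trans_le hT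
  have hL1 : 1 ≤ Real.log T := by
    rw [Real.le_log_iff_exp_le hT0]
    exact hT
  have h1 := h T hT
  have e1 : ∑ p ∈ QT a b T, ((Real.log p / p / Real.log T : ℝ) : ℂ) *
      HK (χ * (χ - 1)) χ ω a (Real.log p / Real.log T) =
      ∑ p ∈ QT a b T, ((χ : ℂ) / p) * ((χ : ℂ) - 1 +
      cexp (-(I * ((ω * (Real.log p / Real.log T) : ℝ) : ℂ)))) := by
    refine Finset.sum_congr rfl fun p hp => ?_
    obtain ⟨h2, h3, _⟩ := (mem_QT hT0).mp hp
    have hp0 : (0 : ℝ) < p := by exact_mod_cast h2.pos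
    have hlog : a * Real.log T ≤ Real.log p := by
      rw [← Real.log_rpow hT0]
      exact Real.log_le_log (Real.rpow_pos_of_pos hT0 _) h3.le
    have hmax : max (Real.log p / Real.log T) a = Real.log p / Real.log T := by
      apply max_eq_left
      rw [le_div_iff₀ (by linarith)]
      exact hlog
    have hlp : 0 < Real.log p := by nlinarith
    unfold HK
    rw [hmax]
    have c1 : (p : ℂ) ≠ 0 := by exact_mod_cast hp0.ne'
    have key : ∀ (y L : ℝ) (E : ℂ), 0 < y → 0 < L → ((y / p / L : ℝ) : ℂ) *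
        ((((χ * (χ - 1) : ℝ) : ℂ) + χ * E) / ((y / L : ℝ) : ℂ)) =
        ((χ : ℂ) / p) * ((χ : ℂ) - 1 + E) := by
      intro y L E hy hL
      have c2 : (L : ℂ) ≠ 0 := by exact_mod_cast hL.ne'
      have c3 : (y : ℂ) ≠ 0 := by exact_mod_cast hy.ne'
      push_cast
      field_simp
    exact key _ _ _ hlp (by linarith)
  have e2 : ∫ u in a..b, HK (χ * (χ - 1)) χ ω a u = glim χ ω a b := by
    unfold glim
    apply intervalIntegral.integral_congr
    intro u hu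
    rw [uIcc_of_le hab] at hu
    unfold HK
    simp only [max_eq_left hu.1]
  rw [e1, e2] at h1
  exact h1

end Pool.Agent.TH299.PG
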