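import Pool.Agent.TH299.PG.Tab
import Pool.Agent.TH299.PG.Prim

/-! Numerical values of the contributions of the bins. -/

open Complex Filter Topology Set MeasureTheory

namespace Pool.Agent.TH299.PG

/-- sum over a range -/
def sumTo (f : ℕ → ℚ) : ℕ → ℚ
  | 0 => 0
  | n + 1 => sumTo f n + f n

theorem sumTo_eq (f : ℕ → ℚ) (n : ℕ) : sumTo f n = ∑ i ∈ Finset.range n, f i := by
  induction n with
  | zero => rfl
  | succ n ih => rw [sumTo, ih, Finset.sum_range_succ]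

/-- even part -/
def ER (w a b : ℚ) : ℚ :=
  sumTo (fun j => (-1) ^ (j + 1) * (((w * b) ^ (2 * j + 2) - (w * a) ^ (2 * j + 2)) /
    (((2 * j + 2) * (2 * j + 2).factorial : ℕ) : ℚ))) 6

/-- odd part -/
def EI (w a b : ℚ) : ℚ :=
  sumTo (fun j => (-1) ^ j * (((w * b) ^ (2 * j + 1) - (w * a) ^ (2 * j + 1)) /
    (((2 * j + 1) * (2 * j + 1).factorial : ℕ) : ℚ))) 7

/-- logarithm -/
def LR (x : ℚ) : ℚ := sumTo (fun i => x ^ (i + 1) / ((i + 1 : ℕ) : ℚ)) 7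

/-- check of one bin -/
def chk (x : Bin) : Bool :=
  decide (|((x.χ : ℚ) / 100) ^ 2 * LR (((x.b : ℚ) - x.a) / x.b) +
    ((x.χ : ℚ) / 100) * ER (3534 / 1000) ((x.a : ℚ) / 100000) ((x.b : ℚ) / 100000) -
      (x.gr : ℚ) / 1000000| ≤ 6 / 10000000) &&
  decide (|((x.χ : ℚ) / 100) * EI (3534 / 1000) ((x.a : ℚ) / 100000) ((x.b : ℚ) / 100000) -
      (x.gq : ℚ) / 1000000| ≤ 6 / 10000000)

theorem chk_all : bins.all chk = true := by
  decide +kernel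

/-- the primitive -/
noncomputable def Fp (χ ω u : ℝ) : ℂ :=
  ((χ ^ 2 * Real.log u : ℝ) : ℂ) + (χ : ℂ) * ∑ m ∈ Finset.range 13,
    (-(I * ((ω * u : ℝ) : ℂ))) ^ (m + 1) / (((m + 1) * (m + 1).factorial : ℕ) : ℂ)

theorem Fp_deriv (χ ω u : ℝ) (hu : 0 < u) : HasDerivAt (Fp χ ω)
    ((((χ * (χ - 1) : ℝ) : ℂ) + (χ : ℂ) * ∑ m ∈ Finset.range 14,
      (-(I * ((ω * u : ℝ) : ℂ))) ^ m / (m.factorial : ℂ)) / (u : ℂ)) u := by
  have huc : (u : ℂ) ≠ 0 := by exact_mod_cast hu.ne'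
  have h1 : HasDerivAt (fun u : ℝ => ((χ ^ 2 * Real.log u : ℝ) : ℂ)) (((χ ^ 2 * u⁻¹ : ℝ) : ℂ)) u :=
    ((Real.hasDerivAt_log hu.ne').const_mul (χ ^ 2)).ofReal_comp
  have h2 : HasDerivAt (fun u : ℝ => (-(I * ((ω * u : ℝ) : ℂ)))) (-(I * (ω : ℂ))) u := by
    have : HasDerivAt (fun u : ℝ => ((ω * u : ℝ) : ℂ)) (((ω * 1 : ℝ) : ℂ)) u :=
      ((hasDerivAt_id u).const_mul ω).ofReal_comp
    rw [mul_one] at this
    exact (this.const_mul I).neg
  have h3 : ∀ m ∈ Finset.range 13, HasDerivAt (fun u : ℝ =>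
      (-(I * ((ω * u : ℝ) : ℂ))) ^ (m + 1) / (((m + 1) * (m + 1).factorial : ℕ) : ℂ))
      ((-(I * ((ω * u : ℝ) : ℂ))) ^ (m + 1) / ((m + 1).factorial : ℂ) / (u : ℂ)) u := by
    intro m _
    have h4 := (h2.pow (m + 1)).div_const (((m + 1) * (m + 1).factorial : ℕ) : ℂ)
    refine h4.congr_deriv ?_
    have hf : ((m + 1).factorial : ℂ) ≠ 0 := by exact_mod_cast Nat.factorial_ne_zero _
    have hm : ((m : ℂ) + 1) ≠ 0 := by exact_mod_cast Nat.succ_ne_zero m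
    rw [Nat.add_sub_cancel, pow_succ (-(I * ((ω * u : ℝ) : ℂ))) m]
    push_cast
    field_simp
  have h5 := h1.add ((HasDerivAt.fun_sum h3).const_mul (χ : ℂ))
  refine h5.congr_deriv ?_
  rw [Finset.sum_range_succ' _ 13, ← Finset.sum_div]
  simp only [pow_zero, Nat.factorial_zero, Nat.cast_one, div_one]
  push_cast
  field_simp
  ring

theorem exp_tail (y : ℝ) (h0 : 0 ≤ y) (h2 : y ≤ 2) :
    ‖cexp (-(I * (y : ℂ))) - ∑ m ∈ Finset.range 14, (-(I * (y : ℂ))) ^ m / (m.factorial : ℂ)‖ ≤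
      1 / 2000000 := by
  have hn : ‖-(I * (y : ℂ))‖ = y := by
    rw [norm_neg, norm_mul, norm_I, one_mul, Complex.norm_real, Real.norm_of_nonneg h0]
  have h := Complex.exp_bound' (x := -(I * (y : ℂ))) (n := 14) (by
    rw [hn]
    norm_num
    linarith)
  rw [hn] at h
  refine h.trans ?_
  have h3 : y ^ 14 ≤ 2 ^ 14 := pow_le_pow_left₀ h0 h2 14
  have h4 : ((14 : ℕ).factorial : ℝ) = 87178291200 := by
    norm_num [Nat.factorial]
  rw [h4]
  calc y ^ 14 / 87178291200 * 2 ≤ 2 ^ 14 / 87178291200 * 2 := by gcongr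
    _ ≤ 1 / 2000000 := by norm_num

theorem glim_near (χ ω a b : ℝ) (hχ : 0 ≤ χ) (ha : 0 < a) (hab : a ≤ b) (hω : 0 ≤ ω)
    (hb : ω * b ≤ 2) :
    ‖glim χ ω a b - (Fp χ ω b - Fp χ ω a)‖ ≤ χ / 2000000 * ((b - a) / a) := by
  have hcont : ∀ u ∈ Icc a b, ContinuousAt (fun u : ℝ =>
      ((((χ * (χ - 1) : ℝ) : ℂ) + (χ : ℂ) * ∑ m ∈ Finset.range 14,
      (-(I * ((ω * u : ℝ) : ℂ))) ^ m / (m.factorial : ℂ)) / (u : ℂ))) u := by
    intro u hu
    have hu0 : 0 < u := lt_of_lt_of_le ha hu.1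
    have huc : (u : ℂ) ≠ 0 := by exact_mod_cast hu0.ne'
    apply ContinuousAt.div _ _ huc
    · fun_prop
    · fun_prop
  have hint : IntervalIntegrable (fun u : ℝ =>
      ((((χ * (χ - 1) : ℝ) : ℂ) + (χ : ℂ) * ∑ m ∈ Finset.range 14,
      (-(I * ((ω * u : ℝ) : ℂ))) ^ m / (m.factorial : ℂ)) / (u : ℂ))) volume a b := by
    apply ContinuousOn.intervalIntegrable
    rw [uIcc_of_le hab]
    exact fun u hu => (hcont u hu).continuousWithinAt
  have hint2 : IntervalIntegrable (fun u : ℝ =>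
      (((χ * (χ - 1) : ℝ) : ℂ) + (χ : ℂ) * cexp (-(I * ((ω * u : ℝ) : ℂ)))) / (u : ℂ))
      volume a b := by
    apply ContinuousOn.intervalIntegrable
    rw [uIcc_of_le hab]
    intro u hu
    have hu0 : 0 < u := lt_of_lt_of_le ha hu.1
    have huc : (u : ℂ) ≠ 0 := by exact_mod_cast hu0.ne'
    apply ContinuousAt.continuousWithinAt
    apply ContinuousAt.div _ _ huc
    · fun_prop
    · fun_prop
  have hftc : ∫ u in a..b, ((((χ * (χ - 1) : ℝ) : ℂ) + (χ : ℂ) * ∑ m ∈ Finset.range 14,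
      (-(I * ((ω * u : ℝ) : ℂ))) ^ m / (m.factorial : ℂ)) / (u : ℂ)) =
      Fp χ ω b - Fp χ ω a := by
    apply intervalIntegral.integral_eq_sub_of_hasDerivAt _ hint
    intro u hu
    rw [uIcc_of_le hab] at hu
    exact Fp_deriv χ ω u (lt_of_lt_of_le ha hu.1)
  rw [← hftc]
  unfold glim
  rw [← intervalIntegral.integral_sub hint2 hint]
  have hbd : ∀ u ∈ Set.uIoc a b, ‖(((χ * (χ - 1) : ℝ) : ℂ) +
      (χ : ℂ) * cexp (-(I * ((ω * u : ℝ) : ℂ)))) / (u : ℂ) -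
      ((((χ * (χ - 1) : ℝ) : ℂ) + (χ : ℂ) * ∑ m ∈ Finset.range 14,
      (-(I * ((ω * u : ℝ) : ℂ))) ^ m / (m.factorial : ℂ)) / (u : ℂ))‖ ≤ χ / 2000000 / a := by
    intro u hu
    rw [uIoc_of_le hab] at hu
    have hu0 : 0 < u := ha.trans hu.1
    rw [← sub_div, add_sub_add_left_eq_sub, ← mul_sub, norm_div, norm_mul, Complex.norm_real,
      Complex.norm_real, Real.norm_of_nonneg hχ, Real.norm_of_nonneg hu0.le]
    have h1 := exp_tail (ω * u) (by positivity) (by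
      have := mul_le_mul_of_nonneg_left hu.2 hω
      linarith)
    apply div_le_div₀ (by positivity) _ ha hu.1.le
    calc χ * _ ≤ χ * (1 / 2000000) := mul_le_mul_of_nonneg_left h1 hχ
      _ = χ / 2000000 := by ring
  refine (intervalIntegral.norm_integral_le_of_norm_le_const hbd).trans (le_of_eq ?_)
  rw [abs_of_nonneg (by linarith)]
  ring

theorem split13 (f : ℕ → ℂ) : ∑ m ∈ Finset.range 13, f m =
    ∑ j ∈ Finset.range 6, f (2 * j + 1) + ∑ j ∈ Finset.range 7, f (2 * j) := by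
  simp only [Finset.sum_range_succ, Finset.sum_range_zero]
  norm_num
  ring

theorem pow_even (y : ℝ) (j : ℕ) : (-(I * (y : ℂ))) ^ (2 * j + 1 + 1) =
    (((-1) ^ (j + 1) * y ^ (2 * j + 2) : ℝ) : ℂ) := by
  have h : (-(I * (y : ℂ))) ^ 2 = -((y : ℂ) ^ 2) := by
    rw [neg_sq, mul_pow, I_sq]
    ring
  rw [show 2 * j + 1 + 1 = 2 * (j + 1) by ring, pow_mul, h]
  push_cast
  rw [pow_mul (y : ℂ), neg_pow]

theorem pow_odd (y : ℝ) (j : ℕ) : (-(I * (y : ℂ))) ^ (2 * j + 1) =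
    -(I * (((-1) ^ j * y ^ (2 * j + 1) : ℝ) : ℂ)) := by
  have h : (-(I * (y : ℂ))) ^ 2 = -((y : ℂ) ^ 2) := by
    rw [neg_sq, mul_pow, I_sq]
    ring
  rw [pow_succ, pow_mul, h]
  push_cast
  rw [neg_pow, show (y : ℂ) ^ (2 * j + 1) = (y ^ 2) ^ j * y by rw [pow_succ, pow_mul]]
  ring

theorem Fp_sub (χ w a b : ℚ) (ha : 0 < a) (hab : a ≤ b) : Fp χ w b - Fp χ w a =
    (((χ : ℝ) ^ 2 * Real.log ((b : ℝ) / a) + χ * (ER w a b : ℝ) : ℝ) : ℂ) -
      I * ((χ * (EI w a b : ℝ) : ℝ) : ℂ) := by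
  have ha' : (0 : ℝ) < a := by exact_mod_cast ha
  have hb' : (0 : ℝ) < b := by exact_mod_cast lt_of_lt_of_le ha hab
  have e : ∀ u : ℚ, ∑ m ∈ Finset.range 13,
      (-(I * (((w : ℝ) * (u : ℝ) : ℝ) : ℂ))) ^ (m + 1) / (((m + 1) * (m + 1).factorial : ℕ) : ℂ) =
      ((∑ j ∈ Finset.range 6, (-1) ^ (j + 1) * ((w * u : ℝ) ^ (2 * j + 2) /
        (((2 * j + 2) * (2 * j + 2).factorial : ℕ) : ℝ)) : ℝ) : ℂ) -
      I * ((∑ j ∈ Finset.range 7, (-1) ^ j * ((w * u : ℝ) ^ (2 * j + 1) /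
        (((2 * j + 1) * (2 * j + 1).factorial : ℕ) : ℝ)) : ℝ) : ℂ) := by
    intro u
    rw [split13]
    rw [sub_eq_add_neg]
    congr 1
    · push_cast
      refine Finset.sum_congr rfl fun j _ => ?_
      have := pow_even ((w : ℝ) * u) j
      push_cast at this
      rw [this]
      push_cast
      ring
    · push_cast
      rw [Finset.mul_sum, ← Finset.sum_neg_distrib]
      refine Finset.sum_congr rfl fun j _ => ?_
      have := pow_odd ((w : ℝ) * u) j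
      push_cast at this
      rw [this]
      push_cast
      ring
  have hER : ((ER w a b : ℚ) : ℝ) = (∑ j ∈ Finset.range 6, (-1) ^ (j + 1) * ((w * b : ℝ) ^ (2 * j + 2) /
        (((2 * j + 2) * (2 * j + 2).factorial : ℕ) : ℝ))) -
      ∑ j ∈ Finset.range 6, (-1) ^ (j + 1) * ((w * a : ℝ) ^ (2 * j + 2) /
        (((2 * j + 2) * (2 * j + 2).factorial : ℕ) : ℝ)) := by
    unfold ER
    rw [sumTo_eq, ← Finset.sum_sub_distrib]
    push_cast
    refine Finset.sum_congr rfl fun j _ => ?_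
    ring
  have hEI : ((EI w a b : ℚ) : ℝ) = (∑ j ∈ Finset.range 7, (-1) ^ j * ((w * b : ℝ) ^ (2 * j + 1) /
        (((2 * j + 1) * (2 * j + 1).factorial : ℕ) : ℝ))) -
      ∑ j ∈ Finset.range 7, (-1) ^ j * ((w * a : ℝ) ^ (2 * j + 1) /
        (((2 * j + 1) * (2 * j + 1).factorial : ℕ) : ℝ)) := by
    unfold EI
    rw [sumTo_eq, ← Finset.sum_sub_distrib]
    push_cast
    refine Finset.sum_congr rfl fun j _ => ?_
    ring
  unfold Fp
  rw [e a, e b, hER, hEI, Real.log_div hb'.ne' ha'.ne']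
  push_cast
  ring

theorem LR_near (x : ℚ) (h0 : 0 ≤ x) (h1 : x ≤ 1 / 10) :
    |(LR x : ℝ) + Real.log (1 - x)| ≤ 1 / 50000000 := by
  have h0' : (0 : ℝ) ≤ x := by exact_mod_cast h0
  have h1' : (x : ℝ) ≤ 1 / 10 := by
    have : ((x : ℚ) : ℝ) ≤ ((1 / 10 : ℚ) : ℝ) := by exact_mod_cast h1
    simpa using this
  have h := Real.abs_log_sub_add_sum_range_le (x := (x : ℝ)) (by rw [abs_of_nonneg h0']; linarith) 7
  have e : ((LR x : ℚ) : ℝ) = ∑ i ∈ Finset.range 7, (x : ℝ) ^ (i + 1) / ((i : ℝ) + 1) := by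
    unfold LR
    rw [sumTo_eq]
    push_cast
    rfl
  rw [e]
  refine h.trans ?_
  rw [abs_of_nonneg h0', div_le_iff₀ (by linarith)]
  have h2 : (x : ℝ) ^ (7 + 1) ≤ (1 / 10) ^ (7 + 1) := pow_le_pow_left₀ h0' h1' _
  refine h2.trans ?_
  norm_num
  linarith

end Pool.Agent.TH299.PG
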