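import Pool.Agent.TH299.PG.Num
import Pool.Agent.TH299.PG.KDP

/-! Positivity of the diagonal. -/

open Complex Filter Topology Set MeasureTheory

namespace Pool.Agent.TH299.PG

theorem SW_norm1 {α : Type*} (cost : α → ℕ) (g : α → ℂ) (γ : α → ℝ) (l : List α)
    (hγ : ∀ x ∈ l, 0 ≤ γ x) (hg : ∀ x ∈ l, ‖g x‖ ≤ γ x) :
    1 ≤ (l.map (fun x => 1 + γ x)).prod ∧
    ∀ b : ℕ, ‖SW cost g l b‖ ≤ (l.map (fun x => 1 + γ x)).prod := by
  induction l with
  | nil => simp [SW]
  | cons x l ih =>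
    obtain ⟨i1, i2⟩ := ih (fun y hy => hγ y (List.mem_cons_of_mem _ hy))
      (fun y hy => hg y (List.mem_cons_of_mem _ hy))
    have h1 := hγ x List.mem_cons_self
    have h2 := hg x List.mem_cons_self
    rw [List.map_cons, List.prod_cons]
    refine ⟨by nlinarith, fun b => ?_⟩
    rw [SW]
    have h3 := i2 b
    have h4 := i2 (b - cost x)
    split_ifs with h
    · refine (norm_add_le _ _).trans ?_
      rw [norm_mul]
      have := mul_le_mul h2 h4 (norm_nonneg _) h1
      linarith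
    · rw [add_zero]
      nlinarith

theorem SW_diff' {α : Type*} (cost : α → ℕ) (g g' : α → ℂ) (γ : α → ℝ) (η : ℝ) (hη : 0 ≤ η)
    (l : List α) (hγ : ∀ x ∈ l, 0 ≤ γ x) (hg : ∀ x ∈ l, ‖g x‖ ≤ γ x)
    (hg' : ∀ x ∈ l, ‖g' x‖ ≤ γ x) (hd : ∀ x ∈ l, ‖g x - g' x‖ ≤ η) :
    ∀ b : ℕ, ‖SW cost g l b - SW cost g' l b‖ ≤
      l.length * η * (l.map (fun x => 1 + γ x)).prod := by
  induction l with
  | nil => intro b; simp [SW]
  | cons x l ih =>
    intro b
    have ih' := ih (fun y hy => hγ y (List.mem_cons_of_mem _ hy))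
      (fun y hy => hg y (List.mem_cons_of_mem _ hy))
      (fun y hy => hg' y (List.mem_cons_of_mem _ hy)) (fun y hy => hd y (List.mem_cons_of_mem _ hy))
    obtain ⟨i1, i2⟩ := SW_norm1 cost g γ l (fun y hy => hγ y (List.mem_cons_of_mem _ hy))
      (fun y hy => hg y (List.mem_cons_of_mem _ hy))
    have hx := hg x List.mem_cons_self
    have hx' := hg' x List.mem_cons_self
    have hdx := hd x List.mem_cons_self
    have hγx := hγ x List.mem_cons_self
    rw [List.map_cons, List.prod_cons, List.length_cons]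
    set P := (l.map (fun x => 1 + γ x)).prod with hP
    push_cast
    have key : ∀ X X' Y Y' : ℂ, ‖X - X'‖ ≤ l.length * η * P →
        ‖Y - Y'‖ ≤ l.length * η * P → ‖Y‖ ≤ P →
        ‖(X + g x * Y) - (X' + g' x * Y')‖ ≤
          ((l.length : ℝ) + 1) * η * ((1 + γ x) * P) := by
      intro X X' Y Y' a1 a2 a3
      have e : (X + g x * Y) - (X' + g' x * Y') = (X - X') + ((g x - g' x) * Y +
          g' x * (Y - Y')) := by ring
      rw [e]
      refine (norm_add_le _ _).trans ?_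
      have h1 : ‖(g x - g' x) * Y + g' x * (Y - Y')‖ ≤ η * P + γ x * (l.length * η * P) := by
        refine (norm_add_le _ _).trans ?_
        rw [norm_mul, norm_mul]
        exact add_le_add (mul_le_mul hdx a3 (norm_nonneg _) hη)
          (mul_le_mul hx' a2 (norm_nonneg _) hγx)
      have h2 : 0 ≤ γ x * (η * P) := by positivity
      calc _ ≤ l.length * η * P + (η * P + γ x * (l.length * η * P)) := add_le_add a1 h1
        _ ≤ _ := by
          have e2 : ((l.length : ℝ) + 1) * η * ((1 + γ x) * P) =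
            l.length * η * P + (η * P + γ x * (l.length * η * P)) + γ x * (η * P) := by ring
          rw [e2]
          linarith
    rw [SW, SW]
    split_ifs with h
    · exact key _ _ _ _ (ih' b) (ih' _) (i2 _)
    · have := key _ _ 0 0 (ih' b) (by simp; positivity) (by simp; linarith)
      simpa using this

/-- approximate contribution -/
noncomputable def ga (x : Bin) : ℂ := ((x.gr : ℂ) - I * x.gq) / 1000000

/-- limit contribution -/
noncomputable def gl (x : Bin) : ℂ :=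
  glim ((x.χ : ℝ) / 100) (3534 / 1000) ((x.a : ℝ) / 100000) ((x.b : ℝ) / 100000)

/-- side conditions on a bin -/
def ok (x : Bin) : Bool :=
  decide (1000 ≤ x.a) && decide (x.a < x.b) && decide (x.b * x.k ≤ 99900) &&
  decide (1260 ≤ x.co * x.k) && decide (x.χ ≤ 200) && decide (100 * (x.b - x.a) ≤ 7 * x.a) &&
  decide (x.co ≤ 1259) && decide (1 ≤ x.k)

theorem ok_all : bins.all ok = true := by decide +kernel

theorem ok_mem {x : Bin} (hx : x ∈ bins) : 1000 ≤ x.a ∧ x.a < x.b ∧ x.b * x.k ≤ 99900 ∧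
    1260 ≤ x.co * x.k ∧ x.χ ≤ 200 ∧ 100 * (x.b - x.a) ≤ 7 * x.a ∧ x.co ≤ 1259 ∧ 1 ≤ x.k := by
  have h := List.all_eq_true.mp ok_all x hx
  simp only [ok, Bool.and_eq_true, decide_eq_true_eq] at h
  obtain ⟨⟨⟨⟨⟨⟨⟨h1, h2⟩, h3⟩, h4⟩, h5⟩, h6⟩, h7⟩, h8⟩ := h
  exact ⟨h1, h2, h3, h4, h5, h6, h7, h8⟩

theorem gl_near {x : Bin} (hx : x ∈ bins) : ‖gl x - ga x‖ ≤ 2 / 1000000 := by
  obtain ⟨o1, o2, o3, o4, o5, o6, o7, o8⟩ := ok_mem hx
  have hchk := List.all_eq_true.mp chk_all x hx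
  simp only [chk, Bool.and_eq_true, decide_eq_true_eq] at hchk
  obtain ⟨k1, k2⟩ := hchk
  set χ : ℚ := (x.χ : ℚ) / 100 with hχ
  set w : ℚ := 3534 / 1000 with hw
  set a : ℚ := (x.a : ℚ) / 100000 with ha
  set b : ℚ := (x.b : ℚ) / 100000 with hb
  have ha0 : 0 < a := by rw [ha]; have : 0 < x.a := by omega
                         positivity
  have hab : a ≤ b := by
    rw [ha, hb]
    have : (x.a : ℚ) ≤ x.b := by exact_mod_cast o2.le
    linarith
  have hb0 : 0 < b := lt_of_lt_of_le ha0 hab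
  have hb5 : b ≤ 1 / 2 := by
    rw [hb]
    have h1 : x.k ≥ 2 ∨ x.k = 1 := by omega
    rcases h1 with h1 | h1
    · have h2 : 2 * x.b ≤ 99900 := by nlinarith
      have h3 : (2 : ℚ) * x.b ≤ 99900 := by exact_mod_cast h2
      linarith
    · rw [h1] at o4
      omega
  have hba : (b - a) / a ≤ 7 / 100 := by
    rw [div_le_iff₀ ha0, ha, hb]
    have h1 : 100 * ((x.b : ℤ) - x.a) ≤ 7 * x.a := by omega
    have h2 : (100 : ℚ) * ((x.b : ℚ) - x.a) ≤ 7 * x.a := by exact_mod_cast h1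
    linarith
  have hχ0 : 0 ≤ χ := by positivity
  have hχ2 : χ ≤ 2 := by
    rw [hχ]
    have : (x.χ : ℚ) ≤ 200 := by exact_mod_cast o5
    linarith
  -- step 1
  have ha0' : (0 : ℝ) < a := by exact_mod_cast ha0
  have hab' : (a : ℝ) ≤ b := by exact_mod_cast hab
  have hb5' : (b : ℝ) ≤ 1 / 2 := by
    have : ((b : ℚ) : ℝ) ≤ ((1 / 2 : ℚ) : ℝ) := by exact_mod_cast hb5
    simpa using this
  have hba' : ((b : ℝ) - a) / a ≤ 7 / 100 := by
    have : (((b - a) / a : ℚ) : ℝ) ≤ ((7 / 100 : ℚ) : ℝ) := by exact_mod_cast hba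
    simpa using this
  have hχ0' : (0 : ℝ) ≤ χ := by exact_mod_cast hχ0
  have hχ2' : (χ : ℝ) ≤ 2 := by exact_mod_cast hχ2
  have hwv : ((w : ℚ) : ℝ) = 3534 / 1000 := by rw [hw]; norm_num
  have h1 := glim_near χ w a b hχ0' ha0' hab' (by rw [hwv]; norm_num) (by rw [hwv]; linarith)
  rw [Fp_sub χ w a b ha0 hab] at h1
  -- the logarithm
  have hx0 : 0 ≤ (b - a) / b := by
    apply div_nonneg _ hb0.le
    linarith
  have hx1 : (b - a) / b ≤ 1 / 10 := by
    have : (b - a) / b ≤ (b - a) / a := by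
      apply div_le_div_of_nonneg_left _ ha0 hab
      linarith
    linarith
  have hL := LR_near ((b - a) / b) hx0 hx1
  have hlog : Real.log (1 - (((b - a) / b : ℚ) : ℝ)) = -Real.log ((b : ℝ) / a) := by
    rw [← Real.log_inv, inv_div]
    congr 1
    have : (b : ℝ) ≠ 0 := by exact_mod_cast hb0.ne'
    push_cast
    field_simp
    ring
  rw [hlog] at hL
  have hxx : ((x.b : ℚ) - x.a) / x.b = (b - a) / b := by
    rw [ha, hb]
    have : (x.b : ℚ) ≠ 0 := by
      have : 0 < x.b := by omega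
      exact_mod_cast this.ne'
    field_simp
  rw [hxx] at k1
  have k1' : |(χ : ℝ) ^ 2 * (LR ((b - a) / b) : ℝ) + χ * (ER w a b : ℝ) - (x.gr : ℝ) / 1000000| ≤
      6 / 10000000 := by
    have : ((|χ ^ 2 * LR ((b - a) / b) + χ * ER w a b - (x.gr : ℚ) / 1000000| : ℚ) : ℝ) ≤
      ((6 / 10000000 : ℚ) : ℝ) := by exact_mod_cast k1
    push_cast at this
    simpa using this
  have k2' : |(χ : ℝ) * (EI w a b : ℝ) - (x.gq : ℝ) / 1000000| ≤ 6 / 10000000 := by
    have : ((|χ * EI w a b - (x.gq : ℚ) / 1000000| : ℚ) : ℝ) ≤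
      ((6 / 10000000 : ℚ) : ℝ) := by exact_mod_cast k2
    push_cast at this
    simpa using this
  -- combine
  have hgl : gl x = glim χ w a b := by
    unfold gl
    rw [hχ, hw, ha, hb]
    push_cast
    rfl
  rw [hgl]
  set A : ℝ := (χ : ℝ) ^ 2 * Real.log ((b : ℝ) / a) + χ * (ER w a b : ℝ) with hA
  set B : ℝ := (χ : ℝ) * (EI w a b : ℝ) with hB
  have hA1 : |A - (x.gr : ℝ) / 1000000| ≤ 7 / 10000000 := by
    have e : A - (x.gr : ℝ) / 1000000 = ((χ : ℝ) ^ 2 * (LR ((b - a) / b) : ℝ) +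
        χ * (ER w a b : ℝ) - (x.gr : ℝ) / 1000000) -
        (χ : ℝ) ^ 2 * ((LR ((b - a) / b) : ℝ) + -Real.log ((b : ℝ) / a)) := by
      rw [hA]; ring
    rw [e]
    refine (abs_sub _ _).trans ?_
    rw [abs_mul, abs_of_nonneg (by positivity : 0 ≤ (χ : ℝ) ^ 2)]
    have h2 : (χ : ℝ) ^ 2 ≤ 4 := by nlinarith
    have h3 := mul_le_mul h2 hL (abs_nonneg _) (by norm_num)
    linarith
  have hfin : ‖(((A : ℝ) : ℂ) - I * ((B : ℝ) : ℂ)) - ga x‖ ≤ 13 / 10000000 := by
    have e : (((A : ℝ) : ℂ) - I * ((B : ℝ) : ℂ)) - ga x =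
        ((A - (x.gr : ℝ) / 1000000 : ℝ) : ℂ) - I * ((B - (x.gq : ℝ) / 1000000 : ℝ) : ℂ) := by
      unfold ga
      push_cast
      ring
    rw [e]
    refine (norm_sub_le _ _).trans ?_
    rw [norm_mul, norm_I, one_mul, Complex.norm_real, Complex.norm_real, Real.norm_eq_abs,
      Real.norm_eq_abs]
    linarith
  have h4 : (χ : ℝ) / 2000000 * (((b : ℝ) - a) / a) ≤ 2 / 2000000 * (7 / 100) := by
    apply mul_le_mul _ hba' (div_nonneg (by linarith) ha0'.le) (by norm_num)
    linarith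
  have h5 : glim χ w a b - ga x = (glim χ w a b - (((A : ℝ) : ℂ) - I * ((B : ℝ) : ℂ))) +
      ((((A : ℝ) : ℂ) - I * ((B : ℝ) : ℂ)) - ga x) := by ring
  rw [h5]
  refine (norm_add_le _ _).trans ?_
  linarith

theorem exp_sum (y : ℝ) : ∑ m ∈ Finset.range 14, (-(I * (y : ℂ))) ^ m / (m.factorial : ℂ) =
    ((∑ j ∈ Finset.range 7, (-1) ^ j * y ^ (2 * j) / ((2 * j).factorial : ℝ) : ℝ) : ℂ) +
    -(I * ((∑ j ∈ Finset.range 7, (-1) ^ j * y ^ (2 * j + 1) / ((2 * j + 1).factorial : ℝ) : ℝ) :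
      ℂ)) := by
  have hsplit : ∀ f : ℕ → ℂ, ∑ m ∈ Finset.range 14, f m =
      ∑ j ∈ Finset.range 7, f (2 * j) + ∑ j ∈ Finset.range 7, f (2 * j + 1) := by
    intro f
    simp only [Finset.sum_range_succ, Finset.sum_range_zero]
    norm_num
    ring
  have he : ∀ j : ℕ, (-(I * (y : ℂ))) ^ (2 * j) = (((-1) ^ j * y ^ (2 * j) : ℝ) : ℂ) := by
    intro j
    have h : (-(I * (y : ℂ))) ^ 2 = -((y : ℂ) ^ 2) := by
      rw [neg_sq, mul_pow, I_sq]
      ring
    rw [pow_mul, h, neg_pow]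
    push_cast
    rw [pow_mul]
  rw [hsplit]
  congr 1
  · push_cast
    refine Finset.sum_congr rfl fun j _ => ?_
    rw [he]
    push_cast
    ring
  · push_cast
    rw [Finset.mul_sum, ← Finset.sum_neg_distrib]
    refine Finset.sum_congr rfl fun j _ => ?_
    rw [pow_odd]
    push_cast
    ring

/-- values of sine and cosine -/
theorem trig : Real.cos (1767 / 1000) ≤ -(1949 / 10000) ∧ Real.sin (1767 / 1000) ≤ 9809 / 10000 := by
  have h := exp_tail (1767 / 1000) (by norm_num) (by norm_num)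
  rw [exp_sum] at h
  set X := ∑ j ∈ Finset.range 7, (-1) ^ j * (1767 / 1000) ^ (2 * j) / ((2 * j).factorial : ℝ) with hX
  set Y := ∑ j ∈ Finset.range 7, (-1) ^ j * (1767 / 1000) ^ (2 * j + 1) /
    ((2 * j + 1).factorial : ℝ) with hY
  have hXv : X ≤ -(19492 / 100000) := by
    rw [hX]
    norm_num [Finset.sum_range_succ, Nat.factorial]
  have hYv : Y ≤ 98085 / 100000 := by
    rw [hY]
    norm_num [Finset.sum_range_succ, Nat.factorial]
  have hexp : cexp (-(I * ((1767 / 1000 : ℝ) : ℂ))) =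
      ((Real.cos (1767 / 1000) : ℝ) : ℂ) - ((Real.sin (1767 / 1000) : ℝ) : ℂ) * I := by
    rw [show -(I * ((1767 / 1000 : ℝ) : ℂ)) = (((-(1767 / 1000) : ℝ)) : ℂ) * I by push_cast; ring,
      Complex.exp_mul_I, ← Complex.ofReal_cos, ← Complex.ofReal_sin, Real.cos_neg, Real.sin_neg]
    push_cast
    ring
  rw [hexp] at h
  have r1 : ∀ C S X Y : ℝ, (((C : ℂ) - (S : ℂ) * I) - ((X : ℂ) + -(I * (Y : ℂ)))).re = C - X := by
    intro C S X Y
    simp
  have r2 : ∀ C S X Y : ℝ, (((C : ℂ) - (S : ℂ) * I) - ((X : ℂ) + -(I * (Y : ℂ)))).im = -S + Y := by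
    intro C S X Y
    simp
  have hre := (Complex.abs_re_le_norm _).trans h
  have him := (Complex.abs_im_le_norm _).trans h
  rw [r1, abs_le] at hre
  rw [r2, abs_le] at him
  constructor
  · linarith [hre.2]
  · linarith [him.1]

theorem prod_bd : (bins.map (fun x => 10 ^ 6 + x.gr + x.gq)).prod < 2 ^ 2240 - 1 := by
  decide +kernel

theorem prod_bd2 : (bins.map (fun x => 1000000 + (x.gr + x.gq + 3))).prod ≤
    6500 * 1000000 ^ bins.length := by
  decide +kernel

theorem h2240 : (2 : ℕ) ≤ 2 ^ 2240 := by decide +kernel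

theorem len_bins : bins.length = 109 := by decide +kernel

/-- bounds for the absolute values -/
noncomputable def gam (x : Bin) : ℝ := ((x.gr : ℝ) + x.gq + 3) / 1000000

theorem prod_cast (l : List Bin) : (l.map (fun x => 1 + gam x)).prod * 1000000 ^ l.length =
    (((l.map (fun x => 1000000 + (x.gr + x.gq + 3))).prod : ℕ) : ℝ) := by
  induction l with
  | nil => simp
  | cons x l ih =>
    rw [List.map_cons, List.prod_cons, List.map_cons, List.prod_cons, List.length_cons, pow_succ,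
      Nat.cast_mul, ← ih]
    unfold gam
    push_cast
    ring

theorem gam_prod : (bins.map (fun x => 1 + gam x)).prod ≤ 6500 := by
  have h := prod_cast bins
  have h2 : (((bins.map (fun x => 1000000 + (x.gr + x.gq + 3))).prod : ℕ) : ℝ) ≤
      ((6500 * 1000000 ^ bins.length : ℕ) : ℝ) := by exact_mod_cast prod_bd2
  rw [← h] at h2
  push_cast at h2
  exact le_of_mul_le_mul_right h2 (by positivity)

theorem ga_norm (x : Bin) : ‖ga x‖ ≤ ((x.gr : ℝ) + x.gq) / 1000000 := by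
  unfold ga
  rw [norm_div]
  have h1 : ‖(1000000 : ℂ)‖ = 1000000 := by norm_num
  rw [h1]
  apply div_le_div_of_nonneg_right _ (by norm_num)
  refine (norm_sub_le _ _).trans ?_
  rw [norm_mul, norm_I, one_mul, Complex.norm_natCast, Complex.norm_natCast]

/-- the value of the approximate sum -/
theorem SW_ga : 129 < (SW Bin.co ga bins 1259).re ∧ (SW Bin.co ga bins 1259).re < 1294 / 10 ∧
    6765 / 10 < -(SW Bin.co ga bins 1259).im := by
  have h := kron_final (2 ^ 2240) 1260 (10 ^ 6) (10 ^ 653) 1290 1294 6765 6770 bins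
    h2240 (by norm_num)
    prod_bd kron_test
  have e := SH_eq Bin.co (((10 ^ 6 : ℕ)) : ℂ) (fun x => (x.gr : ℂ) - I * x.gq) ga bins
    (fun x _ => by
      unfold ga
      push_cast
      field_simp) 1259
  rw [show 1260 - 1 = 1259 by norm_num, e, len_bins] at h
  have hc : (((10 ^ 6 : ℕ) : ℂ)) ^ 109 = (((10 ^ 654 : ℝ)) : ℂ) := by
    push_cast
    rw [show (654 : ℕ) = 6 * 109 from rfl, pow_mul]
    norm_num
  rw [hc, Complex.re_ofReal_mul, Complex.im_ofReal_mul] at h
  obtain ⟨h1, h2, h3, _⟩ := h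
  push_cast at h1 h2 h3
  have hp : (10 : ℝ) ^ 654 = 10 * 10 ^ 653 := by rw [pow_succ]; ring
  have hp0 : (0 : ℝ) < 10 ^ 653 := by positivity
  rw [hp] at h1 h2 h3
  generalize (10 : ℝ) ^ 653 = z at h1 h2 h3 hp0
  refine ⟨?_, ?_, ?_⟩
  · nlinarith
  · nlinarith
  · nlinarith

/-- positivity for every family of numbers close to the limit values -/
theorem positive (g : Bin → ℂ) (hg : ∀ x ∈ bins, ‖g x - gl x‖ ≤ 1 / 1000000) :
    1 ≤ (cexp (-(1767 / 1000 : ℝ) * I) * SW Bin.co g bins 1259).im := by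
  have hga : ∀ x ∈ bins, ‖g x - ga x‖ ≤ 3 / 1000000 := by
    intro x hx
    have e : g x - ga x = (g x - gl x) + (gl x - ga x) := by ring
    rw [e]
    refine (norm_add_le _ _).trans ?_
    have h1 := hg x hx
    have h2 := gl_near hx
    linarith
  have hgam0 : ∀ x ∈ bins, 0 ≤ gam x := fun x _ => by unfold gam; positivity
  have hga1 : ∀ x ∈ bins, ‖ga x‖ ≤ gam x := by
    intro x _
    refine (ga_norm x).trans ?_
    unfold gam
    apply div_le_div_of_nonneg_right _ (by norm_num)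
    linarith
  have hg1 : ∀ x ∈ bins, ‖g x‖ ≤ gam x := by
    intro x hx
    have e : g x = (g x - ga x) + ga x := by ring
    rw [e]
    refine (norm_add_le _ _).trans ?_
    have h1 := hga x hx
    have h2 := ga_norm x
    have e2 : gam x = 3 / 1000000 + ((x.gr : ℝ) + x.gq) / 1000000 := by unfold gam; ring
    rw [e2]
    linarith
  have hdiff := SW_diff' Bin.co g ga gam (3 / 1000000) (by norm_num) bins hgam0 hg1 hga1 hga 1259
  rw [len_bins] at hdiff
  have hd : ‖SW Bin.co g bins 1259 - SW Bin.co ga bins 1259‖ ≤ 5 / 2 := by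
    refine hdiff.trans ?_
    have := gam_prod
    push_cast
    nlinarith
  obtain ⟨s1, s2, s3⟩ := SW_ga
  obtain ⟨t1, t2⟩ := trig
  set Z := SW Bin.co ga bins 1259 with hZ
  set W := SW Bin.co g bins 1259 with hW
  set E := cexp (-(1767 / 1000 : ℝ) * I) with hE
  have hEn : ‖E‖ = 1 := by
    rw [hE, ← Complex.ofReal_neg]
    exact Complex.norm_exp_ofReal_mul_I _
  have hEv : E = ((Real.cos (1767 / 1000) : ℝ) : ℂ) - ((Real.sin (1767 / 1000) : ℝ) : ℂ) * I := by
    rw [hE, ← Complex.ofReal_neg, Complex.exp_mul_I, ← Complex.ofReal_cos, ← Complex.ofReal_sin,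
      Real.cos_neg, Real.sin_neg]
    push_cast
    ring
  have e1 : (E * W).im = (E * Z).im + (E * (W - Z)).im := by
    rw [← Complex.add_im]
    congr 1
    ring
  have e2 := Complex.abs_im_le_norm (E * (W - Z))
  rw [norm_mul, hEn, one_mul, abs_le] at e2
  have e3 : (E * Z).im = Real.cos (1767 / 1000) * Z.im - Real.sin (1767 / 1000) * Z.re := by
    rw [hEv]
    generalize Real.cos (1767 / 1000) = C
    generalize Real.sin (1767 / 1000) = S
    simp [Complex.mul_im]
    ring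
  rw [e1, e3]
  have hs0 : 0 ≤ 9809 / 10000 - Real.sin (1767 / 1000) := by linarith
  nlinarith [e2.1]

end Pool.Agent.TH299.PG
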