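import Pool.Agent.TH299.PG.Det

/-! Uniform integrability of the detector. -/

open Complex Filter Topology Set MeasureTheory

namespace Pool.Agent.TH299.PG

open SG (phi hh dl phi_norm)
open SP hiding GG
open SP.EvalAux
open Pool.Agent.W192.PP Pool.Agent.W612.PP

attribute [local irreducible] bins

theorem list_int {α : Type*} (l : List α) (f : α → ℝ → ℝ) (A B C : ℝ)
    (hc : ∀ x ∈ l, Continuous (f x)) (hi : ∀ x ∈ l, ∫ t in A..B, f x t ≤ C) :
    Continuous (fun t => (l.map (fun x => f x t)).sum) ∧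
      ∫ t in A..B, (l.map (fun x => f x t)).sum ≤ l.length * C := by
  induction l with
  | nil => exact ⟨by simp only [List.map_nil, List.sum_nil]; exact continuous_const, by simp⟩
  | cons x l ih =>
    obtain ⟨i1, i2⟩ := ih (fun y hy => hc y (List.mem_cons_of_mem _ hy))
      (fun y hy => hi y (List.mem_cons_of_mem _ hy))
    have h1 := hc x List.mem_cons_self
    have h2 := hi x List.mem_cons_self
    simp only [List.map_cons, List.sum_cons, List.length_cons]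
    refine ⟨h1.add i1, ?_⟩
    rw [intervalIntegral.integral_add (h1.intervalIntegrable _ _) (i1.intervalIntegrable _ _)]
    push_cast
    linarith

theorem sumInv (a b : ℝ) (ha : 0 < a) (hab : a ≤ b) (hb : b ≤ 1) :
    ∃ C : ℝ, 0 ≤ C ∧ ∀ T : ℝ, Real.exp 1 ≤ T → ∑ p ∈ QT a b T, (1 : ℝ) / p ≤ C := by
  obtain ⟨C, hC, h⟩ := bin_lim 1 0 a b ha hab hb
  refine ⟨‖glim 1 0 a b‖ + C, by positivity, fun T hT => ?_⟩
  have hT0 : 0 < T := (Real.exp_pos 1).trans_le hT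
  have hL1 : 1 ≤ Real.log T := by
    rw [Real.le_log_iff_exp_le hT0]
    exact hT
  have h1 := h T hT
  have e : ∑ p ∈ QT a b T, (((1 : ℝ) : ℂ) / p) * (((1 : ℝ) : ℂ) - 1 +
      cexp (-(I * ((0 * (Real.log p / Real.log T) : ℝ) : ℂ)))) =
      ((∑ p ∈ QT a b T, (1 : ℝ) / p : ℝ) : ℂ) := by
    push_cast
    refine Finset.sum_congr rfl fun p _ => ?_
    simp
  rw [e] at h1
  have h2 : ‖((∑ p ∈ QT a b T, (1 : ℝ) / p : ℝ) : ℂ)‖ ≤ C / Real.log T + ‖glim 1 0 a b‖ := by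
    have := norm_add_le (((∑ p ∈ QT a b T, (1 : ℝ) / p : ℝ) : ℂ) - glim 1 0 a b) (glim 1 0 a b)
    rw [sub_add_cancel] at this
    linarith
  rw [Complex.norm_real, Real.norm_eq_abs] at h2
  have h3 := le_abs_self (∑ p ∈ QT a b T, (1 : ℝ) / p)
  have h4 : C / Real.log T ≤ C := div_le_self hC hL1
  linarith

theorem bin_ab {x : Bin} (hx : x ∈ bins) : (0 : ℝ) < (x.a : ℝ) / 100000 ∧
    (x.a : ℝ) / 100000 ≤ (x.b : ℝ) / 100000 ∧ (x.b : ℝ) / 100000 ≤ 1 := by
  obtain ⟨o1, o2, o3, o4, o5, o6, o7, o8⟩ := ok_mem hx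
  have h1 := (bin_b hx).2
  have h8 : (1 : ℝ) ≤ x.k := by exact_mod_cast o8
  have h0 : (0 : ℝ) ≤ (x.b : ℝ) / 100000 := by positivity
  refine ⟨?_, ?_, by nlinarith⟩
  · have : 0 < x.a := by omega
    positivity
  · have : (x.a : ℝ) ≤ x.b := by exact_mod_cast o2.le
    linarith

theorem sumInv_all : ∃ C : ℝ, 0 ≤ C ∧ ∀ x ∈ bins, ∀ T : ℝ, Real.exp 1 ≤ T →
    ∑ p ∈ QB T x, (1 : ℝ) / p ≤ C := by
  classical
  have h : ∀ x : Bin, ∃ C : ℝ, 0 ≤ C ∧ (x ∈ bins → ∀ T : ℝ, Real.exp 1 ≤ T →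
      ∑ p ∈ QB T x, (1 : ℝ) / p ≤ C) := by
    intro x
    by_cases hx : x ∈ bins
    · obtain ⟨h1, h2, h3⟩ := bin_ab hx
      obtain ⟨C, hC, h⟩ := sumInv _ _ h1 h2 h3
      exact ⟨C, hC, fun _ => h⟩
    · exact ⟨0, le_rfl, fun h => absurd h hx⟩
  choose f hf0 hf using h
  refine ⟨(bins.map f).sum, List.sum_nonneg (by
    intro y hy
    rw [List.mem_map] at hy
    obtain ⟨x, _, rfl⟩ := hy
    exact hf0 x), fun x hx T hT => (hf x hx T hT).trans ?_⟩
  apply List.single_le_sum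
  · intro y hy
    rw [List.mem_map] at hy
    obtain ⟨x, _, rfl⟩ := hy
    exact hf0 x
  · exact List.mem_map_of_mem hx

/-- the polynomial of a bin -/
noncomputable def Px (T : ℝ) (x : Bin) (t : ℝ) : ℂ :=
  ∑ p ∈ QB T x, -(chiL (QB T) bins p : ℂ) * (p : ℂ) ^ (hh (dl c0 T)) *
    (p : ℂ) ^ (-(⟨1 / 2, t⟩ : ℂ))

theorem Px_cont (T : ℝ) (hT : 0 < T) (x : Bin) (hx : x ∈ bins) : Continuous (Px T x) := by
  unfold Px
  refine continuous_finsetSum _ fun p hp => ?_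
  have hp0 : (p : ℂ) ≠ 0 := by exact_mod_cast (QB_prime hT x hx p hp).ne_zero
  refine continuous_const.mul ?_
  refine Continuous.const_cpow ?_ (Or.inl hp0)
  exact (mk_cont' (1 / 2)).neg

/-- the sum of the moments -/
noncomputable def Sx (T : ℝ) (t : ℝ) : ℝ :=
  1 + (bins.map (fun x => ‖Px T x t‖ ^ (2 * x.k))).sum

theorem le_Sx (T t : ℝ) {x : Bin} (hx : x ∈ bins) : ‖Px T x t‖ ^ (2 * x.k) ≤ Sx T t := by
  unfold Sx
  have h : ‖Px T x t‖ ^ (2 * x.k) ≤ (bins.map (fun x => ‖Px T x t‖ ^ (2 * x.k))).sum := by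
    apply List.single_le_sum
    · intro y hy
      rw [List.mem_map] at hy
      obtain ⟨x, _, rfl⟩ := hy
      positivity
    · exact List.mem_map_of_mem (f := fun x => ‖Px T x t‖ ^ (2 * x.k)) hx
  linarith

theorem one_le_Sx (T t : ℝ) : 1 ≤ Sx T t := by
  unfold Sx
  have : 0 ≤ (bins.map (fun x => ‖Px T x t‖ ^ (2 * x.k))).sum := by
    apply List.sum_nonneg
    intro y hy
    rw [List.mem_map] at hy
    obtain ⟨x, _, rfl⟩ := hy
    positivity
  linarith

/-- pointwise bound for the detector -/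
theorem D_le {T : ℝ} (hT : 1 < T) (t : ℝ) (M : ℝ) (hM : 1 ≤ M) :
    ‖DP ⌊T ^ xx⌋₊ (dT T) (⟨1 / 2, t⟩ : ℂ)‖ ^ 2 ≤
      (lam * 2 ^ 109) ^ 2 * (M ^ 1259 + Sx T t / M) := by
  have hT0 : 0 < T := by linarith
  have hdis := QB_disj hT.le
  have e : DP ⌊T ^ xx⌋₊ (dT T) (⟨1 / 2, t⟩ : ℂ) = (lam : ℂ) *
      SW Bin.co (fun x => Px T x t) bins 1259 := by
    unfold dT Px
    exact DP_dF Bin.co (QB T) bins 1259 (QB_prime hT0) hdis _ (prod_N hT) lam _ _ _
  set S := Sx T t with hS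
  have hS1 : 1 ≤ S := one_le_Sx T t
  have hS0 : 0 ≤ S := by linarith
  set Z : ℝ := S ^ (1 / 2520 : ℝ) with hZ
  have hZ1 : 1 ≤ Z := Real.one_le_rpow hS1 (by norm_num)
  have hZ0 : 0 ≤ Z := by linarith
  have hZS : Z ^ 2520 = S := by
    rw [hZ, ← Real.rpow_natCast, ← Real.rpow_mul hS0]
    norm_num
  have hP : ∀ x ∈ bins, ‖Px T x t‖ ≤ 1 * Z ^ x.co := by
    intro x hx
    rw [one_mul]
    obtain ⟨o1, o2, o3, o4, o5, o6, o7, o8⟩ := ok_mem hx
    have h1 := le_Sx T t hx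
    have h2 : ‖Px T x t‖ ^ (2 * x.k) ≤ (Z ^ x.co) ^ (2 * x.k) := by
      refine h1.trans ?_
      rw [← hS, ← hZS, ← pow_mul]
      apply pow_le_pow_right₀ hZ1
      nlinarith
    exact le_of_pow_le_pow_left₀ (by omega) (by positivity) h2
  have h1 := SW_norm Bin.co (fun x => Px T x t) bins 1 Z zero_le_one hZ1 hP 1259
  rw [len_bins] at h1
  have h2 : ‖DP ⌊T ^ xx⌋₊ (dT T) (⟨1 / 2, t⟩ : ℂ)‖ ≤ (lam * 2 ^ 109) * Z ^ 1259 := by
    rw [e, norm_mul, Complex.norm_real, Real.norm_of_nonneg lam_pos.le, mul_assoc]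
    apply mul_le_mul_of_nonneg_left _ lam_pos.le
    refine h1.trans (le_of_eq ?_)
    norm_num
  have hl0 : 0 ≤ lam * 2 ^ 109 := by
    have := lam_pos
    positivity
  have h3 := pow_le_pow_left₀ (norm_nonneg _) h2 2
  rw [mul_pow] at h3
  refine h3.trans ?_
  apply mul_le_mul_of_nonneg_left _ (by positivity)
  rcases le_total (Z ^ 2) M with h | h
  · have h4 : (Z ^ 1259) ^ 2 ≤ M ^ 1259 := by
      rw [← pow_mul, mul_comm, pow_mul]
      exact pow_le_pow_left₀ (by positivity) h _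
    have h5 : 0 ≤ S / M := by positivity
    linarith
  · have h4 : (Z ^ 1259) ^ 2 ≤ S / M := by
      rw [le_div_iff₀ (by linarith)]
      calc (Z ^ 1259) ^ 2 * M ≤ (Z ^ 1259) ^ 2 * Z ^ 2 :=
            mul_le_mul_of_nonneg_left h (by positivity)
        _ = Z ^ 2520 := by rw [← pow_mul, ← pow_add]
        _ = S := hZS
    have h5 : 0 ≤ M ^ 1259 := by positivity
    linarith

/-- the integral of the moments -/
theorem Sx_int : ∃ C : ℝ, 0 < C ∧ ∀ T : ℝ, Real.exp 1 ≤ T → ∀ H W : ℝ, 1 ≤ H →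
    T ^ (999 / 1000 : ℝ) ≤ H → Continuous (Sx T) ∧ ∫ t in W..(W + H), Sx T t ≤ C * H := by
  obtain ⟨C1, hC1, hsum⟩ := sumInv_all
  -- a bound for all the moments
  set C2 : ℝ := (bins.map (fun x => 60 * (x.k.factorial * (4 * C1) ^ x.k : ℝ))).sum with hC2
  have hnn : ∀ y ∈ bins.map (fun x => 60 * (x.k.factorial * (4 * C1) ^ x.k : ℝ)), 0 ≤ y := by
    intro y hy
    rw [List.mem_map] at hy
    obtain ⟨x, _, rfl⟩ := hy
    positivity
  have hC20 : 0 ≤ C2 := List.sum_nonneg hnn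
  refine ⟨1 + 109 * C2, by positivity, fun T hT H W hH hTH => ?_⟩
  have hT0 : 0 < T := (Real.exp_pos 1).trans_le hT
  have hT1 : 1 ≤ T := by
    have := Real.add_one_le_exp (1 : ℝ)
    linarith
  obtain ⟨k1, k2⟩ := list_int bins (fun x t => ‖Px T x t‖ ^ (2 * x.k)) W (W + H) (C2 * H)
    (fun x hx => ((Px_cont T hT0 x hx).norm).pow _) (by
      intro x hx
      obtain ⟨h1, h2, h3⟩ := bin_ab hx
      have hX : ((⌊T ^ ((x.b : ℝ) / 100000)⌋₊ : ℕ) : ℝ) ^ x.k ≤ H := by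
        refine le_trans ?_ hTH
        calc ((⌊T ^ ((x.b : ℝ) / 100000)⌋₊ : ℕ) : ℝ) ^ x.k ≤ (T ^ ((x.b : ℝ) / 100000)) ^ x.k :=
              pow_le_pow_left₀ (by positivity) (Nat.floor_le (by positivity)) _
          _ = T ^ ((x.b : ℝ) / 100000 * x.k) := by
              rw [← Real.rpow_natCast, ← Real.rpow_mul hT0.le]
          _ ≤ T ^ (999 / 1000 : ℝ) := Real.rpow_le_rpow_of_exponent_le hT1 (bin_b hx).2
      have hm := mom_int x.k ⌊T ^ ((x.b : ℝ) / 100000)⌋₊ H W hH hX (QB T x)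
        (fun p hp => ⟨QB_prime hT0 x hx p hp, by
          have := ((mem_QT hT0).mp hp).2.2
          exact Nat.le_floor this⟩)
        (fun p => -(chiL (QB T) bins p : ℂ) * (p : ℂ) ^ (hh (dl c0 T)))
      have e : ∫ t in W..(W + H), ‖Px T x t‖ ^ (2 * x.k) = ∫ t in W..(W + H),
          ‖∑ p ∈ QB T x, -(chiL (QB T) bins p : ℂ) * (p : ℂ) ^ (hh (dl c0 T)) *
            (p : ℂ) ^ (-(⟨1 / 2, t⟩ : ℂ))‖ ^ (2 * x.k) := rfl
      rw [e]
      refine hm.trans ?_
      have h4 : ∑ p ∈ QB T x, ‖-(chiL (QB T) bins p : ℂ) * (p : ℂ) ^ (hh (dl c0 T))‖ ^ 2 / p ≤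
          4 * C1 := by
        calc _ ≤ ∑ p ∈ QB T x, 4 * ((1 : ℝ) / p) := by
              refine Finset.sum_le_sum fun p hp => ?_
              have hp0 := (QB_prime hT0 x hx p hp).pos
              have hp1 : (0 : ℝ) < p := by exact_mod_cast hp0
              rw [norm_mul, norm_neg, Complex.norm_real, fm_norm_pow _ hp0, mul_one,
                Real.norm_eq_abs, sq_abs, mul_one_div]
              apply div_le_div_of_nonneg_right _ hp1.le
              have := chiL_bd (QB T) bins (fun x hx => (ok_mem hx).2.2.2.2.1) p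
              nlinarith [this.1, this.2]
          _ = 4 * ∑ p ∈ QB T x, (1 : ℝ) / p := by rw [Finset.mul_sum]
          _ ≤ 4 * C1 := mul_le_mul_of_nonneg_left (hsum x hx T hT) (by norm_num)
      have h5 : (∑ p ∈ QB T x, ‖-(chiL (QB T) bins p : ℂ) * (p : ℂ) ^ (hh (dl c0 T))‖ ^ 2 / p) ^ x.k
          ≤ (4 * C1) ^ x.k := pow_le_pow_left₀ (Finset.sum_nonneg fun p _ => by positivity) h4 _
      have h6 : 60 * (x.k.factorial * (4 * C1) ^ x.k : ℝ) ≤ C2 := by
        rw [hC2]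
        apply List.single_le_sum hnn
        exact List.mem_map_of_mem (f := fun x : Bin => 60 * (x.k.factorial * (4 * C1) ^ x.k : ℝ)) hx
      calc _ ≤ 60 * H * (x.k.factorial * (4 * C1) ^ x.k) := by
            apply mul_le_mul_of_nonneg_left _ (by positivity)
            exact mul_le_mul_of_nonneg_left h5 (by positivity)
        _ = (60 * (x.k.factorial * (4 * C1) ^ x.k : ℝ)) * H := by ring
        _ ≤ C2 * H := mul_le_mul_of_nonneg_right h6 (by linarith))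
  refine ⟨continuous_const.add k1, ?_⟩
  unfold Sx
  rw [intervalIntegral.integral_add (by simp) (k1.intervalIntegrable _ _)]
  rw [len_bins] at k2
  simp only [intervalIntegral.integral_const, add_sub_cancel_left, smul_eq_mul, mul_one]
  push_cast at k2
  linarith

end Pool.Agent.TH299.PG
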